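import Mathlib
open Polynomial Filter Topology Set

namespace LacAngle



/-- distinct positive roots -/
noncomputable def posRoots (P : ℝ[X]) : Finset ℝ := P.roots.toFinset.filter (0 < ·)

theorem mem_posRoots {P : ℝ[X]} (hP : P ≠ 0) {x : ℝ} : x ∈ posRoots P ↔ P.eval x = 0 ∧ 0 < x := by
  unfold posRoots
  rw [Finset.mem_filter, Multiset.mem_toFinset, mem_roots hP, IsRoot.def]

/-- Rolle for `r^(-ν) P(r)` -/
theorem rolle_step (P : ℝ[X]) (hP : P ≠ 0) (ν : ℝ) (h : X * derivative P - C ν * P ≠ 0) :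
    (posRoots P).card ≤ (posRoots (X * derivative P - C ν * P)).card + 1 := by
  refine Finset.card_le_of_interleaved fun x hx y hy hxy _ => ?_
  rw [mem_posRoots hP] at hx hy
  have hd : ∀ r : ℝ, 0 < r → HasDerivAt (fun r => r ^ (-ν) * P.eval r)
      (r ^ (-ν - 1) * (X * derivative P - C ν * P).eval r) r := by
    intro r hr
    have h1 := Real.hasDerivAt_rpow_const (x := r) (p := -ν) (Or.inl hr.ne')
    have h2 := P.hasDerivAt r
    refine (h1.mul h2).congr_deriv ?_
    simp only [eval_sub, eval_mul, eval_X, eval_C]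
    have : r ^ (-ν) = r ^ (-ν - 1) * r := by
      rw [← Real.rpow_add_one hr.ne']; congr 1; ring
    rw [this]; ring
  obtain ⟨c, hc, hc0⟩ := exists_hasDerivAt_eq_zero (f := fun r => r ^ (-ν) * P.eval r)
    (f' := fun r => r ^ (-ν - 1) * (X * derivative P - C ν * P).eval r) hxy
    (fun r hr => (hd r (lt_of_lt_of_le hx.2 hr.1)).continuousAt.continuousWithinAt)
    (by simp only [hx.1, hy.1, mul_zero]) (fun r hr => hd r (lt_trans hx.2 hr.1))
  refine ⟨c, ?_, hc.1, hc.2⟩
  rw [mem_posRoots h]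
  have hcpos : 0 < c := lt_trans hx.2 hc.1
  refine ⟨?_, hcpos⟩
  rcases mul_eq_zero.mp hc0 with h0 | h0
  · exact absurd h0 (Real.rpow_pos_of_pos hcpos _).ne'
  · exact h0

/-- the coefficient sequence `c` has at most `s` sign changes -/
def SC (s : ℕ) (c : ℕ → ℝ) : Prop :=
  ∃ (ε : ℕ → ℝ) (S : Finset ℕ), S.card ≤ s ∧ (∀ j, ε j = 1 ∨ ε j = -1) ∧
    (∀ j, j ∉ S → ε (j + 1) = ε j) ∧ ∀ j, 0 ≤ ε j * c j

theorem descartes (s : ℕ) : ∀ (P : ℝ[X]), P ≠ 0 → SC s P.coeff → (posRoots P).card ≤ s := by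
  induction s with
  | zero =>
    rintro P hP ⟨ε, S, hS, h1, h2, h3⟩
    have hS0 : S = ∅ := by simpa using hS
    subst hS0
    have hconst : ∀ j, ε j = ε 0 := by
      intro j
      induction j with
      | zero => rfl
      | succ k ih => rw [h2 k (by simp), ih]
    rw [Nat.le_zero, Finset.card_eq_zero, Finset.eq_empty_iff_forall_notMem]
    intro x hx
    rw [mem_posRoots hP] at hx
    obtain ⟨hx0, hxpos⟩ := hx
    have hsum : ∑ j ∈ P.support, ε 0 * P.coeff j * x ^ j = 0 := by
      have : P.eval x = ∑ j ∈ P.support, P.coeff j * x ^ j := by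
        rw [eval_eq_sum]; rfl
      calc ∑ j ∈ P.support, ε 0 * P.coeff j * x ^ j = ε 0 * ∑ j ∈ P.support, P.coeff j * x ^ j := by
            rw [Finset.mul_sum]; exact Finset.sum_congr rfl fun j _ => by ring
        _ = 0 := by rw [← this, hx0, mul_zero]
    have hnn : ∀ j ∈ P.support, 0 ≤ ε 0 * P.coeff j * x ^ j := by
      intro j _
      have := h3 j
      rw [hconst j] at this
      exact mul_nonneg this (pow_nonneg hxpos.le _)
    rw [Finset.sum_eq_zero_iff_of_nonneg hnn] at hsum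
    have hne : P.support.Nonempty := by
      rw [Finset.nonempty_iff_ne_empty, Ne, support_eq_empty]; exact hP
    obtain ⟨j, hj⟩ := hne
    have h0 := hsum j hj
    rw [mem_support_iff] at hj
    have hε : ε 0 ≠ 0 := by rcases h1 0 with h | h <;> rw [h] <;> norm_num
    exact absurd h0 (mul_ne_zero (mul_ne_zero hε hj) (pow_pos hxpos _).ne')
  | succ s ih =>
    rintro P hP ⟨ε, S, hS, h1, h2, h3⟩
    by_cases hSe : S = ∅
    · exact (ih P hP ⟨ε, S, by simp [hSe], h1, h2, h3⟩).trans (Nat.le_succ _)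
    obtain ⟨j0, hj0⟩ := Finset.nonempty_iff_ne_empty.mpr hSe
    have hcard : (S.erase j0).card ≤ s := by
      rw [Finset.card_erase_of_mem hj0]; omega
    by_cases hch : ε (j0 + 1) = ε j0
    · refine (ih P hP ⟨ε, S.erase j0, hcard, h1, fun j hj => ?_, h3⟩).trans (Nat.le_succ _)
      by_cases hjj : j = j0
      · rw [hjj]; exact hch
      · exact h2 j (fun hc => hj (Finset.mem_erase.mpr ⟨hjj, hc⟩))
    · set ν : ℝ := (j0 : ℝ) + 1 / 2 with hν
      set P' : ℝ[X] := X * derivative P - C ν * P with hP'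
      have hcoef : ∀ j, P'.coeff j = ((j : ℝ) - ν) * P.coeff j := by
        intro j
        rw [hP', coeff_sub, coeff_C_mul]
        cases j with
        | zero => simp
        | succ k =>
          rw [coeff_X_mul, coeff_derivative]; push_cast; ring
      have hhalf : ∀ j : ℕ, (j : ℝ) - ν ≠ 0 := by
        intro j hj
        have h4 : (2 * (j : ℝ)) = 2 * j0 + 1 := by rw [hν] at hj; linarith
        have h5 : (2 * j : ℕ) = 2 * j0 + 1 := by exact_mod_cast h4
        omega
      have hP'0 : P' ≠ 0 := by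
        intro h0
        apply hP
        ext j
        have := hcoef j
        rw [h0, coeff_zero] at this
        rcases mul_eq_zero.mp this.symm with h | h
        · exact absurd h (hhalf j)
        · rw [h, coeff_zero]
      have hstep := rolle_step P hP ν hP'0
      have hih := ih P' hP'0 ?_
      · exact hstep.trans (Nat.add_le_add_right hih 1)
      refine ⟨fun j => if j ≤ j0 then -ε j else ε j, S.erase j0, hcard, fun j => ?_, fun j hj => ?_,
        fun j => ?_⟩
      · by_cases hj : j ≤ j0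
        · simp only [hj, if_true]; rcases h1 j with h | h <;> rw [h] <;> norm_num
        · simp only [hj, if_false]; exact h1 j
      · by_cases hjj : j = j0
        · subst hjj
          have h6 : ¬ (j + 1 ≤ j) := by omega
          simp only [h6, if_false, le_refl, if_true]
          rcases h1 (j + 1) with h | h <;> rcases h1 j with h' | h' <;> rw [h, h'] at hch ⊢ <;>
            first | (exact absurd rfl hch) | norm_num
        · have hjS : j ∉ S := fun hc => hj (Finset.mem_erase.mpr ⟨hjj, hc⟩)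
          have h7 := h2 j hjS
          by_cases hlt : j ≤ j0
          · have h8 : j + 1 ≤ j0 := by omega
            simp only [hlt, h8, if_true, h7]
          · have h8 : ¬ (j + 1 ≤ j0) := by omega
            simp only [hlt, h8, if_false, h7]
      · rw [hcoef]
        by_cases hj : j ≤ j0
        · simp only [hj, if_true]
          have h9 : (j : ℝ) - ν ≤ 0 := by
            have : (j : ℝ) ≤ j0 := by exact_mod_cast hj
            rw [hν]; linarith
          have := mul_nonneg (neg_nonneg.mpr h9) (h3 j)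
          linarith
        · simp only [hj, if_false]
          have h9 : 0 ≤ (j : ℝ) - ν := by
            have : (j0 : ℝ) + 1 ≤ j := by exact_mod_cast (by omega : j0 + 1 ≤ j)
            rw [hν]; linarith
          have := mul_nonneg h9 (h3 j)
          linarith

/-- multiplication by `1 + X` does not increase the number of sign changes -/
theorem SC.shift {s : ℕ} {c H : ℕ → ℝ} (h : SC s c) (h0 : H 0 = c 0)
    (hs : ∀ l, H (l + 1) = c (l + 1) + c l) : SC s H := by
  classical
  obtain ⟨ε, S, hS, h1, h2, h3⟩ := h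
  set ε' : ℕ → ℝ := fun l => Nat.casesOn l (ε 0) (fun k => if 0 ≤ ε (k + 1) * H (k + 1) then ε (k + 1) else ε k)
    with hε'
  have e0 : ε' 0 = ε 0 := rfl
  have es : ∀ k, ε' (k + 1) = if 0 ≤ ε (k + 1) * H (k + 1) then ε (k + 1) else ε k := fun k => rfl
  have es' : ∀ k, ε' (k + 1) = ε (k + 1) ∨ ε' (k + 1) = ε k := by
    intro k
    rw [es]
    by_cases hc : 0 ≤ ε (k + 1) * H (k + 1)
    · rw [if_pos hc]; exact Or.inl rfl
    · rw [if_neg hc]; exact Or.inr rfl
  have key : ∀ l, ε' l ≠ ε' (l + 1) → (ε' l = ε l → l ∈ S ∧ ε' (l + 1) = ε (l + 1)) ∧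
      (ε' l ≠ ε l → l ≠ 0 ∧ l - 1 ∈ S) := by
    intro l hl
    constructor
    · intro he
      rcases es' l with h4 | h4
      · refine ⟨?_, h4⟩
        by_contra hlS
        apply hl
        rw [he, h4, h2 l hlS]
      · exact absurd (by rw [he, h4]) hl
    · intro he
      cases l with
      | zero => exact absurd e0 he
      | succ k =>
        refine ⟨Nat.succ_ne_zero _, ?_⟩
        rw [Nat.add_sub_cancel]
        by_contra hkS
        rcases es' k with h4 | h4
        · exact he h4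
        · exact he (by rw [h4, h2 k hkS])
  refine ⟨ε', (S ∪ S.image (· + 1)).filter (fun l => ε' l ≠ ε' (l + 1)), ?_, ?_, ?_, ?_⟩
  · refine le_trans ?_ hS
    refine Finset.card_le_card_of_injOn (fun l => if ε' l = ε l then l else l - 1) ?_ ?_
    · intro l hl
      have hl2 := (Finset.mem_filter.mp (Finset.mem_coe.mp hl)).2
      by_cases he : ε' l = ε l
      · simp only [he, if_true]; exact ((key l hl2).1 he).1
      · simp only [he, if_false]; exact ((key l hl2).2 he).2
    · intro l hl l' hl' heq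
      have hl2 := (Finset.mem_filter.mp (Finset.mem_coe.mp hl)).2
      have hl2' := (Finset.mem_filter.mp (Finset.mem_coe.mp hl')).2
      by_cases he : ε' l = ε l <;> by_cases he' : ε' l' = ε l'
      · simpa only [he, he', if_true] using heq
      · simp only [he, he', if_true, if_false] at heq
        have hne := ((key l' hl2').2 he').1
        have h5 : l' = l + 1 := by omega
        exact absurd (by rw [h5]; exact ((key l hl2).1 he).2) he'
      · simp only [he, he', if_true, if_false] at heq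
        have hne := ((key l hl2).2 he).1
        have h5 : l = l' + 1 := by omega
        exact absurd (by rw [h5]; exact ((key l' hl2').1 he').2) he
      · simp only [he, he', if_false] at heq
        have hne := ((key l hl2).2 he).1
        have hne' := ((key l' hl2').2 he').1
        omega
  · intro j
    cases j with
    | zero => rw [e0]; exact h1 0
    | succ k =>
      rcases es' k with h4 | h4 <;> rw [h4]
      · exact h1 _
      · exact h1 _
  · intro j hj
    by_contra hne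
    apply hj
    have hne' : ε' j ≠ ε' (j + 1) := fun h => hne h.symm
    refine Finset.mem_filter.mpr ⟨?_, hne'⟩
    by_cases he : ε' j = ε j
    · exact Finset.mem_union_left _ ((key j hne').1 he).1
    · obtain ⟨ha, hb⟩ := (key j hne').2 he
      refine Finset.mem_union_right _ (Finset.mem_image.mpr ⟨j - 1, hb, ?_⟩)
      omega
  · intro j
    cases j with
    | zero => rw [e0, h0]; exact h3 0
    | succ k =>
      rw [es]
      by_cases hc : 0 ≤ ε (k + 1) * H (k + 1)
      · rw [if_pos hc]; exact hc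
      · rw [if_neg hc]
        push Not at hc
        have hck := h3 k
        have hck1 := h3 (k + 1)
        rw [hs] at hc ⊢
        rcases h1 k with hk | hk <;> rcases h1 (k + 1) with hk1 | hk1 <;>
          rw [hk1] at hc hck1 <;> rw [hk] at hck ⊢ <;> linarith



noncomputable def wt (s : ℕ → ℝ) (Q : ℝ[X]) : ℝ[X] := ∑ j ∈ Q.support, monomial j (Q.coeff j * s j)

theorem coeff_wt (s : ℕ → ℝ) (Q : ℝ[X]) (j : ℕ) : (wt s Q).coeff j = Q.coeff j * s j := by
  classical
  unfold wt
  rw [finsetSum_coeff]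
  simp only [coeff_monomial]
  rw [Finset.sum_ite_eq']
  by_cases h : j ∈ Q.support
  · simp [h]
  · simp only [h, if_false]
    rw [notMem_support_iff] at h
    rw [h, zero_mul]

theorem eval_wt (Q : ℝ[X]) (μ θ r : ℝ) :
    (wt (fun j => Real.sin (((j : ℝ) - μ) * θ)) Q).eval r =
      (Complex.exp (((-(μ * θ) : ℝ) : ℂ) * Complex.I) *
        aeval ((r : ℂ) * Complex.exp ((θ : ℂ) * Complex.I)) Q).im := by
  have h1 : aeval ((r : ℂ) * Complex.exp ((θ : ℂ) * Complex.I)) Q =
      ∑ j ∈ Q.support, (Q.coeff j : ℂ) * ((r : ℂ) * Complex.exp ((θ : ℂ) * Complex.I)) ^ j := by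
    rw [aeval_eq_sum_range' (lt_add_one _)]
    rw [← Finset.sum_subset (s₁ := Q.support)]
    · exact Finset.sum_congr rfl fun j _ => by simp [Algebra.smul_def]
    · intro j hj
      rw [Finset.mem_range]
      exact Nat.lt_succ_of_le (le_natDegree_of_mem_supp j hj)
    · intro j _ hj
      rw [notMem_support_iff] at hj
      rw [hj, zero_smul]
  have h2 : (wt (fun j => Real.sin (((j : ℝ) - μ) * θ)) Q).eval r =
      ∑ j ∈ Q.support, Q.coeff j * Real.sin (((j : ℝ) - μ) * θ) * r ^ j := by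
    unfold wt
    rw [eval_finsetSum]
    exact Finset.sum_congr rfl fun j _ => by rw [eval_monomial]
  rw [h1, h2, Finset.mul_sum, Complex.im_sum]
  refine Finset.sum_congr rfl fun j _ => ?_
  have h3 : Complex.exp (((-(μ * θ) : ℝ) : ℂ) * Complex.I) *
      ((Q.coeff j : ℂ) * ((r : ℂ) * Complex.exp ((θ : ℂ) * Complex.I)) ^ j) =
      ((Q.coeff j * r ^ j : ℝ) : ℂ) * Complex.exp ((((j : ℝ) - μ) * θ : ℝ) * Complex.I) := by
    rw [mul_pow, ← Complex.exp_nat_mul]
    have : Complex.exp ((((j : ℝ) - μ) * θ : ℝ) * Complex.I) =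
        Complex.exp (((-(μ * θ) : ℝ) : ℂ) * Complex.I) * Complex.exp ((j : ℂ) * ((θ : ℂ) * Complex.I)) := by
      rw [← Complex.exp_add]; congr 1; push_cast; ring
    rw [this]; push_cast; ring
  rw [h3, Complex.im_ofReal_mul, Complex.exp_ofReal_mul_I_im]
  ring

/-- multiset of complex roots -/
noncomputable def croots (Q : ℝ[X]) : Multiset ℂ := (Q.map (algebraMap ℝ ℂ)).roots

theorem croots_conj (Q : ℝ[X]) : (croots Q).map (starRingEnd ℂ) = croots Q := by
  unfold croots
  have h1 : (Q.map (algebraMap ℝ ℂ)).map (starRingEnd ℂ) = Q.map (algebraMap ℝ ℂ) := by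
    rw [Polynomial.map_map]
    congr 1
    ext x
    simp
  conv_rhs => rw [← h1]
  exact (Splits.roots_map (IsAlgClosed.splits (Q.map (algebraMap ℝ ℂ))) (starRingEnd ℂ)).symm

theorem card_croots (Q : ℝ[X]) : Multiset.card (croots Q) = Q.natDegree := by
  unfold croots
  rw [IsAlgClosed.card_roots_eq_natDegree, natDegree_map]

theorem zero_notMem_croots {Q : ℝ[X]} (h0 : Q.coeff 0 ≠ 0) : (0 : ℂ) ∉ croots Q := by
  intro h
  have hQ : Q.map (algebraMap ℝ ℂ) ≠ 0 := by
    intro h1
    apply h0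
    have : (Q.map (algebraMap ℝ ℂ)).coeff 0 = 0 := by rw [h1, coeff_zero]
    rw [coeff_map] at this
    simpa using this
  unfold croots at h
  rw [mem_roots hQ, IsRoot.def, ← coeff_zero_eq_eval_zero, coeff_map] at h
  apply h0
  simpa using h

theorem prod_form (Q : ℝ[X]) (h0 : Q.coeff 0 ≠ 0) (z : ℂ) :
    aeval z Q = (Q.coeff 0 : ℂ) * ((croots Q).map (fun ζ => 1 - z / ζ)).prod := by
  have hsp := (IsAlgClosed.splits (Q.map (algebraMap ℝ ℂ))).eq_prod_roots
  have hev : ∀ w : ℂ, aeval w Q = (Q.map (algebraMap ℝ ℂ)).leadingCoeff *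
      ((croots Q).map (fun ζ => w - ζ)).prod := by
    intro w
    rw [aeval_def, ← eval_map]
    conv_lhs => rw [hsp]
    rw [eval_mul, eval_C, eval_multiset_prod, Multiset.map_map]
    unfold croots
    congr 2
    simp
  have hz := hev 0
  rw [hev z]
  have h1 : aeval (0 : ℂ) Q = (Q.coeff 0 : ℂ) := by
    rw [← coeff_zero_eq_aeval_zero']
    simp
  rw [h1] at hz
  rw [hz, mul_assoc, ← Multiset.prod_map_mul]
  congr 2
  refine Multiset.map_congr rfl fun ζ hζ => ?_
  have hne : ζ ≠ 0 := fun h => zero_notMem_croots h0 (h ▸ hζ)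
  field_simp
  ring

/-- argument function of a product along a ray -/
theorem arg_fun (θ : ℝ) (hθ0 : 0 < θ) (hθπ : θ < Real.pi) (S : Multiset ℂ)
    (hS : ∀ ζ ∈ S, ζ ≠ 0 ∧ ζ.arg ≠ θ) :
    ContinuousOn (fun r : ℝ => (S.map (fun ζ => (1 - (r : ℂ) * Complex.exp ((θ : ℂ) * Complex.I) / ζ).arg)).sum) (Ici 0) ∧
    Tendsto (fun r : ℝ => (S.map (fun ζ => (1 - (r : ℂ) * Complex.exp ((θ : ℂ) * Complex.I) / ζ).arg)).sum) atTop
      (𝓝 (S.map (fun ζ => (-Complex.exp ((θ : ℂ) * Complex.I) / ζ).arg)).sum) ∧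
    ∀ r : ℝ, (S.map (fun ζ => 1 - (r : ℂ) * Complex.exp ((θ : ℂ) * Complex.I) / ζ)).prod =
      (‖(S.map (fun ζ => 1 - (r : ℂ) * Complex.exp ((θ : ℂ) * Complex.I) / ζ)).prod‖ : ℂ) *
       Complex.exp (((S.map (fun ζ => (1 - (r : ℂ) * Complex.exp ((θ : ℂ) * Complex.I) / ζ).arg)).sum : ℝ) * Complex.I) := by
  induction S using Multiset.induction_on with
  | empty => simp [continuousOn_const]
  | cons ζ S ih =>
    obtain ⟨ih1, ih2, ih3⟩ := ih (fun ξ hξ => hS ξ (Multiset.mem_cons_of_mem hξ))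
    obtain ⟨hζ0, hζθ⟩ := hS ζ (Multiset.mem_cons_self ζ S)
    set w : ℂ := Complex.exp ((θ : ℂ) * Complex.I) / ζ with hw
    have hw0 : w ≠ 0 := div_ne_zero (Complex.exp_ne_zero _) hζ0
    have hwpos : ¬ (0 ≤ w.re ∧ w.im = 0) := by
      rintro ⟨h1, h2⟩
      apply hζθ
      have hwr : w = (w.re : ℂ) := by
        apply Complex.ext
        · simp
        · simpa using h2
      have hre : 0 < w.re := by
        rcases h1.lt_or_eq with h | h
        · exact h
        · exact absurd (by rw [hwr, ← h]; simp) hw0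
      have hζ : ζ = ((w.re)⁻¹ : ℝ) * Complex.exp ((θ : ℂ) * Complex.I) := by
        have h3 : Complex.exp ((θ : ℂ) * Complex.I) = w * ζ := by rw [hw]; field_simp
        rw [h3]
        nth_rw 2 [hwr]
        push_cast
        have : (w.re : ℂ) ≠ 0 := by exact_mod_cast hre.ne'
        field_simp
      rw [hζ, Complex.arg_real_mul _ (inv_pos.mpr hre), Complex.exp_mul_I,
        Complex.arg_cos_add_sin_mul_I ⟨by linarith [Real.pi_pos], hθπ.le⟩]
    have hmul : ∀ r : ℝ, 1 - (r : ℂ) * Complex.exp ((θ : ℂ) * Complex.I) / ζ = 1 - r * w := by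
      intro r; rw [hw]; ring
    have hslit : ∀ r : ℝ, 0 ≤ r → (1 - (r : ℂ) * w) ∈ Complex.slitPlane := by
      intro r hr
      rw [Complex.mem_slitPlane_iff]
      by_cases h : (1 - (r : ℂ) * w).im = 0
      · left
        have h1 : r * w.im = 0 := by
          have : (1 - (r : ℂ) * w).im = -(r * w.im) := by simp
          rw [this] at h; linarith
        have h2 : (1 - (r : ℂ) * w).re = 1 - r * w.re := by simp
        rw [h2]
        rcases mul_eq_zero.mp h1 with h3 | h3
        · rw [h3]; simp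
        · have : w.re < 0 := by
            by_contra hc
            exact hwpos ⟨not_lt.mp hc, h3⟩
          nlinarith
      · right; exact h
    have hslit2 : (-w) ∈ Complex.slitPlane := by
      rw [Complex.mem_slitPlane_iff]
      by_cases h : w.im = 0
      · left
        have : w.re < 0 := by
          by_contra hc
          exact hwpos ⟨not_lt.mp hc, h⟩
        simpa using this
      · right; simpa using h
    refine ⟨?_, ?_, ?_⟩
    · simp only [Multiset.map_cons, Multiset.sum_cons]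
      refine ContinuousOn.add ?_ ih1
      intro r hr
      simp only [hmul]
      refine ContinuousAt.continuousWithinAt ?_
      have h4 := Complex.continuousAt_arg (hslit r hr)
      exact ContinuousAt.comp (f := fun r : ℝ => 1 - (r : ℂ) * w) h4
        (by fun_prop)
    · simp only [Multiset.map_cons, Multiset.sum_cons]
      refine Tendsto.add ?_ ih2
      simp only [hmul]
      have h5 : -Complex.exp ((θ : ℂ) * Complex.I) / ζ = -w := by rw [hw]; ring
      rw [h5]
      have h6 : Tendsto (fun r : ℝ => ((r⁻¹ : ℝ) : ℂ) - w) atTop (𝓝 (-w)) := by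
        have : Tendsto (fun r : ℝ => ((r⁻¹ : ℝ) : ℂ)) atTop (𝓝 ((0 : ℝ) : ℂ)) :=
          (Complex.continuous_ofReal.tendsto 0).comp tendsto_inv_atTop_zero
        simpa using this.sub_const w
      have h7 := (Complex.continuousAt_arg hslit2).tendsto.comp h6
      refine h7.congr' ?_
      filter_upwards [eventually_gt_atTop 0] with r hr
      simp only [Function.comp]
      have : (1 - (r : ℂ) * w) = (r : ℂ) * (((r⁻¹ : ℝ) : ℂ) - w) := by
        push_cast
        have : (r : ℂ) ≠ 0 := by exact_mod_cast hr.ne'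
        field_simp
      rw [this, Complex.arg_real_mul _ hr]
    · intro r
      simp only [Multiset.map_cons, Multiset.prod_cons, Multiset.sum_cons]
      rw [norm_mul]
      conv_lhs => rw [ih3 r, ← Complex.norm_mul_exp_arg_mul_I (1 - (r : ℂ) * Complex.exp ((θ : ℂ) * Complex.I) / ζ)]
      push_cast
      rw [add_mul, Complex.exp_add]
      ring

theorem arg_pair (θ : ℝ) (hθ0 : 0 < θ) (hθπ : θ < Real.pi) (ζ : ℂ) (hζ : ζ ≠ 0) (h : |ζ.arg| ≠ θ) :
    (-Complex.exp ((θ : ℂ) * Complex.I) / ζ).arg +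
      (-Complex.exp ((θ : ℂ) * Complex.I) / (starRingEnd ℂ) ζ).arg =
      2 * θ - if |ζ.arg| < θ then 2 * Real.pi else 0 := by
  have key : ∀ ξ : ℂ, ξ ≠ 0 → ξ.arg ≠ θ → (-Complex.exp ((θ : ℂ) * Complex.I) / ξ).arg =
      if θ < ξ.arg then θ - ξ.arg + Real.pi else θ - ξ.arg - Real.pi := by
    intro ξ hξ hξθ
    have hn : 0 < ‖ξ‖ := norm_pos_iff.mpr hξ
    have hform : ∀ s : ℝ, (s = 1 ∨ s = -1) → -Complex.exp ((θ : ℂ) * Complex.I) / ξ =
        ((‖ξ‖⁻¹ : ℝ) : ℂ) * Complex.exp (((θ - ξ.arg + s * Real.pi : ℝ) : ℂ) * Complex.I) := by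
      intro s hs
      have h1 : Complex.exp (((s * Real.pi : ℝ) : ℂ) * Complex.I) = -1 := by
        rcases hs with h | h
        · rw [h]; simp [Complex.exp_pi_mul_I]
        · rw [h]
          have : (((-1 * Real.pi : ℝ) : ℂ) * Complex.I) = -(Real.pi * Complex.I) := by push_cast; ring
          rw [this, Complex.exp_neg, Complex.exp_pi_mul_I]; norm_num
      have h2 : Complex.exp (((θ - ξ.arg + s * Real.pi : ℝ) : ℂ) * Complex.I) =
          Complex.exp ((θ : ℂ) * Complex.I) * Complex.exp (-(ξ.arg * Complex.I)) *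
            Complex.exp (((s * Real.pi : ℝ) : ℂ) * Complex.I) := by
        rw [← Complex.exp_add, ← Complex.exp_add]; congr 1; push_cast; ring
      rw [h2, h1, Complex.exp_neg]
      conv_lhs => rw [← Complex.norm_mul_exp_arg_mul_I ξ]
      have h3 : (‖ξ‖ : ℂ) ≠ 0 := by exact_mod_cast hn.ne'
      have h4 := Complex.exp_ne_zero (ξ.arg * Complex.I)
      push_cast
      field_simp
    have hb := Complex.neg_pi_lt_arg ξ
    have hb2 := Complex.arg_le_pi ξ
    by_cases hlt : θ < ξ.arg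
    · rw [if_pos hlt, hform 1 (Or.inl rfl), Complex.arg_real_mul _ (inv_pos.mpr hn), Complex.exp_mul_I,
        Complex.arg_cos_add_sin_mul_I ⟨by linarith, by linarith⟩]
      ring
    · have hlt' : ξ.arg < θ := lt_of_le_of_ne (not_lt.mp hlt) hξθ
      rw [if_neg hlt, hform (-1) (Or.inr rfl), Complex.arg_real_mul _ (inv_pos.mpr hn), Complex.exp_mul_I,
        Complex.arg_cos_add_sin_mul_I ⟨by linarith, by linarith⟩]
      ring
  have hζθ : ζ.arg ≠ θ := fun hc => h (by rw [hc, abs_of_pos hθ0])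
  have hc0 : (starRingEnd ℂ) ζ ≠ 0 := by simpa using hζ
  have hcarg := Complex.arg_conj ζ
  by_cases hpi : ζ.arg = Real.pi
  · rw [if_pos hpi] at hcarg
    have hcθ : ((starRingEnd ℂ) ζ).arg ≠ θ := by rw [hcarg]; exact hθπ.ne'
    rw [key ζ hζ hζθ, key _ hc0 hcθ, hcarg, hpi, abs_of_pos Real.pi_pos]
    rw [if_pos hθπ, if_neg (by linarith)]
    ring
  · rw [if_neg hpi] at hcarg
    have hcθ : ((starRingEnd ℂ) ζ).arg ≠ θ := by
      rw [hcarg]
      intro hc
      apply h
      have : ζ.arg = -θ := by linarith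
      rw [this, abs_neg, abs_of_pos hθ0]
    rw [key ζ hζ hζθ, key _ hc0 hcθ, hcarg]
    by_cases h1 : θ < ζ.arg
    · have h2 : ¬ (θ < -ζ.arg) := by linarith
      have h3 : ¬ (|ζ.arg| < θ) := by
        intro hc; have := (abs_lt.mp hc).2; linarith
      rw [if_pos h1, if_neg h2, if_neg h3]; ring
    · by_cases h2 : θ < -ζ.arg
      · have h3 : ¬ (|ζ.arg| < θ) := by
          intro hc; have := (abs_lt.mp hc).1; linarith
        rw [if_neg h1, if_pos h2, if_neg h3]; ring
      · have h3 : |ζ.arg| < θ := by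
          refine lt_of_le_of_ne (abs_le.mpr ⟨by linarith, by linarith⟩) h
        rw [if_neg h1, if_neg h2, if_pos h3]; ring

open Classical in
theorem arg_total (θ : ℝ) (hθ0 : 0 < θ) (hθπ : θ < Real.pi) (S : Multiset ℂ)
    (hconj : S.map (starRingEnd ℂ) = S) (hS : ∀ ζ ∈ S, ζ ≠ 0 ∧ |ζ.arg| ≠ θ) :
    (S.map (fun ζ => (-Complex.exp ((θ : ℂ) * Complex.I) / ζ).arg)).sum =
      Multiset.card S * θ - Real.pi * Multiset.card (S.filter (fun ζ => |ζ.arg| < θ)) := by
  have h1 : (S.map (fun ζ => (-Complex.exp ((θ : ℂ) * Complex.I) / ζ).arg)).sum +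
      (S.map (fun ζ => (-Complex.exp ((θ : ℂ) * Complex.I) / (starRingEnd ℂ) ζ).arg)).sum =
      (S.map (fun ζ => 2 * θ - if |ζ.arg| < θ then 2 * Real.pi else 0)).sum := by
    rw [← Multiset.sum_map_add]
    congr 1
    refine Multiset.map_congr rfl fun ζ hζ => ?_
    exact arg_pair θ hθ0 hθπ ζ (hS ζ hζ).1 (hS ζ hζ).2
  have h2 : (S.map (fun ζ => (-Complex.exp ((θ : ℂ) * Complex.I) / (starRingEnd ℂ) ζ).arg)).sum =
      (S.map (fun ζ => (-Complex.exp ((θ : ℂ) * Complex.I) / ζ).arg)).sum := by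
    conv_rhs => rw [← hconj, Multiset.map_map]
    rfl
  have h3 : ∀ T : Multiset ℂ, (T.map (fun ζ => 2 * θ - if |ζ.arg| < θ then 2 * Real.pi else 0)).sum =
      2 * (Multiset.card T * θ - Real.pi * Multiset.card (T.filter (fun ζ => |ζ.arg| < θ))) := by
    intro T
    induction T using Multiset.induction_on with
    | empty => simp
    | cons ζ T ih =>
      rw [Multiset.map_cons, Multiset.sum_cons, ih, Multiset.card_cons]
      by_cases hc : |ζ.arg| < θ
      · rw [Multiset.filter_cons_of_pos (p := fun ζ : ℂ => |ζ.arg| < θ) T hc, Multiset.card_cons, if_pos hc]; push_cast; ring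
      · rw [Multiset.filter_cons_of_neg (p := fun ζ : ℂ => |ζ.arg| < θ) T hc, if_neg hc]; push_cast; ring
  rw [h2, h3] at h1
  linarith


open Classical in
/-- number of roots in the open sector `|arg| < θ` -/
noncomputable def secCount (θ : ℝ) (Q : ℝ[X]) : ℕ :=
  Multiset.card ((croots Q).filter (fun ζ => |ζ.arg| < θ))

/-- the winding argument: for every level strictly between `0` and the total change of argument
there is a point on the ray where the argument is at that level -/
theorem winding (Q : ℝ[X]) (hQ0 : 0 < Q.coeff 0) (θ : ℝ) (hθ0 : 0 < θ) (hθπ : θ < Real.pi)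
    (hray : ∀ ζ ∈ croots Q, |ζ.arg| ≠ θ) :
    ∃ α : ℝ → ℝ, (∀ v : ℝ, 0 < v → v < Q.natDegree * θ - Real.pi * secCount θ Q →
      ∃ r : ℝ, 0 < r ∧ α r = v) ∧
      ∀ r : ℝ, ∃ t : ℝ, aeval ((r : ℂ) * Complex.exp ((θ : ℂ) * Complex.I)) Q =
        (t : ℂ) * Complex.exp ((α r : ℂ) * Complex.I) := by
  have hS : ∀ ζ ∈ croots Q, ζ ≠ 0 ∧ |ζ.arg| ≠ θ := fun ζ hζ =>
    ⟨fun h => zero_notMem_croots hQ0.ne' (h ▸ hζ), hray ζ hζ⟩
  have hS' : ∀ ζ ∈ croots Q, ζ ≠ 0 ∧ ζ.arg ≠ θ := fun ζ hζ =>
    ⟨(hS ζ hζ).1, fun h => (hS ζ hζ).2 (by rw [h, abs_of_pos hθ0])⟩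
  obtain ⟨h1, h2, h3⟩ := arg_fun θ hθ0 hθπ (croots Q) hS'
  rw [arg_total θ hθ0 hθπ (croots Q) (croots_conj Q) hS, card_croots] at h2
  set α : ℝ → ℝ := fun r => ((croots Q).map (fun ζ => (1 - (r : ℂ) * Complex.exp ((θ : ℂ) * Complex.I) / ζ).arg)).sum
    with hα
  have hα0 : α 0 = 0 := by
    rw [hα]
    simp
  refine ⟨α, ?_, ?_⟩
  · intro v hv0 hv
    have hev : ∀ᶠ r in atTop, v < α r := h2.eventually_const_lt hv
    obtain ⟨R, hR1, hR2⟩ := (hev.and (eventually_ge_atTop (1 : ℝ))).exists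
    have hsub : Set.Ioo (α 0) (α R) ⊆ α '' Set.Ioo 0 R :=
      intermediate_value_Ioo (by linarith) (h1.mono Set.Icc_subset_Ici_self)
    obtain ⟨r, hr, hrv⟩ := hsub ⟨by rw [hα0]; exact hv0, hR1⟩
    exact ⟨r, hr.1, hrv⟩
  · intro r
    refine ⟨Q.coeff 0 * ‖((croots Q).map (fun ζ => 1 - (r : ℂ) * Complex.exp ((θ : ℂ) * Complex.I) / ζ)).prod‖, ?_⟩
    rw [prod_form Q hQ0.ne']
    conv_lhs => rw [h3 r]
    rw [Complex.ofReal_mul, mul_assoc]



/-! ### the block structure -/

/-- index of the sign block of `j` -/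
def kap (n L m0 : ℕ) (j : ℕ) : ℤ := (2 * (L : ℤ) * ((j : ℤ) - m0) - 1) / (2 * ((n : ℤ) * L - 1))

section blocks
variable {n L : ℕ} (hn : 2 ≤ n) (hL : 2 ≤ L) (m0 : ℕ)
include hn hL

theorem D_pos : (3 : ℤ) ≤ (n : ℤ) * L - 1 := by
  have h1 : (2 : ℤ) ≤ n := by exact_mod_cast hn
  have h2 : (2 : ℤ) ≤ L := by exact_mod_cast hL
  nlinarith

theorem kap_eq_iff (j : ℕ) (k : ℤ) : kap n L m0 j = k ↔
    2 * ((n : ℤ) * L - 1) * k ≤ 2 * (L : ℤ) * ((j : ℤ) - m0) - 1 ∧
      2 * (L : ℤ) * ((j : ℤ) - m0) - 1 < 2 * ((n : ℤ) * L - 1) * (k + 1) := by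
  have hD := D_pos hn hL
  unfold kap
  constructor
  · intro h
    subst h
    constructor
    · exact Int.mul_ediv_self_le (by omega : 2 * ((n : ℤ) * L - 1) ≠ 0)
    · have := Int.lt_mul_ediv_self_add (x := 2 * (L : ℤ) * ((j : ℤ) - m0) - 1) (by omega : 0 < 2 * ((n : ℤ) * L - 1))
      linarith
  · rintro ⟨h1, h2⟩
    apply le_antisymm
    · apply Int.le_of_lt_add_one
      rw [Int.ediv_lt_iff_lt_mul (by omega)]
      linarith [mul_comm (2 * ((n : ℤ) * L - 1)) (k + 1)]
    · rw [Int.le_ediv_iff_mul_le (by omega)]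
      linarith [mul_comm (2 * ((n : ℤ) * L - 1)) k]

/-- blocks around the gap number `t` -/
theorem kap_gap (t j : ℕ) : kap n L m0 j = t * L ↔
    (m0 + t * (n * L - 1) < j ∧ j < m0 + t * (n * L - 1) + n) := by
  rw [kap_eq_iff hn hL]
  have h1 : (1 : ℤ) ≤ (n : ℤ) * L := by have := D_pos hn hL; omega
  have hcast : ((n * L - 1 : ℕ) : ℤ) = (n : ℤ) * L - 1 := by
    rw [Nat.cast_sub (by exact_mod_cast h1)]; push_cast; ring
  have hn' : (2 : ℤ) ≤ n := by exact_mod_cast hn
  have hL' : (2 : ℤ) ≤ L := by exact_mod_cast hL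
  set m : ℤ := (m0 : ℤ) + t * ((n : ℤ) * L - 1) with hm
  have e1 : (m0 + t * (n * L - 1) < j) ↔ m < j := by
    rw [hm, ← hcast]; exact_mod_cast Iff.rfl
  have e2 : (j < m0 + t * (n * L - 1) + n) ↔ (j : ℤ) < m + n := by
    rw [hm, ← hcast]; exact_mod_cast Iff.rfl
  rw [e1, e2]
  have e3 : 2 * (L : ℤ) * ((j : ℤ) - m0) - 1 = 2 * L * (j - m) + 2 * L * (t * ((n : ℤ) * L - 1)) - 1 := by
    rw [hm]; ring
  have e4 : 2 * ((n : ℤ) * L - 1) * (t * L) = 2 * L * (t * ((n : ℤ) * L - 1)) := by ring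
  have e5 : 2 * ((n : ℤ) * L - 1) * (t * L + 1) = 2 * L * (t * ((n : ℤ) * L - 1)) + 2 * (n * L - 1) := by ring
  rw [e3, e4, e5]
  constructor
  · rintro ⟨h2, h3⟩
    constructor
    · by_contra hc
      push Not at hc
      nlinarith
    · by_contra hc
      push Not at hc
      nlinarith
  · rintro ⟨h2, h3⟩
    have h4 : 1 ≤ (j : ℤ) - m := by linarith
    have h5 : (j : ℤ) - m ≤ n - 1 := by linarith
    constructor
    · nlinarith
    · nlinarith

theorem kap_before (t j : ℕ) (h1 : j ≤ m0 + t * (n * L - 1)) (h2 : m0 + t * (n * L - 1) < j + n) :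
    kap n L m0 j = t * L - 1 := by
  rw [kap_eq_iff hn hL]
  have h1' : (1 : ℤ) ≤ (n : ℤ) * L := by have := D_pos hn hL; omega
  have hcast : ((n * L - 1 : ℕ) : ℤ) = (n : ℤ) * L - 1 := by
    rw [Nat.cast_sub (by exact_mod_cast h1')]; push_cast; ring
  have hn' : (2 : ℤ) ≤ n := by exact_mod_cast hn
  have hL' : (2 : ℤ) ≤ L := by exact_mod_cast hL
  have g1 : (j : ℤ) ≤ (m0 : ℤ) + t * ((n : ℤ) * L - 1) := by rw [← hcast]; exact_mod_cast h1
  have g2 : (m0 : ℤ) + t * ((n : ℤ) * L - 1) < (j : ℤ) + n := by rw [← hcast]; exact_mod_cast h2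
  set m : ℤ := (m0 : ℤ) + t * ((n : ℤ) * L - 1) with hm
  have e3 : 2 * (L : ℤ) * ((j : ℤ) - m0) - 1 = 2 * L * (t * ((n : ℤ) * L - 1)) - 2 * L * (m - j) - 1 := by
    rw [hm]; ring
  have e4 : 2 * ((n : ℤ) * L - 1) * (t * L - 1) = 2 * L * (t * ((n : ℤ) * L - 1)) - 2 * (n * L - 1) := by ring
  have e5 : 2 * ((n : ℤ) * L - 1) * (t * L - 1 + 1) = 2 * L * (t * ((n : ℤ) * L - 1)) := by ring
  rw [e3, e4, e5]
  have h4 : 0 ≤ m - (j : ℤ) := by linarith
  have h5 : m - (j : ℤ) ≤ n - 1 := by linarith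
  constructor
  · nlinarith
  · nlinarith

theorem kap_after (t j : ℕ) (h1 : m0 + t * (n * L - 1) + n ≤ j) (h2 : j < m0 + t * (n * L - 1) + 2 * n) :
    kap n L m0 j = t * L + 1 := by
  rw [kap_eq_iff hn hL]
  have h1' : (1 : ℤ) ≤ (n : ℤ) * L := by have := D_pos hn hL; omega
  have hcast : ((n * L - 1 : ℕ) : ℤ) = (n : ℤ) * L - 1 := by
    rw [Nat.cast_sub (by exact_mod_cast h1')]; push_cast; ring
  have hn' : (2 : ℤ) ≤ n := by exact_mod_cast hn
  have hL' : (2 : ℤ) ≤ L := by exact_mod_cast hL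
  have g1 : (m0 : ℤ) + t * ((n : ℤ) * L - 1) + n ≤ (j : ℤ) := by rw [← hcast]; exact_mod_cast h1
  have g2 : (j : ℤ) < (m0 : ℤ) + t * ((n : ℤ) * L - 1) + 2 * n := by rw [← hcast]; exact_mod_cast h2
  set m : ℤ := (m0 : ℤ) + t * ((n : ℤ) * L - 1) with hm
  have e3 : 2 * (L : ℤ) * ((j : ℤ) - m0) - 1 = 2 * L * (t * ((n : ℤ) * L - 1)) + 2 * L * (j - m) - 1 := by
    rw [hm]; ring
  have e4 : 2 * ((n : ℤ) * L - 1) * (t * L + 1) = 2 * L * (t * ((n : ℤ) * L - 1)) + 2 * (n * L - 1) := by ring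
  have e5 : 2 * ((n : ℤ) * L - 1) * (t * L + 1 + 1) = 2 * L * (t * ((n : ℤ) * L - 1)) + 4 * (n * L - 1) := by ring
  rw [e3, e4, e5]
  have h4 : (n : ℤ) ≤ (j : ℤ) - m := by linarith
  have h5 : (j : ℤ) - m ≤ 2 * n - 1 := by linarith
  constructor
  · nlinarith
  · nlinarith

theorem kap_succ (j : ℕ) : kap n L m0 (j + 1) = kap n L m0 j ∨ kap n L m0 (j + 1) = kap n L m0 j + 1 := by
  have hD := D_pos hn hL
  have hn' : (2 : ℤ) ≤ n := by exact_mod_cast hn
  have hL' : (2 : ℤ) ≤ L := by exact_mod_cast hL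
  obtain ⟨h1, h2⟩ := (kap_eq_iff hn hL m0 j (kap n L m0 j)).mp rfl
  set k := kap n L m0 j
  have e : 2 * (L : ℤ) * (((j + 1 : ℕ) : ℤ) - m0) - 1 = (2 * (L : ℤ) * ((j : ℤ) - m0) - 1) + 2 * L := by
    push_cast; ring
  have hLD : 2 * (L : ℤ) ≤ 2 * ((n : ℤ) * L - 1) := by nlinarith
  by_cases hc : (2 * (L : ℤ) * ((j : ℤ) - m0) - 1) + 2 * L < 2 * ((n : ℤ) * L - 1) * (k + 1)
  · left
    rw [kap_eq_iff hn hL, e]
    exact ⟨by linarith, hc⟩
  · right
    push Not at hc
    rw [kap_eq_iff hn hL, e]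
    exact ⟨hc, by nlinarith⟩

/-- number of sign changes of the block structure -/
theorem card_changes (N : ℕ) :
    (((Finset.range N).filter (fun j => kap n L m0 (j + 1) ≠ kap n L m0 j)).card : ℤ) =
      kap n L m0 N - kap n L m0 0 := by
  induction N with
  | zero => simp
  | succ N ih =>
    rw [Finset.range_add_one, Finset.filter_insert]
    by_cases h : kap n L m0 (N + 1) ≠ kap n L m0 N
    · rw [if_pos h, Finset.card_insert_of_notMem (by simp)]
      rcases kap_succ hn hL m0 N with h1 | h1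
      · exact absurd h1 h
      · push_cast; rw [ih, h1]; ring
    · rw [if_neg h, ih]
      push Not at h
      rw [h]

end blocks

/-- the angle -/
noncomputable def ang (n L : ℕ) : ℝ := Real.pi * L / ((n : ℝ) * L - 1)
/-- the phase -/
noncomputable def phs (L m0 : ℕ) : ℝ := (m0 : ℝ) + 1 / (2 * L)
/-- weights -/
noncomputable def sj (n L m0 : ℕ) (j : ℕ) : ℝ := Real.sin (((j : ℝ) - phs L m0) * ang n L)

section weights
variable {n L : ℕ} (hn : 2 ≤ n) (hL : 2 ≤ L) (m0 : ℕ)
include hn hL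

theorem Dr_pos : (3 : ℝ) ≤ (n : ℝ) * L - 1 := by
  have := D_pos hn hL
  exact_mod_cast this

theorem arg_eq (j : ℕ) : ((j : ℝ) - phs L m0) * ang n L =
    Real.pi * ((2 * (L : ℝ) * ((j : ℝ) - m0) - 1) / (2 * ((n : ℝ) * L - 1))) := by
  have h1 := Dr_pos hn hL
  have h2 : (L : ℝ) ≠ 0 := by
    have : (2 : ℝ) ≤ L := by exact_mod_cast hL
    linarith
  have h3 : (n : ℝ) * L - 1 ≠ 0 := by linarith
  unfold phs ang
  field_simp
  ring

theorem kap_lt (j : ℕ) : (kap n L m0 j : ℝ) < (2 * (L : ℝ) * ((j : ℝ) - m0) - 1) / (2 * ((n : ℝ) * L - 1)) ∧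
    (2 * (L : ℝ) * ((j : ℝ) - m0) - 1) / (2 * ((n : ℝ) * L - 1)) < (kap n L m0 j : ℝ) + 1 := by
  have hD := Dr_pos hn hL
  obtain ⟨h1, h2⟩ := (kap_eq_iff hn hL m0 j (kap n L m0 j)).mp rfl
  have h1' : 2 * ((n : ℤ) * L - 1) * kap n L m0 j < 2 * (L : ℤ) * ((j : ℤ) - m0) - 1 := by
    refine lt_of_le_of_ne h1 ?_
    intro h
    have h3 : 2 * (((n : ℤ) * L - 1) * kap n L m0 j - (L : ℤ) * ((j : ℤ) - m0)) = -1 := by linarith
    omega
  have h1r : 2 * ((n : ℝ) * L - 1) * kap n L m0 j < 2 * (L : ℝ) * ((j : ℝ) - m0) - 1 := by exact_mod_cast h1'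
  have h2r : 2 * (L : ℝ) * ((j : ℝ) - m0) - 1 < 2 * ((n : ℝ) * L - 1) * (kap n L m0 j + 1) := by exact_mod_cast h2
  constructor
  · rw [lt_div_iff₀ (by linarith)]; linarith
  · rw [div_lt_iff₀ (by linarith)]; linarith

theorem sj_sign (j : ℕ) : 0 < (-1 : ℝ) ^ (kap n L m0 j) * sj n L m0 j ∧
    (-1 : ℝ) ^ (kap n L m0 j) * sj n L m0 j ≤ 1 := by
  obtain ⟨h1, h2⟩ := kap_lt hn hL m0 j
  unfold sj
  rw [arg_eq hn hL, ← Real.sin_sub_int_mul_pi]
  set x : ℝ := (2 * (L : ℝ) * ((j : ℝ) - m0) - 1) / (2 * ((n : ℝ) * L - 1))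
  refine ⟨Real.sin_pos_of_pos_of_lt_pi ?_ ?_, Real.sin_le_one _⟩
  · nlinarith [Real.pi_pos]
  · nlinarith [Real.pi_pos]

theorem sj_left (t : ℕ) : (-1 : ℝ) ^ ((t : ℤ) * L - 1) * sj n L m0 (m0 + t * (n * L - 1)) =
    Real.sin (Real.pi / (2 * ((n : ℝ) * L - 1))) := by
  have hD := Dr_pos hn hL
  have h1' : (1 : ℤ) ≤ (n : ℤ) * L := by have := D_pos hn hL; omega
  have hcast : ((n * L - 1 : ℕ) : ℝ) = (n : ℝ) * L - 1 := by
    rw [Nat.cast_sub (by exact_mod_cast h1')]; push_cast; ring
  unfold sj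
  rw [arg_eq hn hL, ← Real.sin_sub_int_mul_pi, ← Real.sin_pi_sub]
  congr 1
  push_cast
  rw [hcast]
  obtain ⟨D, hDe⟩ : ∃ D : ℝ, (n : ℝ) * L - 1 = D := ⟨_, rfl⟩
  rw [hDe] at hD ⊢
  have : D ≠ 0 := by linarith
  field_simp
  ring

theorem sj_right (t : ℕ) : (-1 : ℝ) ^ ((t : ℤ) * L + 1) * sj n L m0 (m0 + t * (n * L - 1) + n) =
    Real.sin (Real.pi / (2 * ((n : ℝ) * L - 1))) := by
  have hD := Dr_pos hn hL
  have h1' : (1 : ℤ) ≤ (n : ℤ) * L := by have := D_pos hn hL; omega
  have hcast : ((n * L - 1 : ℕ) : ℝ) = (n : ℝ) * L - 1 := by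
    rw [Nat.cast_sub (by exact_mod_cast h1')]; push_cast; ring
  unfold sj
  rw [arg_eq hn hL, ← Real.sin_sub_int_mul_pi]
  congr 1
  push_cast
  rw [hcast]
  obtain ⟨D, hDe⟩ : ∃ D : ℝ, (n : ℝ) * L - 1 = D := ⟨_, rfl⟩
  have hnum : 2 * (L : ℝ) * ((m0 : ℝ) + t * ((n : ℝ) * L - 1) + n - m0) - 1 = 2 * L * t * D + 2 * D + 1 := by
    rw [hDe]; linear_combination 2 * hDe
  rw [hnum, hDe]
  rw [hDe] at hD
  have : D ≠ 0 := by linarith
  field_simp
  ring

end weights

theorem coeff_one_add_X_pow_mul (k : ℕ) (P : ℝ[X]) (l : ℕ) :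
    ((1 + X) ^ k * P).coeff l = ∑ x ∈ Finset.HasAntidiagonal.antidiagonal l, (k.choose x.1 : ℝ) * P.coeff x.2 := by
  rw [coeff_mul]
  refine Finset.sum_congr rfl fun x _ => ?_
  rw [coeff_one_add_X_pow]

theorem SC.mul_pow {s : ℕ} {P : ℝ[X]} (h : SC s P.coeff) (k : ℕ) : SC s ((1 + X) ^ k * P).coeff := by
  induction k with
  | zero => simpa using h
  | succ k ih =>
    have e : (1 + X : ℝ[X]) ^ (k + 1) * P = (1 + X) * ((1 + X) ^ k * P) := by ring
    rw [e]
    refine ih.shift ?_ ?_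
    · rw [mul_coeff_zero]; simp
    · intro l
      rw [add_mul, one_mul, coeff_add, coeff_X_mul]

/-- **Key inequality.** A polynomial with nonnegative coefficients and `T.card` approximate gaps of length `n`
in suitable position has at least `2 * T.card` roots in the sector `|arg| < πL/(nL-1)`. -/
theorem key_count {n L : ℕ} (hn : 2 ≤ n) (hL : 2 ≤ L) (m0 : ℕ) (Q : ℝ[X]) (hQ0 : 0 < Q.coeff 0)
    (hnn : ∀ j, 0 ≤ Q.coeff j) (hray : ∀ ζ ∈ croots Q, |ζ.arg| ≠ ang n L) (T : Finset ℕ)
    (hgap : ∀ t ∈ T, (2 : ℝ) ^ (n - 1) * ∑ j ∈ Finset.Ioo (m0 + t * (n * L - 1)) (m0 + t * (n * L - 1) + n), Q.coeff j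
        < Real.sin (Real.pi / (2 * ((n : ℝ) * L - 1))) * Q.coeff (m0 + t * (n * L - 1)) ∧
      (2 : ℝ) ^ (n - 1) * ∑ j ∈ Finset.Ioo (m0 + t * (n * L - 1)) (m0 + t * (n * L - 1) + n), Q.coeff j
        < Real.sin (Real.pi / (2 * ((n : ℝ) * L - 1))) * Q.coeff (m0 + t * (n * L - 1) + n)) :
    2 * T.card ≤ secCount (ang n L) Q := by
  classical
  set η : ℝ := Real.sin (Real.pi / (2 * ((n : ℝ) * L - 1))) with hη
  set N := Q.natDegree with hN
  have hD := Dr_pos hn hL
  have hLr : (2 : ℝ) ≤ L := by exact_mod_cast hL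
  have hnr : (2 : ℝ) ≤ n := by exact_mod_cast hn
  have hηpos : 0 < η := by
    apply Real.sin_pos_of_pos_of_lt_pi
    · have := Real.pi_pos; positivity
    · rw [div_lt_iff₀ (by linarith)]; nlinarith [Real.pi_pos]
  -- angle bounds
  have hθ0 : 0 < ang n L := by
    unfold ang; have := Real.pi_pos; apply div_pos <;> nlinarith
  have hθπ : ang n L < Real.pi := by
    unfold ang
    rw [div_lt_iff₀ (by linarith)]
    have : (L : ℝ) < (n : ℝ) * L - 1 := by nlinarith
    exact mul_lt_mul_of_pos_left this Real.pi_pos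
  -- abbreviations
  set m : ℕ → ℕ := fun t => m0 + t * (n * L - 1) with hm
  have hgap' : ∀ t ∈ T, (2 : ℝ) ^ (n - 1) * ∑ j ∈ Finset.Ioo (m t) (m t + n), Q.coeff j < η * Q.coeff (m t) ∧
      (2 : ℝ) ^ (n - 1) * ∑ j ∈ Finset.Ioo (m t) (m t + n), Q.coeff j < η * Q.coeff (m t + n) := hgap
  have hsumnn : ∀ t, 0 ≤ (2 : ℝ) ^ (n - 1) * ∑ j ∈ Finset.Ioo (m t) (m t + n), Q.coeff j := fun t =>
    mul_nonneg (by positivity) (Finset.sum_nonneg fun j _ => hnn j)
  have hQm : ∀ t ∈ T, 0 < Q.coeff (m t + n) := by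
    intro t ht
    have := (hgap' t ht).2
    have h2 := hsumnn t
    by_contra hc
    push Not at hc
    nlinarith
  have hmN : ∀ t ∈ T, m t + n ≤ N := fun t ht => le_natDegree_of_ne_zero (hQm t ht).ne'
  have hminj : Function.Injective m := by
    intro a b hab
    have h1 : 0 < n * L - 1 := by
      have := D_pos hn hL
      have h2 : (3 : ℤ) ≤ ((n * L : ℕ) : ℤ) - 1 := by push_cast; exact this
      omega
    simp only [hm] at hab
    have h3 : a * (n * L - 1) = b * (n * L - 1) := by omega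
    exact Nat.eq_of_mul_eq_mul_right h1 h3
  -- predicate: block of a gap
  set gp : ℤ → Prop := fun k => ∃ t ∈ T, k = (t : ℤ) * L with hgp
  set A : ℝ[X] := wt (sj n L m0) Q with hA
  set A' : ℝ[X] := wt (fun j => if gp (kap n L m0 j) then 0 else sj n L m0 j) Q with hA'
  have cA : ∀ j, A.coeff j = Q.coeff j * sj n L m0 j := fun j => coeff_wt _ _ _
  have cA' : ∀ j, A'.coeff j = Q.coeff j * (if gp (kap n L m0 j) then 0 else sj n L m0 j) := fun j => coeff_wt _ _ _
  set H : ℝ[X] := (1 + X) ^ (n - 1) * A with hH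
  set H' : ℝ[X] := (1 + X) ^ (n - 1) * A' with hH'
  -- sign pattern of A'
  set sg : ℤ → ℝ := fun k => if gp k then -(-1 : ℝ) ^ k else (-1 : ℝ) ^ k with hsg
  have hpm : ∀ k : ℤ, (-1 : ℝ) ^ k = 1 ∨ (-1 : ℝ) ^ k = -1 := fun k => by
    rcases Int.even_or_odd k with h | h
    · left; exact h.neg_one_zpow
    · right; exact h.neg_one_zpow
  have hLne : ∀ (t t' : ℕ), (t : ℤ) * L - 1 ≠ (t' : ℤ) * L := by
    intro t t' h
    have h1 : (L : ℤ) * ((t : ℤ) - t') = 1 := by linarith
    have h2 := Int.eq_one_or_neg_one_of_mul_eq_one h1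
    omega
  have hLne' : ∀ (t t' : ℕ), (t : ℤ) * L + 1 ≠ (t' : ℤ) * L := by
    intro t t' h
    exact hLne t' t (by linarith)
  set Sb : Finset ℕ := (Finset.range N).filter (fun j => kap n L m0 (j + 1) ≠ kap n L m0 j) with hSb
  set St : Finset ℕ := Sb \ (T.image m ∪ T.image (fun t => m t + n - 1)) with hSt
  have kap_m : ∀ t, kap n L m0 (m t) = t * L - 1 := fun t =>
    kap_before hn hL m0 t (m t) le_rfl (by simp only [hm]; omega)
  have kap_m1 : ∀ t, kap n L m0 (m t + 1) = t * L := fun t =>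
    (kap_gap hn hL m0 t _).mpr ⟨by simp only [hm]; omega, by simp only [hm]; omega⟩
  have kap_e : ∀ t, kap n L m0 (m t + n - 1) = t * L := fun t =>
    (kap_gap hn hL m0 t _).mpr ⟨by simp only [hm]; omega, by simp only [hm]; omega⟩
  have kap_e1 : ∀ t, kap n L m0 (m t + n - 1 + 1) = t * L + 1 := fun t =>
    kap_after hn hL m0 t _ (by simp only [hm]; omega) (by simp only [hm]; omega)
  have hSC' : SC St.card A'.coeff := by
    refine ⟨fun j => sg (kap n L m0 (min j N)), St, le_rfl, ?_, ?_, ?_⟩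
    · intro j
      simp only [hsg]
      rcases hpm (kap n L m0 (min j N)) with h | h <;> by_cases hg : gp (kap n L m0 (min j N)) <;>
        simp [hg, h]
    · intro j hj
      by_cases hjN : N ≤ j
      · simp only [min_eq_right hjN, min_eq_right (by omega : N ≤ j + 1)]
      · push Not at hjN
        simp only [min_eq_left hjN.le, min_eq_left (by omega : j + 1 ≤ N)]
        rcases kap_succ hn hL m0 j with h | h
        · rw [h]
        · have hjSb : j ∈ Sb := Finset.mem_filter.mpr ⟨Finset.mem_range.mpr hjN, by rw [h]; omega⟩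
          have hjim : j ∈ T.image m ∪ T.image (fun t => m t + n - 1) := by
            by_contra hc
            exact hj (Finset.mem_sdiff.mpr ⟨hjSb, hc⟩)
          rcases Finset.mem_union.mp hjim with hc | hc
          · obtain ⟨t, ht, rfl⟩ := Finset.mem_image.mp hc
            rw [kap_m1, kap_m]
            have g1 : gp ((t : ℤ) * L) := ⟨t, ht, rfl⟩
            have g2 : ¬ gp ((t : ℤ) * L - 1) := by
              rintro ⟨t', _, h'⟩; exact hLne t t' h'
            simp only [hsg, if_pos g1, if_neg g2]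
            rw [zpow_sub₀ (by norm_num : (-1 : ℝ) ≠ 0), zpow_one]; ring
          · obtain ⟨t, ht, rfl⟩ := Finset.mem_image.mp hc
            rw [kap_e1, kap_e]
            have g1 : gp ((t : ℤ) * L) := ⟨t, ht, rfl⟩
            have g2 : ¬ gp ((t : ℤ) * L + 1) := by
              rintro ⟨t', _, h'⟩; exact hLne' t t' h'
            simp only [hsg, if_pos g1, if_neg g2]
            rw [zpow_add₀ (by norm_num : (-1 : ℝ) ≠ 0), zpow_one]; ring
    · intro j
      by_cases hjN : j ≤ N
      · simp only [min_eq_left hjN]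
        rw [cA']
        by_cases hg : gp (kap n L m0 j)
        · simp [hg]
        · simp only [hsg, if_neg hg]
          have := (sj_sign hn hL m0 j).1
          have h2 := mul_nonneg (hnn j) this.le
          linarith
      · have : Q.coeff j = 0 := coeff_eq_zero_of_natDegree_lt (by omega)
        rw [cA', this]; simp
  have hSCH' : SC St.card H'.coeff := hSC'.mul_pow (n - 1)
  -- cardinality
  have hcardS : (St.card : ℤ) = kap n L m0 N - kap n L m0 0 - 2 * T.card := by
    have hsub : T.image m ∪ T.image (fun t => m t + n - 1) ⊆ Sb := by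
      intro j hj
      rcases Finset.mem_union.mp hj with hc | hc
      · obtain ⟨t, ht, rfl⟩ := Finset.mem_image.mp hc
        refine Finset.mem_filter.mpr ⟨Finset.mem_range.mpr (by have := hmN t ht; omega), ?_⟩
        rw [kap_m1, kap_m]; omega
      · obtain ⟨t, ht, rfl⟩ := Finset.mem_image.mp hc
        refine Finset.mem_filter.mpr ⟨Finset.mem_range.mpr (by have := hmN t ht; omega), ?_⟩
        rw [kap_e1, kap_e]; omega
    have hdisj : Disjoint (T.image m) (T.image (fun t => m t + n - 1)) := by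
      rw [Finset.disjoint_left]
      intro j h1 h2
      obtain ⟨t, ht, h3⟩ := Finset.mem_image.mp h1
      obtain ⟨t', ht', h4⟩ := Finset.mem_image.mp h2
      have h5 := kap_m t
      have h6 := kap_e t'
      rw [h3] at h5
      rw [h4] at h6
      exact hLne t t' (by rw [← h5, h6])
    have hc1 : (T.image m).card = T.card := Finset.card_image_of_injective _ hminj
    have hc2 : (T.image (fun t => m t + n - 1)).card = T.card := by
      refine Finset.card_image_of_injective _ fun a b hab => hminj ?_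
      have hab' : m a + n - 1 = m b + n - 1 := hab
      omega
    have h1 := Finset.card_sdiff_of_subset hsub
    have h2 := Finset.card_le_card hsub
    rw [Finset.card_union_of_disjoint hdisj, hc1, hc2] at h1 h2
    have h3 := card_changes hn hL m0 N
    rw [hSt, h1, Nat.cast_sub h2, h3]
    push_cast
    ring
  -- local signs
  have hlocal : ∀ t ∈ T, ∀ l, m t + 1 ≤ l → l ≤ m t + 2 * n - 2 →
      (-1 : ℝ) ^ ((t : ℤ) * L) * H.coeff l < 0 ∧ (-1 : ℝ) ^ ((t : ℤ) * L) * H'.coeff l < 0 := by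
    intro t ht l hl1 hl2
    set τ : ℝ := (-1 : ℝ) ^ ((t : ℤ) * L) with hτ
    -- special index
    obtain ⟨js, hjs1, hjs2, hjs3⟩ : ∃ js, js ≤ l ∧ l ≤ js + (n - 1) ∧ (js = m t ∨ js = m t + n) := by
      by_cases hc : l ≤ m t + (n - 1)
      · exact ⟨m t, by omega, hc, Or.inl rfl⟩
      · exact ⟨m t + n, by omega, by omega, Or.inr rfl⟩
    have hspec : τ * sj n L m0 js = -η ∧ ¬ gp (kap n L m0 js) := by
      rcases hjs3 with h | h
      · rw [h]
        have h1 := sj_left hn hL m0 t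
        rw [zpow_sub₀ (by norm_num : (-1 : ℝ) ≠ 0)] at h1
        refine ⟨?_, ?_⟩
        · have h2 : (-1 : ℝ) ^ ((t : ℤ) * L) / (-1 : ℝ) ^ (1 : ℤ) * sj n L m0 (m t) = η := h1
          rw [zpow_one, div_neg, div_one] at h2
          rw [hτ]; linarith
        · rw [kap_m]; rintro ⟨t', _, h'⟩; exact hLne t t' h'
      · rw [h]
        have h1 := sj_right hn hL m0 t
        rw [zpow_add₀ (by norm_num : (-1 : ℝ) ≠ 0)] at h1
        refine ⟨?_, ?_⟩
        · have h2 : (-1 : ℝ) ^ ((t : ℤ) * L) * (-1 : ℝ) ^ (1 : ℤ) * sj n L m0 (m t + n) = η := h1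
          rw [zpow_one] at h2
          rw [hτ]; linarith
        · have h3 := kap_e1 t
          have h4 : m t + n - 1 + 1 = m t + n := by omega
          rw [h4] at h3
          rw [h3]; rintro ⟨t', _, h'⟩; exact hLne' t t' h'
    -- termwise bound
    set g : ℕ → ℝ := fun j => if j ∈ Finset.Ioo (m t) (m t + n) then Q.coeff j else 0 with hg
    have hg0 : ∀ j, 0 ≤ g j := by
      intro j; simp only [hg]; split_ifs
      · exact hnn j
      · exact le_rfl
    have hterm : ∀ j, j ≤ l → l ≤ j + (n - 1) → τ * A.coeff j ≤ g j ∧ τ * A'.coeff j ≤ 0 := by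
      intro j hj1 hj2
      have hss := sj_sign hn hL m0 j
      rw [cA, cA']
      by_cases hin : j ∈ Finset.Ioo (m t) (m t + n)
      · rw [Finset.mem_Ioo] at hin
        have hk : kap n L m0 j = t * L := (kap_gap hn hL m0 t j).mpr hin
        have hgpj : gp (kap n L m0 j) := ⟨t, ht, hk⟩
        rw [hk] at hss
        have hgj : g j = Q.coeff j := by simp only [hg]; rw [if_pos (Finset.mem_Ioo.mpr hin)]
        refine ⟨?_, ?_⟩
        · rw [hgj]
          have := mul_le_mul_of_nonneg_left hss.2 (hnn j)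
          linarith
        · rw [if_pos hgpj]; simp
      · have hgj : g j = 0 := by simp only [hg]; rw [if_neg hin]
        rw [Finset.mem_Ioo] at hin
        have hk : kap n L m0 j = t * L - 1 ∨ kap n L m0 j = t * L + 1 := by
          by_cases hc : j ≤ m t
          · left; exact kap_before hn hL m0 t j hc (by simp only [hm] at *; omega)
          · right
            have : m t + n ≤ j := by by_contra hc2; exact hin ⟨by omega, by omega⟩
            exact kap_after hn hL m0 t j this (by simp only [hm] at *; omega)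
        have hneg : τ * sj n L m0 j < 0 := by
          rcases hk with h | h
          · rw [h, zpow_sub₀ (by norm_num : (-1 : ℝ) ≠ 0), zpow_one, div_neg, div_one] at hss
            rw [hτ]; linarith [hss.1]
          · rw [h, zpow_add₀ (by norm_num : (-1 : ℝ) ≠ 0), zpow_one] at hss
            rw [hτ]; linarith [hss.1]
        have hle : τ * (Q.coeff j * sj n L m0 j) ≤ 0 := by
          have := mul_nonpos_of_nonneg_of_nonpos (hnn j) hneg.le
          linarith
        refine ⟨by rw [hgj]; exact hle, ?_⟩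
        split_ifs
        · simp
        · exact hle
    have hmem : ((l - js, js) : ℕ × ℕ) ∈ Finset.HasAntidiagonal.antidiagonal l := by
      rw [Finset.HasAntidiagonal.mem_antidiagonal]; simp only; omega
    have hchoose1 : (1 : ℝ) ≤ ((n - 1).choose (l - js) : ℝ) := by
      have : 0 < (n - 1).choose (l - js) := Nat.choose_pos (by omega)
      exact_mod_cast this
    have hQjs : (2 : ℝ) ^ (n - 1) * ∑ j ∈ Finset.Ioo (m t) (m t + n), Q.coeff j < η * Q.coeff js := by
      rcases hjs3 with h | h <;> rw [h]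
      · exact (hgap' t ht).1
      · exact (hgap' t ht).2
    have hQjs0 : 0 < η * Q.coeff js := lt_of_le_of_lt (hsumnn t) hQjs
    have hsumg : ∑ x ∈ Finset.HasAntidiagonal.antidiagonal l, ((n - 1).choose x.1 : ℝ) * g x.2 ≤
        (2 : ℝ) ^ (n - 1) * ∑ j ∈ Finset.Ioo (m t) (m t + n), Q.coeff j := by
      have h1 : ∑ x ∈ Finset.HasAntidiagonal.antidiagonal l, ((n - 1).choose x.1 : ℝ) * g x.2 ≤
          ∑ x ∈ Finset.HasAntidiagonal.antidiagonal l, (2 : ℝ) ^ (n - 1) * g x.2 := by
        refine Finset.sum_le_sum fun x _ => mul_le_mul_of_nonneg_right ?_ (hg0 _)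
        exact_mod_cast Nat.choose_le_two_pow (n - 1) x.1
      refine h1.trans ?_
      rw [← Finset.mul_sum]
      refine mul_le_mul_of_nonneg_left ?_ (by positivity)
      have h2 : ∑ x ∈ Finset.HasAntidiagonal.antidiagonal l, g x.2 = ∑ j ∈ Finset.range (l + 1), g j := by
        rw [Finset.Nat.sum_antidiagonal_eq_sum_range_succ (fun _ j => g j) l]
        exact Finset.sum_range_reflect g (l + 1)
      rw [h2]
      have h3 : ∑ j ∈ Finset.range (l + 1), g j ≤ ∑ j ∈ Finset.range (l + 1) ∪ Finset.Ioo (m t) (m t + n), g j :=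
        Finset.sum_le_sum_of_subset_of_nonneg Finset.subset_union_left fun j _ _ => hg0 j
      refine h3.trans (le_of_eq ?_)
      symm
      rw [← Finset.sum_subset (Finset.subset_union_right (s₁ := Finset.range (l + 1)))
        (fun j _ hj => by simp only [hg]; rw [if_neg hj])]
      refine Finset.sum_congr rfl fun j hj => ?_
      simp only [hg]; rw [if_pos hj]
    constructor
    · rw [hH, coeff_one_add_X_pow_mul, Finset.mul_sum, ← Finset.add_sum_erase _ _ hmem]
      have h1 : τ * (((n - 1).choose (l - js) : ℝ) * A.coeff js) ≤ -(η * Q.coeff js) := by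
        rw [cA]
        have h2 : τ * (((n - 1).choose (l - js) : ℝ) * (Q.coeff js * sj n L m0 js)) =
            -(((n - 1).choose (l - js) : ℝ) * (η * Q.coeff js)) := by
          have := hspec.1
          calc τ * (((n - 1).choose (l - js) : ℝ) * (Q.coeff js * sj n L m0 js)) =
              ((n - 1).choose (l - js) : ℝ) * Q.coeff js * (τ * sj n L m0 js) := by ring
            _ = _ := by rw [this]; ring
        rw [h2]
        nlinarith
      have h2 : ∑ x ∈ (Finset.HasAntidiagonal.antidiagonal l).erase (l - js, js), τ * (((n - 1).choose x.1 : ℝ) * A.coeff x.2) ≤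
          ∑ x ∈ Finset.HasAntidiagonal.antidiagonal l, ((n - 1).choose x.1 : ℝ) * g x.2 := by
        refine (Finset.sum_le_sum (g := fun x => ((n - 1).choose x.1 : ℝ) * g x.2) fun x hx => ?_).trans
          (Finset.sum_le_sum_of_subset_of_nonneg (Finset.erase_subset _ _)
            fun x _ _ => mul_nonneg (Nat.cast_nonneg _) (hg0 _))
        have hx' := Finset.HasAntidiagonal.mem_antidiagonal.mp (Finset.mem_of_mem_erase hx)
        by_cases hc : x.1 ≤ n - 1
        · have := (hterm x.2 (by omega) (by omega)).1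
          have h3 := mul_le_mul_of_nonneg_left this (Nat.cast_nonneg ((n - 1).choose x.1) : (0 : ℝ) ≤ _)
          linarith
        · rw [Nat.choose_eq_zero_of_lt (by omega)]; simp
      linarith
    · rw [hH', coeff_one_add_X_pow_mul, Finset.mul_sum, ← Finset.add_sum_erase _ _ hmem]
      have h1 : τ * (((n - 1).choose (l - js) : ℝ) * A'.coeff js) ≤ -(η * Q.coeff js) := by
        rw [cA', if_neg hspec.2]
        have h2 : τ * (((n - 1).choose (l - js) : ℝ) * (Q.coeff js * sj n L m0 js)) =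
            -(((n - 1).choose (l - js) : ℝ) * (η * Q.coeff js)) := by
          have := hspec.1
          calc τ * (((n - 1).choose (l - js) : ℝ) * (Q.coeff js * sj n L m0 js)) =
              ((n - 1).choose (l - js) : ℝ) * Q.coeff js * (τ * sj n L m0 js) := by ring
            _ = _ := by rw [this]; ring
        rw [h2]
        nlinarith
      have h2 : ∑ x ∈ (Finset.HasAntidiagonal.antidiagonal l).erase (l - js, js), τ * (((n - 1).choose x.1 : ℝ) * A'.coeff x.2) ≤ 0 := by
        refine Finset.sum_nonpos fun x hx => ?_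
        have hx' := Finset.HasAntidiagonal.mem_antidiagonal.mp (Finset.mem_of_mem_erase hx)
        by_cases hc : x.1 ≤ n - 1
        · have := (hterm x.2 (by omega) (by omega)).2
          have h3 := mul_nonpos_of_nonneg_of_nonpos (Nat.cast_nonneg ((n - 1).choose x.1) : (0 : ℝ) ≤ _) this
          linarith
        · rw [Nat.choose_eq_zero_of_lt (by omega)]; simp
      linarith
  -- H and H' agree elsewhere
  have hagree : ∀ l, H.coeff l ≠ H'.coeff l → ∃ t ∈ T, m t + 1 ≤ l ∧ l ≤ m t + 2 * n - 2 := by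
    intro l hl
    by_contra hcon
    push Not at hcon
    apply hl
    rw [hH, hH', coeff_one_add_X_pow_mul, coeff_one_add_X_pow_mul]
    refine Finset.sum_congr rfl fun x hx => ?_
    rw [Finset.HasAntidiagonal.mem_antidiagonal] at hx
    by_cases hc : x.1 ≤ n - 1
    · rw [cA, cA']
      by_cases hg : gp (kap n L m0 x.2)
      · obtain ⟨t, ht, hk⟩ := hg
        obtain ⟨h1, h2⟩ := (kap_gap hn hL m0 t x.2).mp hk
        have h3 := hcon t ht (by simp only [hm]; omega)
        simp only [hm] at h3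
        omega
      · rw [if_neg hg]
    · rw [Nat.choose_eq_zero_of_lt (by omega)]; simp
  have hSCH : SC St.card H.coeff := by
    obtain ⟨ε, S, h1, h2, h3, h4⟩ := hSCH'
    refine ⟨ε, S, h1, h2, h3, fun l => ?_⟩
    by_cases hl : H.coeff l = H'.coeff l
    · rw [hl]; exact h4 l
    · obtain ⟨t, ht, ha, hb⟩ := hagree l hl
      obtain ⟨hc, hd⟩ := hlocal t ht l ha hb
      have h5 := h4 l
      rcases hpm ((t : ℤ) * L) with hp | hp <;> rw [hp] at hc hd <;>
        rcases h2 l with he | he <;> rw [he] at h5 ⊢ <;> nlinarith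
  -- many roots
  have hA0 : A ≠ 0 := by
    intro h
    have h1 := cA 0
    rw [h, coeff_zero] at h1
    have h2 := (sj_sign hn hL m0 0).1
    have h3 : sj n L m0 0 ≠ 0 := by
      intro h4; rw [h4, mul_zero] at h2; exact lt_irrefl _ h2
    exact (mul_ne_zero hQ0.ne' h3) h1.symm
  have hX0 : (1 + X : ℝ[X]) ^ (n - 1) ≠ 0 := by
    apply pow_ne_zero
    intro h
    have : (1 + X : ℝ[X]).coeff 0 = 0 := by rw [h, coeff_zero]
    simp at this
  have hH0 : H ≠ 0 := mul_ne_zero hX0 hA0
  have hup := descartes St.card H hH0 hSCH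
  obtain ⟨α, hα1, hα2⟩ := winding Q hQ0 (ang n L) hθ0 hθπ hray
  set Z := secCount (ang n L) Q with hZ
  have hlevel : ∀ k ∈ Finset.Ioc (kap n L m0 0) (kap n L m0 N - Z), ∃ r : ℝ, 0 < r ∧
      α r = phs L m0 * ang n L + k * Real.pi := by
    intro k hk
    rw [Finset.mem_Ioc] at hk
    obtain ⟨hk1, hk2⟩ := hk
    have e0 := arg_eq hn hL m0 0
    have eN := arg_eq hn hL m0 N
    have l0 := (kap_lt hn hL m0 0).2
    have lN := (kap_lt hn hL m0 N).1
    have hk1' : (kap n L m0 0 : ℝ) + 1 ≤ k := by exact_mod_cast hk1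
    have hk2' : (k : ℝ) ≤ kap n L m0 N - Z := by exact_mod_cast hk2
    have hpi := Real.pi_pos
    apply hα1
    · have h1 : phs L m0 * ang n L = -(Real.pi * ((2 * (L : ℝ) * (((0 : ℕ) : ℝ) - m0) - 1) / (2 * ((n : ℝ) * L - 1)))) := by
        rw [← e0]; push_cast; ring
      rw [h1]
      nlinarith
    · have h1 : (N : ℝ) * ang n L = phs L m0 * ang n L +
          Real.pi * ((2 * (L : ℝ) * ((N : ℝ) - m0) - 1) / (2 * ((n : ℝ) * L - 1))) := by
        rw [← eN]; ring
      rw [h1]
      nlinarith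
  choose! rk hrk1 hrk2 using hlevel
  have hinj : Set.InjOn rk (Finset.Ioc (kap n L m0 0) (kap n L m0 N - Z) : Finset ℤ) := by
    intro a ha b hb hab
    have h1 := hrk2 a (Finset.mem_coe.mp ha)
    have h2 := hrk2 b (Finset.mem_coe.mp hb)
    rw [hab, h2] at h1
    have h3 : (b : ℝ) * Real.pi = a * Real.pi := by linarith
    have h4 := mul_right_cancel₀ Real.pi_ne_zero h3
    exact_mod_cast h4.symm
  have hroots : ∀ k ∈ Finset.Ioc (kap n L m0 0) (kap n L m0 N - Z), rk k ∈ posRoots H := by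
    intro k hk
    rw [mem_posRoots hH0]
    refine ⟨?_, hrk1 k hk⟩
    rw [hH, eval_mul]
    have h1 : A.eval (rk k) = 0 := by
      have h2 := eval_wt Q (phs L m0) (ang n L) (rk k)
      have h3 : A.eval (rk k) = (wt (fun j => Real.sin (((j : ℝ) - phs L m0) * ang n L)) Q).eval (rk k) := rfl
      rw [h3, h2]
      obtain ⟨t, ht⟩ := hα2 (rk k)
      rw [ht, hrk2 k hk]
      have h4 : Complex.exp (((-(phs L m0 * ang n L) : ℝ) : ℂ) * Complex.I) *
          ((t : ℂ) * Complex.exp (((phs L m0 * ang n L + k * Real.pi : ℝ) : ℂ) * Complex.I)) =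
          (t : ℂ) * Complex.exp (((k * Real.pi : ℝ) : ℂ) * Complex.I) := by
        rw [mul_left_comm, ← Complex.exp_add]
        congr 2
        push_cast
        ring
      rw [h4, Complex.im_ofReal_mul, Complex.exp_ofReal_mul_I_im, Real.sin_int_mul_pi, mul_zero]
    rw [h1, mul_zero]
  have hlow : (Finset.Ioc (kap n L m0 0) (kap n L m0 N - Z)).card ≤ (posRoots H).card :=
    Finset.card_le_card_of_injOn rk (fun k hk => Finset.mem_coe.mpr (hroots k (Finset.mem_coe.mp hk))) hinj
  rw [Int.card_Ioc] at hlow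
  omega

end LacAngle
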