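import Mathlib
import Pool.Agent.C20521.Desc
open Polynomial

namespace LacAngle


/-- nonnegative coefficients with `(j+1) b_{j+1} ≤ s b_j` -/
def Good (s : ℝ) (B : ℝ[X]) : Prop :=
  (∀ j, 0 ≤ B.coeff j) ∧ ∀ j : ℕ, ((j : ℝ) + 1) * B.coeff (j + 1) ≤ s * B.coeff j

theorem Good.mul {s t : ℝ} {A B : ℝ[X]} (hA : Good s A) (hB : Good t B) : Good (s + t) (A * B) := by
  constructor
  · intro j
    rw [coeff_mul]
    exact Finset.sum_nonneg fun x _ => mul_nonneg (hA.1 _) (hB.1 _)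
  · intro j
    have h1 : ((j : ℝ) + 1) * (A * B).coeff (j + 1) = (derivative (A * B)).coeff j := by
      rw [coeff_derivative]; ring
    rw [h1, derivative_mul, coeff_add, coeff_mul, coeff_mul, coeff_mul, ← Finset.sum_add_distrib,
      Finset.mul_sum]
    refine Finset.sum_le_sum fun x _ => ?_
    rw [coeff_derivative, coeff_derivative]
    have h2 := mul_le_mul_of_nonneg_right (hA.2 x.1) (hB.1 x.2)
    have h3 := mul_le_mul_of_nonneg_left (hB.2 x.2) (hA.1 x.1)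
    linarith

theorem Good.mono {s t : ℝ} {A : ℝ[X]} (hA : Good s A) (h : s ≤ t) : Good t A :=
  ⟨hA.1, fun j => (hA.2 j).trans (mul_le_mul_of_nonneg_right h (hA.1 j))⟩

theorem coeff_lin_pow (u : ℝ) (n j : ℕ) : ((1 + C u * X) ^ n).coeff j = (n.choose j : ℝ) * u ^ j := by
  have h : ((1 + C u * X) ^ n : ℝ[X]) = ((1 + X) ^ n : ℝ[X]).comp (C u * X) := by
    simp
  rw [h, comp_C_mul_X_coeff, coeff_one_add_X_pow]

theorem good_lin (t : ℝ) (ht : 0 ≤ t) : Good t (1 + C t * X) := by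
  have h : ∀ j, (1 + C t * X : ℝ[X]).coeff j = (Nat.choose 1 j : ℝ) * t ^ j := by
    intro j
    rw [← coeff_lin_pow, pow_one]
  constructor
  · intro j
    rw [h]
    positivity
  · intro j
    rw [h, h]
    rcases j with _ | j
    · simp
    · have : Nat.choose 1 (j + 1 + 1) = 0 := Nat.choose_eq_zero_of_lt (by omega)
      rw [this]
      simp only [Nat.cast_zero, zero_mul, mul_zero]
      positivity

theorem good_pow (t : ℝ) (ht : 0 ≤ t) (L : ℕ) : Good (L * t) ((1 + C t * X) ^ L) := by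
  induction L with
  | zero =>
    constructor
    · intro j
      rw [pow_zero, coeff_one]
      split_ifs <;> norm_num
    · intro j
      rw [pow_zero, coeff_one, if_neg (by omega)]
      simp
  | succ L ih =>
    rw [pow_succ]
    have := ih.mul (good_lin t ht)
    push_cast
    rw [add_mul, one_mul]
    exact this

theorem choose_real (n k : ℕ) :
    (n.choose k : ℝ) * ((n : ℝ) + 1) = ((n + 1).choose k : ℝ) * ((n : ℝ) + 1 - k) := by
  rcases le_or_gt k (n + 1) with h | h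
  · have := Nat.choose_mul_succ_eq n k
    have h2 : ((n + 1 - k : ℕ) : ℝ) = (n : ℝ) + 1 - k := by
      rw [Nat.cast_sub h]; push_cast; ring
    rw [← h2]
    exact_mod_cast this
  · rw [Nat.choose_eq_zero_of_lt h, Nat.choose_eq_zero_of_lt (by omega : n < k)]
    simp

theorem choose_real2 (n k : ℕ) :
    ((n : ℝ) + 1) * (n.choose k : ℝ) = ((n + 1).choose (k + 1) : ℝ) * ((k : ℝ) + 1) := by
  exact_mod_cast Nat.add_one_mul_choose_eq n k

theorem quad_coeff (u v : ℝ) (L j : ℕ) :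
    ((2 * L + 2 : ℝ) * (2 * L + 1)) *
      ((1 - C (2 * v * u) * X + C (u ^ 2) * X ^ 2) * (1 + C u * X) ^ (2 * L)).coeff j =
    u ^ j * ((2 * L + 2).choose j : ℝ) *
      ((2 * L + 2 : ℝ) * (2 * L + 1) - 2 * (1 + v) * (j * (2 * L + 2 - j))) := by
  have e : ((1 - C (2 * v * u) * X + C (u ^ 2) * X ^ 2) * (1 + C u * X) ^ (2 * L) : ℝ[X]) =
      (1 + C u * X) ^ (2 * L + 2) - C (2 * (1 + v) * u) * (X * (1 + C u * X) ^ (2 * L)) := by
    simp only [C_mul, C_add, C_pow, C_1]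
    have : (C 2 : ℝ[X]) = 2 := rfl
    rw [this]
    ring
  rw [e, coeff_sub, coeff_lin_pow, coeff_C_mul]
  rcases j with _ | i
  · rw [coeff_X_mul_zero]
    simp
  · rw [coeff_X_mul, coeff_lin_pow]
    have h1 := choose_real (2 * L) i
    have h2 := choose_real2 (2 * L + 1) i
    push_cast at h1 h2 ⊢
    have h3 : ((2 * L + 2 : ℝ) * (2 * L + 1)) * ((2 * L).choose i : ℝ) =
        ((2 * L + 2).choose (i + 1) : ℝ) * (((i : ℝ) + 1) * (2 * L + 2 - (i + 1))) := by
      have a1 : ((2 * L + 1 + 1).choose (i + 1) : ℝ) = ((2 * L + 2).choose (i + 1) : ℝ) := rfl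
      rw [a1] at h2
      calc ((2 * L + 2 : ℝ) * (2 * L + 1)) * ((2 * L).choose i : ℝ)
          = (2 * L + 2 : ℝ) * (((2 * L).choose i : ℝ) * (2 * L + 1)) := by ring
        _ = (2 * L + 2 : ℝ) * (((2 * L + 1).choose i : ℝ) * (2 * L + 1 - i)) := by rw [h1]
        _ = ((2 * L + 1 + 1 : ℝ) * ((2 * L + 1).choose i : ℝ)) * (2 * L + 1 - i) := by ring
        _ = (((2 * L + 2).choose (i + 1) : ℝ) * ((i : ℝ) + 1)) * (2 * L + 1 - i) := by rw [h2]
        _ = _ := by ring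
    calc ((2 * L + 2 : ℝ) * (2 * L + 1)) * (((2 * L + 2).choose (i + 1) : ℝ) * u ^ (i + 1) -
          2 * (1 + v) * u * (((2 * L).choose i : ℝ) * u ^ i))
        = ((2 * L + 2 : ℝ) * (2 * L + 1)) * ((2 * L + 2).choose (i + 1) : ℝ) * u ^ (i + 1) -
          2 * (1 + v) * u ^ (i + 1) * (((2 * L + 2 : ℝ) * (2 * L + 1)) * ((2 * L).choose i : ℝ)) := by
            ring
      _ = _ := by rw [h3]; ring

/-- real quadratic factors with roots outside a sector become good after multiplication with `(1+uX)^(2L)` -/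
theorem quad_good (κ : ℝ) (hκ : κ < 1) : ∃ (L : ℕ) (c : ℝ), 1 ≤ L ∧ (L : ℝ) + 1 ≤ c ∧
    (∀ t : ℝ, 0 < t → Good (c * t) ((1 + C t * X) * (1 + C t * X) ^ L)) ∧
    ∀ u v : ℝ, 0 < u → v ≤ κ → -1 ≤ v →
      Good (c * (2 * u)) ((1 - C (2 * v * u) * X + C (u ^ 2) * X ^ 2) * (1 + C u * X) ^ (2 * L)) := by
  obtain ⟨k0, hk0⟩ : ∃ k0, k0 = max κ 0 := ⟨_, rfl⟩
  have hk1 : k0 < 1 := by rw [hk0]; exact max_lt hκ one_pos
  have hk2 : κ ≤ k0 := by rw [hk0]; exact le_max_left _ _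
  have hk3 : 0 ≤ k0 := by rw [hk0]; exact le_max_right _ _
  have hpos : 0 < 1 - k0 := by linarith
  obtain ⟨L0, hL0⟩ := exists_nat_gt (4 / (1 - k0))
  obtain ⟨L, hL⟩ : ∃ L, L = L0 + 1 := ⟨_, rfl⟩
  have hL1 : 1 ≤ L := by omega
  have hL1' : (1 : ℝ) ≤ L := by exact_mod_cast hL1
  obtain ⟨S, hS⟩ : ∃ S : ℝ, S = 2 * L + 2 := ⟨_, rfl⟩
  have hS4 : 4 ≤ S * (1 - k0) := by
    have h1 : 4 / (1 - k0) < S := by
      have : (L : ℝ) = L0 + 1 := by rw [hL]; push_cast; ring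
      have h0 : (0 : ℝ) ≤ L0 := Nat.cast_nonneg _
      rw [hS, this]
      linarith
    rw [div_lt_iff₀ hpos] at h1
    exact h1.le
  obtain ⟨c, hc⟩ : ∃ c, c = max ((L : ℝ) + 1) (2 * S / (1 - k0)) := ⟨_, rfl⟩
  have hc1 : (L : ℝ) + 1 ≤ c := by rw [hc]; exact le_max_left _ _
  have hc2 : 2 * S ≤ c * (1 - k0) := by
    have : 2 * S / (1 - k0) ≤ c := by rw [hc]; exact le_max_right _ _
    rwa [div_le_iff₀ hpos] at this
  refine ⟨L, c, hL1, hc1, fun t ht => ?_, fun u v hu hv hv1 => ?_⟩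
  · have h1 := good_pow t ht.le (L + 1)
    rw [pow_succ, mul_comm ((1 + C t * X) ^ L)] at h1
    apply h1.mono
    push_cast
    exact mul_le_mul_of_nonneg_right hc1 ht.le
  · obtain ⟨B, hB⟩ : ∃ B, B = ((1 - C (2 * v * u) * X + C (u ^ 2) * X ^ 2) *
      (1 + C u * X) ^ (2 * L) : ℝ[X]) := ⟨_, rfl⟩
    rw [← hB]
    have hS4' : 4 ≤ S := by rw [hS]; linarith
    obtain ⟨D, hD⟩ : ∃ D, D = S * (S - 1) := ⟨_, rfl⟩
    have hDpos : 0 < D := by rw [hD]; exact mul_pos (by linarith) (by linarith)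
    have hcoef : ∀ j : ℕ, D * B.coeff j = u ^ j * ((2 * L + 2).choose j : ℝ) *
        (D - 2 * (1 + v) * (j * (S - j))) := by
      intro j
      have := quad_coeff u v L j
      rw [← hB] at this
      have e1 : D = (2 * L + 2 : ℝ) * (2 * L + 1) := by rw [hD, hS]; ring
      rw [e1, this, hS]
    have hlow : ∀ j : ℕ, (1 - k0) * S ^ 2 / 4 ≤ D - 2 * (1 + v) * (j * (S - j)) := by
      intro j
      have h1 : (j : ℝ) * (S - j) ≤ S ^ 2 / 4 := by nlinarith [sq_nonneg (S - 2 * j)]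
      have h2 : 2 * (1 + v) * ((j : ℝ) * (S - j)) ≤ 2 * (1 + v) * (S ^ 2 / 4) :=
        mul_le_mul_of_nonneg_left h1 (by linarith)
      have h3 : 2 * (1 + v) * (S ^ 2 / 4) ≤ 2 * (1 + k0) * (S ^ 2 / 4) :=
        mul_le_mul_of_nonneg_right (by linarith) (by positivity)
      have h4 : S * 4 ≤ S * (S * (1 - k0)) := mul_le_mul_of_nonneg_left hS4 (by linarith)
      rw [hD]
      nlinarith
    have hBnn : ∀ j, 0 ≤ B.coeff j := by
      intro j
      have h1 : 0 ≤ D * B.coeff j := by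
        rw [hcoef]
        have h2 : 0 ≤ D - 2 * (1 + v) * (j * (S - j)) :=
          le_trans (by positivity) (hlow j)
        positivity
      exact nonneg_of_mul_nonneg_right h1 hDpos
    refine ⟨hBnn, fun j => ?_⟩
    refine le_of_mul_le_mul_left ?_ hDpos
    have e1 : D * (((j : ℝ) + 1) * B.coeff (j + 1)) = ((j : ℝ) + 1) * (D * B.coeff (j + 1)) := by ring
    have e2 : D * (c * (2 * u) * B.coeff j) = c * (2 * u) * (D * B.coeff j) := by ring
    rcases le_or_gt (j + 1) (2 * L + 2) with hj | hj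
    · have hj' : ((j + 1 : ℕ) : ℝ) ≤ S := by
        rw [hS]; exact_mod_cast hj
      have hup : D - 2 * (1 + v) * (((j + 1 : ℕ) : ℝ) * (S - ((j + 1 : ℕ) : ℝ))) ≤ D := by
        have : 0 ≤ 2 * (1 + v) * (((j + 1 : ℕ) : ℝ) * (S - ((j + 1 : ℕ) : ℝ))) :=
          mul_nonneg (by linarith) (mul_nonneg (Nat.cast_nonneg _) (by linarith))
        linarith
      rw [e1, e2, hcoef, hcoef]
      have hch : ((j : ℝ) + 1) * ((2 * L + 2).choose (j + 1) : ℝ) = (S - j) * ((2 * L + 2).choose j : ℝ) := by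
        have := Nat.choose_succ_right_eq (2 * L + 2) j
        have h5 : ((2 * L + 2 - j : ℕ) : ℝ) = S - j := by
          rw [Nat.cast_sub (by omega), hS]; push_cast; ring
        rw [← h5]
        have h6 : (((2 * L + 2).choose (j + 1) * (j + 1) : ℕ) : ℝ) =
          (((2 * L + 2).choose j * (2 * L + 2 - j) : ℕ) : ℝ) := by rw [this]
        push_cast at h6 ⊢
        linarith
      have hcn : (0 : ℝ) ≤ ((2 * L + 2).choose j : ℝ) := Nat.cast_nonneg _
      calc ((j : ℝ) + 1) * (u ^ (j + 1) * ((2 * L + 2).choose (j + 1) : ℝ) *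
            (D - 2 * (1 + v) * (((j + 1 : ℕ) : ℝ) * (S - ((j + 1 : ℕ) : ℝ)))))
          ≤ ((j : ℝ) + 1) * (u ^ (j + 1) * ((2 * L + 2).choose (j + 1) : ℝ) * D) := by
            refine mul_le_mul_of_nonneg_left (mul_le_mul_of_nonneg_left hup (by positivity))
              (by positivity)
        _ = u ^ (j + 1) * D * (((j : ℝ) + 1) * ((2 * L + 2).choose (j + 1) : ℝ)) := by ring
        _ = u ^ (j + 1) * D * ((S - j) * ((2 * L + 2).choose j : ℝ)) := by rw [hch]
        _ ≤ u ^ (j + 1) * (S * S) * (S * ((2 * L + 2).choose j : ℝ)) := by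
            have a1 : D ≤ S * S := by rw [hD]; nlinarith
            have a2 : (0 : ℝ) ≤ j := Nat.cast_nonneg _
            have a3 : S - j ≤ S := by linarith
            have a4 : 0 ≤ S - j := by push_cast at hj'; linarith
            gcongr
        _ = u ^ (j + 1) * ((2 * L + 2).choose j : ℝ) * (2 * S) * (S ^ 2 / 2) := by ring
        _ ≤ u ^ (j + 1) * ((2 * L + 2).choose j : ℝ) * (c * (1 - k0)) * (S ^ 2 / 2) := by gcongr
        _ = (c * (2 * u)) * (u ^ j * ((2 * L + 2).choose j : ℝ) * ((1 - k0) * S ^ 2 / 4)) := by ring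
        _ ≤ c * (2 * u) * (u ^ j * ((2 * L + 2).choose j : ℝ) *
            (D - 2 * (1 + v) * (j * (S - j)))) := by
            have a5 : 0 ≤ c := by linarith
            have := hlow j
            gcongr
    · have h0 : B.coeff (j + 1) = 0 := by
        have := hcoef (j + 1)
        rw [Nat.choose_eq_zero_of_lt hj] at this
        simp only [Nat.cast_zero, mul_zero, zero_mul, mul_eq_zero] at this
        exact this.resolve_left hDpos.ne'
      rw [h0, mul_zero, mul_zero]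
      have := hBnn j
      have a5 : 0 ≤ c := by linarith
      positivity

theorem D_good_one : Good 0 (1 : ℝ[X]) := by
  refine ⟨fun j => ?_, fun j => ?_⟩
  · rw [coeff_one]; split_ifs <;> norm_num
  · rw [coeff_one, if_neg (Nat.succ_ne_zero j)]
    simp

theorem D_ne {P : ℝ[X]} (h : P.coeff 0 = 1) : P ≠ 0 := by
  rintro rfl
  simp at h

theorem D_croots_mul {P Q : ℝ[X]} (hP : P.coeff 0 = 1) (hQ : Q.coeff 0 = 1) :
    croots (P * Q) = croots P + croots Q := by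
  unfold croots
  rw [Polynomial.map_mul, roots_mul]
  rw [← Polynomial.map_mul]
  apply (Polynomial.map_ne_zero_iff (algebraMap ℝ ℂ).injective).2
  exact mul_ne_zero (D_ne hP) (D_ne hQ)

theorem D_mem_croots {P : ℝ[X]} (hP : P.coeff 0 = 1) {ζ : ℂ} :
    ζ ∈ croots P ↔ aeval ζ P = 0 := by
  unfold croots
  rw [mem_roots ((Polynomial.map_ne_zero_iff (algebraMap ℝ ℂ).injective).2 (D_ne hP)), IsRoot.def,
    eval_map_algebraMap]

theorem D_croots_one : croots (1 : ℝ[X]) = 0 := by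
  unfold croots
  simp

theorem D_lin_coeff (u : ℝ) : (1 + C u * X : ℝ[X]).coeff 0 = 1 := by
  simp

theorem D_pow_coeff (u : ℝ) (k : ℕ) : ((1 + C u * X : ℝ[X]) ^ k).coeff 0 = 1 := by
  rw [coeff_zero_eq_eval_zero]
  simp

theorem D_pow_arg {u : ℝ} (hu : 0 < u) (k : ℕ) :
    ∀ ζ ∈ croots ((1 + C u * X : ℝ[X]) ^ k), ζ.arg = Real.pi := by
  intro ζ hζ
  rw [D_mem_croots (D_pow_coeff u k)] at hζ
  simp only [map_pow, map_add, map_one, map_mul, aeval_X, aeval_C] at hζ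
  have h1 : 1 + (u : ℂ) * ζ = 0 := by
    have hk : k ≠ 0 := by
      rintro rfl
      simp at hζ
    exact (pow_eq_zero_iff hk).1 hζ
  have hu' : (u : ℂ) ≠ 0 := by exact_mod_cast hu.ne'
  have h2 : ζ = ((-u⁻¹ : ℝ) : ℂ) := by
    push_cast
    field_simp
    linear_combination h1
  rw [h2]
  apply Complex.arg_ofReal_of_neg
  have : 0 < u⁻¹ := inv_pos.2 hu
  linarith

theorem D_croots_lin {u : ℝ} (hu : 0 < u) :
    croots (1 + C u * X : ℝ[X]) = {((-u⁻¹ : ℝ) : ℂ)} := by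
  unfold croots
  have hu' : (u : ℂ) ≠ 0 := by exact_mod_cast hu.ne'
  have h1 : (1 + C u * X : ℝ[X]).map (algebraMap ℝ ℂ) = C (u : ℂ) * (X - C ((-u⁻¹ : ℝ) : ℂ)) := by
    simp only [Polynomial.map_add, Polynomial.map_one, Polynomial.map_mul, map_C, map_X, mul_sub,
      ← C_mul]
    have : (u : ℂ) * ((-u⁻¹ : ℝ) : ℂ) = -1 := by
      push_cast
      field_simp
    rw [this]
    simp
    ring
  rw [h1, roots_C_mul _ hu', roots_X_sub_C]

theorem D_croots_quad {ζ : ℂ} (hζ : ζ ≠ 0) :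
    croots (1 - C (2 * (ζ.re * ‖ζ‖⁻¹) * ‖ζ‖⁻¹) * X + C (‖ζ‖⁻¹ ^ 2) * X ^ 2 : ℝ[X]) =
      {ζ} + {(starRingEnd ℂ) ζ} := by
  unfold croots
  have hn : (‖ζ‖ : ℂ) ≠ 0 := by exact_mod_cast (norm_pos_iff.2 hζ).ne'
  have hn' : (‖ζ‖ : ℝ) ≠ 0 := (norm_pos_iff.2 hζ).ne'
  have hc : ((‖ζ‖ : ℂ)⁻¹ ^ 2) ≠ 0 := pow_ne_zero _ (inv_ne_zero hn)
  have e1 : ζ * (starRingEnd ℂ) ζ = (‖ζ‖ : ℂ) ^ 2 := by
    rw [Complex.mul_conj, Complex.normSq_eq_norm_sq]; push_cast; ring
  have e2 : ζ + (starRingEnd ℂ) ζ = 2 * (ζ.re : ℂ) := by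
    rw [Complex.add_conj]; push_cast; ring
  have h1 : (1 - C (2 * (ζ.re * ‖ζ‖⁻¹) * ‖ζ‖⁻¹) * X + C (‖ζ‖⁻¹ ^ 2) * X ^ 2 : ℝ[X]).map
      (algebraMap ℝ ℂ) = C ((‖ζ‖ : ℂ)⁻¹ ^ 2) * ((X - C ζ) * (X - C ((starRingEnd ℂ) ζ))) := by
    have e3 : (X - C ζ) * (X - C ((starRingEnd ℂ) ζ)) =
        X ^ 2 - C (2 * (ζ.re : ℂ)) * X + C ((‖ζ‖ : ℂ) ^ 2) := by
      rw [← e1, ← e2, C_add, C_mul]
      ring
    rw [e3]
    simp only [Polynomial.map_add, Polynomial.map_sub, Polynomial.map_one, Polynomial.map_mul,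
      Polynomial.map_pow, map_C, map_X]
    have e7 : ∀ a b d : ℂ, C a * (X ^ 2 - C b * X + C d) = C a * X ^ 2 - C (a * b) * X + C (a * d) := by
      intro a b d
      rw [C_mul, C_mul]; ring
    rw [e7]
    have e4 : (‖ζ‖ : ℂ)⁻¹ ^ 2 * (‖ζ‖ : ℂ) ^ 2 = 1 := by
      field_simp
    have e5 : (algebraMap ℝ ℂ) (2 * (ζ.re * ‖ζ‖⁻¹) * ‖ζ‖⁻¹) = (‖ζ‖ : ℂ)⁻¹ ^ 2 * (2 * (ζ.re : ℂ)) := by
      simp
      ring
    have e6 : (algebraMap ℝ ℂ) (‖ζ‖⁻¹ ^ 2) = (‖ζ‖ : ℂ)⁻¹ ^ 2 := by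
      simp
    rw [e4, e5, e6, C_1]
    ring
  rw [h1, roots_C_mul _ hc, roots_mul, roots_X_sub_C, roots_X_sub_C]
  exact mul_ne_zero (X_sub_C_ne_zero _) (X_sub_C_ne_zero _)

/-- one step -/
theorem D_step (θ : ℝ) (hθ0 : 0 < θ) (hθπ : θ < Real.pi) (L : ℕ) (c : ℝ)
    (hq1 : ∀ t : ℝ, 0 < t → Good (c * t) ((1 + C t * X) * (1 + C t * X) ^ L))
    (hq2 : ∀ u v : ℝ, 0 < u → v ≤ Real.cos θ → -1 ≤ v →
      Good (c * (2 * u)) ((1 - C (2 * v * u) * X + C (u ^ 2) * X ^ 2) * (1 + C u * X) ^ (2 * L)))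
    (T : ℝ[X]) (hT0 : T.coeff 0 = 1) (hT : ∀ ζ ∈ croots T, θ ≤ |ζ.arg|) (hd : 0 < T.natDegree) :
    ∃ q F T1 : ℝ[X], T = q * T1 ∧ 0 < q.natDegree ∧ q.coeff 0 = 1 ∧ F.coeff 0 = 1 ∧
      (∀ ζ ∈ croots F, ζ.arg = Real.pi) ∧
      Good (L * ((croots q).map (fun ζ => ‖ζ‖⁻¹)).sum) F ∧
      Good (c * ((croots q).map (fun ζ => ‖ζ‖⁻¹)).sum) (q * F) := by
  obtain ⟨ζ, hζ⟩ : ∃ ζ : ℂ, aeval ζ T = 0 := by
    have h1 : (T.map (algebraMap ℝ ℂ)).degree ≠ 0 := by
      rw [degree_map]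
      intro h
      rw [natDegree_pos_iff_degree_pos, h] at hd
      exact lt_irrefl _ hd
    obtain ⟨ζ, hζ⟩ := IsAlgClosed.exists_root _ h1
    refine ⟨ζ, ?_⟩
    rwa [IsRoot.def, eval_map_algebraMap] at hζ
  have hmem : ζ ∈ croots T := (D_mem_croots hT0).2 hζ
  have hz0 : ζ ≠ 0 := by
    rintro rfl
    rw [← eval_map_algebraMap, ← coeff_zero_eq_eval_zero, coeff_map, hT0] at hζ
    simp at hζ
  have harg := hT ζ hmem
  by_cases him : ζ.im = 0
  · -- real root
    obtain ⟨x, rfl⟩ : ∃ x : ℝ, ζ = (x : ℂ) := ⟨ζ.re, by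
      apply Complex.ext <;> simp [him]⟩
    have hx0 : x ≠ 0 := by
      rintro rfl
      simp at hz0
    have hxneg : x < 0 := by
      by_contra hcon
      push Not at hcon
      rw [Complex.arg_ofReal_of_nonneg hcon, abs_zero] at harg
      linarith
    have hroot : T.IsRoot x := by
      have h1 : aeval (x : ℂ) T = ((eval x T : ℝ) : ℂ) := by
        have := aeval_algebraMap_apply ℂ x T
        rw [← coe_aeval_eq_eval]
        exact this
      rw [h1] at hζ
      exact_mod_cast hζ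
    obtain ⟨Q, hQ⟩ := dvd_iff_isRoot.2 hroot
    set t : ℝ := -x⁻¹ with ht
    have ht0 : 0 < t := by
      rw [ht]
      have : x⁻¹ < 0 := inv_lt_zero.2 hxneg
      linarith
    have hq : T = (1 + C t * X) * (C (-x) * Q) := by
      rw [hQ]
      have : (1 + C t * X : ℝ[X]) * C (-x) = X - C x := by
        have e : t * (-x) = 1 := by rw [ht]; field_simp
        calc (1 + C t * X : ℝ[X]) * C (-x) = C (-x) + C (t * (-x)) * X := by
              rw [C_mul]; ring
          _ = X - C x := by rw [e, C_1, C_neg]; ring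
      rw [← mul_assoc, this]
    have hS : ((croots (1 + C t * X : ℝ[X])).map (fun ζ => ‖ζ‖⁻¹)).sum = t := by
      rw [D_croots_lin ht0, Multiset.map_singleton, Multiset.sum_singleton, Complex.norm_real,
        Real.norm_eq_abs, abs_neg, abs_inv, inv_inv, abs_of_pos ht0]
    refine ⟨1 + C t * X, (1 + C t * X) ^ L, C (-x) * Q, hq, ?_, D_lin_coeff t, D_pow_coeff t L,
      D_pow_arg ht0 L, ?_, ?_⟩
    · have : (1 + C t * X : ℝ[X]).natDegree = 1 := by
        rw [add_comm]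
        have : (1 : ℝ[X]) = C 1 := C_1.symm
        rw [this]
        exact natDegree_linear ht0.ne'
      rw [this]; exact one_pos
    · rw [hS]; exact good_pow t ht0.le L
    · rw [hS]; exact hq1 t ht0
  · -- nonreal root
    have hn0 : 0 < ‖ζ‖ := norm_pos_iff.2 hz0
    obtain ⟨Q, hQ⟩ := quadratic_dvd_of_aeval_eq_zero_im_ne_zero T hζ him
    set u : ℝ := ‖ζ‖⁻¹ with hu
    set v : ℝ := ζ.re * ‖ζ‖⁻¹ with hv
    have hu0 : 0 < u := inv_pos.2 hn0
    have hvcos : v = Real.cos ζ.arg := by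
      rw [Complex.cos_arg hz0, hv]; rfl
    have hvle : v ≤ Real.cos θ := by
      rw [hvcos, ← Real.cos_abs]
      exact Real.cos_le_cos_of_nonneg_of_le_pi hθ0.le (Complex.abs_arg_le_pi ζ) harg
    have hvge : -1 ≤ v := by rw [hvcos]; exact Real.neg_one_le_cos _
    have hq : T = (1 - C (2 * v * u) * X + C (u ^ 2) * X ^ 2) * (C (‖ζ‖ ^ 2) * Q) := by
      rw [hQ]
      have : (1 - C (2 * v * u) * X + C (u ^ 2) * X ^ 2 : ℝ[X]) * C (‖ζ‖ ^ 2) =
          X ^ 2 - C (2 * ζ.re) * X + C (‖ζ‖ ^ 2) := by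
        have e1 : (2 * v * u) * ‖ζ‖ ^ 2 = 2 * ζ.re := by
          rw [hv, hu]; field_simp
        have e2 : u ^ 2 * ‖ζ‖ ^ 2 = 1 := by rw [hu]; field_simp
        calc (1 - C (2 * v * u) * X + C (u ^ 2) * X ^ 2 : ℝ[X]) * C (‖ζ‖ ^ 2) =
            C (‖ζ‖ ^ 2) - C ((2 * v * u) * ‖ζ‖ ^ 2) * X + C (u ^ 2 * ‖ζ‖ ^ 2) * X ^ 2 := by
              rw [C_mul (a := 2 * v * u), C_mul (a := u ^ 2)]; ring
          _ = _ := by rw [e1, e2, C_1]; ring
      rw [← mul_assoc, this]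
    have hS : ((croots (1 - C (2 * v * u) * X + C (u ^ 2) * X ^ 2 : ℝ[X])).map
        (fun ζ => ‖ζ‖⁻¹)).sum = 2 * u := by
      rw [hv, hu, D_croots_quad hz0, Multiset.map_add, Multiset.sum_add, Multiset.map_singleton,
        Multiset.map_singleton, Multiset.sum_singleton, Multiset.sum_singleton, RCLike.norm_conj]
      ring
    refine ⟨1 - C (2 * v * u) * X + C (u ^ 2) * X ^ 2, (1 + C u * X) ^ (2 * L), C (‖ζ‖ ^ 2) * Q,
      hq, ?_, ?_, D_pow_coeff u _, D_pow_arg hu0 _, ?_, ?_⟩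
    · have : (1 - C (2 * v * u) * X + C (u ^ 2) * X ^ 2 : ℝ[X]).coeff 2 ≠ 0 := by
        have e : (1 - C (2 * v * u) * X + C (u ^ 2) * X ^ 2 : ℝ[X]).coeff 2 = u ^ 2 := by
          simp only [coeff_add, coeff_sub, coeff_one, coeff_C_mul, coeff_X_pow, coeff_X]
          norm_num
        rw [e]
        positivity
      have := le_natDegree_of_ne_zero this
      omega
    · simp
    · rw [hS]
      have := good_pow u hu0.le (2 * L)
      have e : ((2 * L : ℕ) : ℝ) * u = (L : ℝ) * (2 * u) := by push_cast; ring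
      rwa [e] at this
    · rw [hS]; exact hq2 u v hu0 hvle hvge

/-! TARGET -/
/-- a real polynomial with no roots in the sector `|arg| < θ` has a multiplier with negative roots
making all coefficients nonnegative, with control of the ratios -/
theorem multiplier (θ : ℝ) (hθ0 : 0 < θ) (hθπ : θ < Real.pi) : ∃ (L : ℕ) (c : ℝ), 0 < c ∧
    ∀ T : ℝ[X], T.coeff 0 = 1 → (∀ ζ ∈ croots T, θ ≤ |ζ.arg|) →
      ∃ E : ℝ[X], E.coeff 0 = 1 ∧ (∀ ζ ∈ croots E, ζ.arg = Real.pi) ∧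
        Good (L * ((croots T).map (fun ζ => ‖ζ‖⁻¹)).sum) E ∧
        Good (c * ((croots T).map (fun ζ => ‖ζ‖⁻¹)).sum) (T * E) := by
  have hcos : Real.cos θ < 1 := by
    rw [← Real.cos_zero]
    exact Real.cos_lt_cos_of_nonneg_of_le_pi le_rfl hθπ.le hθ0
  obtain ⟨L, c, hL, hLc, hq1, hq2⟩ := quad_good (Real.cos θ) hcos
  have hL' : (1 : ℝ) ≤ L := by exact_mod_cast hL
  refine ⟨L, c, by linarith, ?_⟩
  suffices H : ∀ d : ℕ, ∀ T : ℝ[X], T.natDegree = d → T.coeff 0 = 1 →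
      (∀ ζ ∈ croots T, θ ≤ |ζ.arg|) →
      ∃ E : ℝ[X], E.coeff 0 = 1 ∧ (∀ ζ ∈ croots E, ζ.arg = Real.pi) ∧
        Good (L * ((croots T).map (fun ζ => ‖ζ‖⁻¹)).sum) E ∧
        Good (c * ((croots T).map (fun ζ => ‖ζ‖⁻¹)).sum) (T * E) from
    fun T => H T.natDegree T rfl
  intro d
  induction d using Nat.strong_induction_on with
  | _ d ih =>
    intro T hd hT0 hT
    rcases Nat.eq_zero_or_pos d with h0 | hpos
    · have hT1 : T = 1 := by
        rw [eq_C_of_natDegree_eq_zero (hd.trans h0), hT0, C_1]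
      subst hT1
      refine ⟨1, by simp, ?_, ?_, ?_⟩
      · rw [D_croots_one]; simp
      · rw [D_croots_one]; simpa using D_good_one
      · rw [D_croots_one]; simpa using D_good_one
    · obtain ⟨q, F, T1, hTq, hqd, hq0, hF0, hFarg, hGF, hGqF⟩ :=
        D_step θ hθ0 hθπ L c hq1 hq2 T hT0 hT (by omega)
      have hT10 : T1.coeff 0 = 1 := by
        rw [hTq, mul_coeff_zero, hq0, one_mul] at hT0
        exact hT0
      have hdeg : T1.natDegree < d := by
        have : T.natDegree = q.natDegree + T1.natDegree := by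
          rw [hTq, natDegree_mul (D_ne hq0) (D_ne hT10)]
        omega
      have hcr : croots T = croots q + croots T1 := by
        rw [hTq, D_croots_mul hq0 hT10]
      obtain ⟨E1, hE0, hEarg, hGE, hGTE⟩ := ih T1.natDegree hdeg T1 rfl hT10 (by
        intro ζ hζ
        apply hT
        rw [hcr, Multiset.mem_add]
        exact Or.inr hζ)
      refine ⟨F * E1, ?_, ?_, ?_, ?_⟩
      · rw [mul_coeff_zero, hF0, hE0, one_mul]
      · intro ζ hζ
        rw [D_croots_mul hF0 hE0, Multiset.mem_add] at hζ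
        rcases hζ with h | h
        · exact hFarg ζ h
        · exact hEarg ζ h
      · rw [hcr, Multiset.map_add, Multiset.sum_add, mul_add]
        exact hGF.mul hGE
      · rw [hcr, Multiset.map_add, Multiset.sum_add, mul_add]
        have := hGqF.mul hGTE
        have e : q * F * (T1 * E1) = T * (F * E1) := by rw [hTq]; ring
        rwa [e] at this


theorem good_decay {B : ℝ[X]} (h : Good 1 B) (m t : ℕ) :
    ((m : ℝ) + 1) * B.coeff (m + (t + 1)) ≤ B.coeff m := by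
  induction t with
  | zero =>
    have := h.2 m
    rw [one_mul] at this
    exact this
  | succ t ih =>
    have h1 := h.2 (m + (t + 1))
    rw [one_mul] at h1
    have h2 := h.1 (m + (t + 1) + 1)
    have h3 : B.coeff (m + (t + 1) + 1) ≤ B.coeff (m + (t + 1)) := by
      have : (0 : ℝ) ≤ ((m + (t + 1) : ℕ) : ℝ) := Nat.cast_nonneg _
      nlinarith
    have h4 : ((m : ℝ) + 1) * B.coeff (m + (t + 1) + 1) ≤ ((m : ℝ) + 1) * B.coeff (m + (t + 1)) :=
      mul_le_mul_of_nonneg_left h3 (by positivity)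
    exact h4.trans ih

/-- multiplication by a good polynomial makes the high coefficients nonnegative -/
theorem tail_nonneg (P : ℝ[X]) (h0 : P.coeff 0 = 1) (hP : ∀ x : ℝ, 0 < x → P.eval x ≠ 0) :
    ∃ J₀ : ℕ, ∀ B : ℝ[X], Good 1 B → ∀ j : ℕ, J₀ ≤ j → 0 ≤ (P * B).coeff j := by
  have hP0 : P ≠ 0 := by
    rintro rfl
    simp at h0
  set d := P.natDegree with hd
  have hlead : 0 < P.coeff d := by
    rcases lt_or_ge 0 (P.coeff d) with h | h
    · exact h
    exfalso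
    rcases Nat.eq_zero_or_pos d with hd0 | hd0
    · rw [hd0, h0] at h
      linarith
    have htend := Polynomial.tendsto_atBot_of_leadingCoeff_nonpos P
      (Polynomial.natDegree_pos_iff_degree_pos.1 hd0) h
    obtain ⟨x, hx1, hx2⟩ := ((htend.eventually (Filter.eventually_lt_atBot (0:ℝ))).and
      (Filter.eventually_gt_atTop (0:ℝ))).exists
    have hcont : ContinuousOn (fun y => P.eval y) (Set.Icc 0 x) := P.continuous.continuousOn
    have hmem : (0:ℝ) ∈ Set.Icc (P.eval x) (P.eval 0) := by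
      refine ⟨hx1.le, ?_⟩
      rw [← Polynomial.coeff_zero_eq_eval_zero, h0]; norm_num
    obtain ⟨y, hy1, hy2⟩ := intermediate_value_Icc' hx2.le hcont hmem
    have hy2 : P.eval y = 0 := hy2
    rcases hy1.1.lt_or_eq with h1 | h1
    · exact hP y h1 hy2
    · rw [← h1, ← Polynomial.coeff_zero_eq_eval_zero, h0] at hy2
      norm_num at hy2
  set A := ∑ i ∈ Finset.range d, |P.coeff i| with hA
  refine ⟨d + ⌈A / P.coeff d⌉₊, fun B hB j hj => ?_⟩
  obtain ⟨m, rfl⟩ := Nat.exists_eq_add_of_le (show d ≤ j by omega)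
  have hm : A / P.coeff d ≤ (m : ℝ) := by
    have : ⌈A / P.coeff d⌉₊ ≤ m := by omega
    exact (Nat.le_ceil _).trans (by exact_mod_cast this)
  have hsum : (P * B).coeff (d + m) = ∑ i ∈ Finset.range (d + 1), P.coeff i * B.coeff (d + m - i) := by
    rw [Polynomial.coeff_mul, Finset.Nat.sum_antidiagonal_eq_sum_range_succ
      (fun a b => P.coeff a * B.coeff b)]
    symm
    apply Finset.sum_subset
    · intro i hi
      rw [Finset.mem_range] at hi ⊢
      omega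
    · intro i _ hi
      rw [Finset.mem_range] at hi
      rw [Polynomial.coeff_eq_zero_of_natDegree_lt (by omega), zero_mul]
  rw [hsum, Finset.sum_range_succ, Nat.add_sub_cancel_left]
  have hBm := hB.1 m
  have hlow : -(A * (B.coeff m / ((m : ℝ) + 1))) ≤
      ∑ i ∈ Finset.range d, P.coeff i * B.coeff (d + m - i) := by
    rw [hA, Finset.sum_mul, ← Finset.sum_neg_distrib]
    refine Finset.sum_le_sum fun i hi => ?_
    have hi' := Finset.mem_range.1 hi
    have e : d + m - i = m + ((d - i - 1) + 1) := by omega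
    rw [e]
    have h1 := good_decay hB m (d - i - 1)
    have h2 := hB.1 (m + ((d - i - 1) + 1))
    have h3 : B.coeff (m + ((d - i - 1) + 1)) ≤ B.coeff m / ((m : ℝ) + 1) := by
      rw [le_div_iff₀ (by positivity)]; linarith
    have h4 : |P.coeff i| * B.coeff (m + ((d - i - 1) + 1)) ≤ |P.coeff i| * (B.coeff m / ((m : ℝ) + 1)) :=
      mul_le_mul_of_nonneg_left h3 (abs_nonneg _)
    have h5 : -(|P.coeff i| * B.coeff (m + ((d - i - 1) + 1)))
        ≤ P.coeff i * B.coeff (m + ((d - i - 1) + 1)) := by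
      rw [← neg_mul]
      exact mul_le_mul_of_nonneg_right (neg_abs_le _) h2
    linarith
  have hfin : A * (B.coeff m / ((m : ℝ) + 1)) ≤ P.coeff d * B.coeff m := by
    rw [div_le_iff₀ hlead] at hm
    rw [mul_div_assoc', div_le_iff₀ (by positivity)]
    have h6 : A ≤ P.coeff d * ((m : ℝ) + 1) := by nlinarith
    nlinarith
  linarith

/-- elementary bounds for the coefficients of a good polynomial with small parameter -/
theorem Good.bound {s : ℝ} {B : ℝ[X]} (h : Good s B) (h0 : B.coeff 0 = 1) (hs0 : 0 ≤ s) (hs1 : s ≤ 1) :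
    (∀ j, B.coeff j ≤ 1) ∧ ∀ j, 1 ≤ j → B.coeff j ≤ s := by
  have hstep : ∀ j, B.coeff (j + 1) ≤ s * B.coeff j := by
    intro j
    have h1 := h.2 j
    have h2 := h.1 (j + 1)
    have h3 : (0 : ℝ) ≤ (j : ℝ) := Nat.cast_nonneg _
    nlinarith
  have h1 : ∀ j, B.coeff j ≤ 1 := by
    intro j
    induction j with
    | zero => rw [h0]
    | succ j ih =>
      have h2 := hstep j
      have h3 := h.1 j
      nlinarith
  refine ⟨h1, fun j hj => ?_⟩
  obtain ⟨k, rfl⟩ := Nat.exists_eq_add_of_le' hj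
  have h2 := hstep k
  have h3 := h1 k
  nlinarith

/-- coefficients of a product with `(1 + λ X) ^ M` -/
theorem coeff_lower (E : ℝ[X]) (hE : ∀ j, 0 ≤ E.coeff j) (h0 : E.coeff 0 = 1) (l : ℝ) (hl0 : 0 < l)
    (hl1 : l ≤ 1) (M : ℕ) : ∀ j, j ≤ M → l ^ M ≤ (E * (1 + C l * X) ^ M).coeff j := by
  intro j hj
  have hcoef : ∀ b, ((1 + C l * X) ^ M : ℝ[X]).coeff b = (M.choose b : ℝ) * l ^ b := by
    intro b
    have e : ((1 + C l * X) ^ M : ℝ[X]) = ((1 + X) ^ M : ℝ[X]).comp (C l * X) := by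
      simp
    rw [e, Polynomial.comp_C_mul_X_coeff, Polynomial.coeff_one_add_X_pow]
  rw [Polynomial.coeff_mul]
  have hmem : ((0, j) : ℕ × ℕ) ∈ Finset.HasAntidiagonal.antidiagonal j := by simp
  have hge := Finset.single_le_sum (f := fun x : ℕ × ℕ => E.coeff x.1 * ((1 + C l * X) ^ M).coeff x.2)
    (fun x _ => by
      rw [hcoef]
      have := hE x.1
      positivity) hmem
  refine le_trans ?_ hge
  show l ^ M ≤ E.coeff 0 * ((1 + C l * X) ^ M).coeff j
  rw [h0, hcoef, one_mul]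
  have h1 : l ^ M ≤ l ^ j := pow_le_pow_of_le_one hl0.le hl1 hj
  have h2 : (1 : ℝ) ≤ (M.choose j : ℝ) := by
    exact_mod_cast Nat.choose_pos hj
  have h3 : 0 < l ^ j := by positivity
  nlinarith


end LacAngle
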