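import Mathlib
import Pool.Agent.C20521.Desc
open Polynomial

namespace LacAngle


theorem prod_diff (S : Multiset ℂ) : Differentiable ℂ (fun z : ℂ => (S.map (fun ζ => 1 - z / ζ)).prod) := by
  induction S using Multiset.induction_on with
  | empty => simp
  | cons a S ih =>
    simp only [Multiset.map_cons, Multiset.prod_cons]
    exact ((differentiable_const _).sub (differentiable_id.div_const _)).mul ih

theorem prod_zero (S : Multiset ℂ) : (S.map (fun ζ : ℂ => 1 - 0 / ζ)).prod = 1 := by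
  simp

theorem prod_ge (S : Multiset ℂ) (z : ℂ) (h : ∀ ζ ∈ S, 2 ≤ ‖1 - z / ζ‖) :
    (2 : ℝ) ^ (Multiset.card S) ≤ ‖(S.map (fun ζ => 1 - z / ζ)).prod‖ := by
  induction S using Multiset.induction_on with
  | empty => simp
  | cons a S ih =>
    rw [Multiset.map_cons, Multiset.prod_cons, Multiset.card_cons, norm_mul, pow_succ, mul_comm]
    apply mul_le_mul (h a (Multiset.mem_cons_self a S)) (ih (fun ζ hζ => h ζ (Multiset.mem_cons_of_mem hζ)))
      (by positivity) (norm_nonneg _)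

theorem factor_ge {z ζ : ℂ} {r : ℝ} (hr : 0 < r) (hz : ‖z‖ = 3 * r) (h0 : ζ ≠ 0) (h : ‖ζ‖ ≤ r) : 2 ≤ ‖1 - z / ζ‖ := by
  have h1 : ‖z / ζ‖ - ‖(1 : ℂ)‖ ≤ ‖z / ζ - 1‖ := norm_sub_norm_le _ _
  rw [norm_sub_rev] at h1
  have h2 : 3 ≤ ‖z / ζ‖ := by
    rw [norm_div, hz, le_div_iff₀ (norm_pos_iff.mpr h0)]
    linarith
  rw [norm_one] at h1
  linarith

theorem max_mod (u : ℂ → ℂ) (hu : Differentiable ℂ u) (R C : ℝ) (hR : 0 < R) (h : ∀ z : ℂ, ‖z‖ = R → ‖u z‖ ≤ C)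
    (z : ℂ) (hz : ‖z‖ ≤ R) : ‖u z‖ ≤ C := by
  apply Complex.norm_le_of_forall_mem_frontier_norm_le (U := Metric.ball 0 R) Metric.isBounded_ball
    hu.diffContOnCl
  · intro w hw
    rw [frontier_ball 0 hR.ne', mem_sphere_zero_iff_norm] at hw
    exact h w hw
  · rw [closure_ball 0 hR.ne', mem_closedBall_zero_iff]
    exact hz

/-- counting zeros: an entire function bounded by `B` on the circle of radius `3r` has at most
`log B / log 2` zeros in the disc of radius `r` -/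
theorem count_zeros (F h : ℂ → ℂ) (hh : Differentiable ℂ h) (S : Multiset ℂ)
    (hS : ∀ ζ ∈ S, ζ ≠ 0) (hF0 : F 0 = 1) (hF : ∀ z, F z = (S.map (fun ζ => 1 - z / ζ)).prod * h z)
    (r : ℝ) (hr : 0 < r) (B : ℝ) (hB : ∀ z : ℂ, ‖z‖ = 3 * r → ‖F z‖ ≤ B) :
    (2 : ℝ) ^ (Multiset.card (S.filter (fun ζ => ‖ζ‖ ≤ r))) ≤ B := by
  obtain ⟨S1, hS1⟩ : ∃ S1, S1 = S.filter (fun ζ => ‖ζ‖ ≤ r) := ⟨_, rfl⟩
  obtain ⟨S2, hS2⟩ : ∃ S2, S2 = S.filter (fun ζ => ¬ ‖ζ‖ ≤ r) := ⟨_, rfl⟩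
  have hSS : S = S1 + S2 := by rw [hS1, hS2, Multiset.filter_add_not]
  rw [← hS1]
  let u : ℂ → ℂ := fun z => (S2.map (fun ζ => 1 - z / ζ)).prod * h z
  have hu : Differentiable ℂ u := (prod_diff S2).mul hh
  have hFu : ∀ z, F z = (S1.map (fun ζ => 1 - z / ζ)).prod * u z := by
    intro z
    rw [hF, hSS, Multiset.map_add, Multiset.prod_add, mul_assoc]
  have hu0 : u 0 = 1 := by
    have := hFu 0
    rw [prod_zero, one_mul, hF0] at this
    exact this.symm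
  have hbd : ∀ z : ℂ, ‖z‖ = 3 * r → ‖u z‖ ≤ B / 2 ^ (Multiset.card S1) := by
    intro z hz
    rw [le_div_iff₀ (by positivity)]
    have h1 := hB z hz
    rw [hFu, norm_mul] at h1
    have h2 := prod_ge S1 z (fun ζ hζ => by
      have h3 : ζ ∈ S.filter (fun ζ => ‖ζ‖ ≤ r) := by rw [← hS1]; exact hζ
      rw [Multiset.mem_filter] at h3
      exact factor_ge hr hz (hS ζ h3.1) h3.2)
    calc ‖u z‖ * 2 ^ (Multiset.card S1) ≤ ‖u z‖ * ‖(S1.map (fun ζ => 1 - z / ζ)).prod‖ :=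
          mul_le_mul_of_nonneg_left h2 (norm_nonneg _)
      _ = ‖(S1.map (fun ζ => 1 - z / ζ)).prod‖ * ‖u z‖ := mul_comm _ _
      _ ≤ B := h1
  have h4 := max_mod u hu (3 * r) _ (by positivity) hbd 0 (by rw [norm_zero]; positivity)
  rw [hu0, norm_one, le_div_iff₀ (by positivity), one_mul] at h4
  exact h4

/-- maximum principle for the cofactor -/
theorem cofactor_bound (F h : ℂ → ℂ) (hh : Differentiable ℂ h) (S : Multiset ℂ)
    (R : ℝ) (hR : 0 < R) (hS : ∀ ζ ∈ S, ζ ≠ 0 ∧ ‖ζ‖ ≤ R) (hF : ∀ z, F z = (S.map (fun ζ => 1 - z / ζ)).prod * h z)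
    (B : ℝ) (hB : ∀ z : ℂ, ‖z‖ = 3 * R → ‖F z‖ ≤ B) :
    ∀ z : ℂ, ‖z‖ ≤ R → ‖h z‖ ≤ B := by
  intro z hz
  apply max_mod h hh (3 * R) B (by positivity) _ z (by linarith)
  intro w hw
  have h1 := hB w hw
  rw [hF, norm_mul] at h1
  have h2 := prod_ge S w (fun ζ hζ => factor_ge hR hw (hS ζ hζ).1 (hS ζ hζ).2)
  have h3 : (1 : ℝ) ≤ 2 ^ (Multiset.card S) := one_le_pow₀ (by norm_num)
  calc ‖h w‖ = 1 * ‖h w‖ := (one_mul _).symm
    _ ≤ ‖(S.map (fun ζ => 1 - w / ζ)).prod‖ * ‖h w‖ := mul_le_mul_of_nonneg_right (h3.trans h2) (norm_nonneg _)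
    _ ≤ B := h1

theorem coeff_cauchy (d : ℕ → ℂ) (D : ℂ → ℂ) (hD : Differentiable ℂ D) (hs : ∀ z : ℂ, HasSum (fun j => d j * z ^ j) (D z))
    (C : ℝ) (hC : ∀ z : ℂ, ‖z‖ ≤ 1 → ‖D z‖ ≤ C) (j : ℕ) : ‖d j‖ ≤ C := by
  let p : FormalMultilinearSeries ℂ ℂ ℂ := FormalMultilinearSeries.ofScalars ℂ d
  have hp : ∀ n, p.coeff n = d n := by
    intro n
    simp [p, FormalMultilinearSeries.coeff_ofScalars]
  have h1 : HasFPowerSeriesAt D p 0 := by
    rw [hasFPowerSeriesAt_iff]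
    filter_upwards with z
    rw [zero_add]
    refine (hs z).congr_fun (fun n => ?_) 
    rw [hp, smul_eq_mul, mul_comm]
  have h2 : HasFPowerSeriesAt D (cauchyPowerSeries D 0 1) 0 := by
    have := hD.hasFPowerSeriesOnBall 0 (R := 1) one_pos
    exact this.hasFPowerSeriesAt
  have h3 : p = cauchyPowerSeries D 0 1 := h1.eq_formalMultilinearSeries h2
  have h4 := norm_cauchyPowerSeries_le D 0 1 j
  rw [← h3, FormalMultilinearSeries.norm_apply_eq_norm_coef, hp] at h4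
  refine h4.trans ?_
  rw [abs_one, inv_one, one_pow, mul_one]
  have h5 : ∫ θ in (0:ℝ)..2 * Real.pi, ‖D (circleMap 0 1 θ)‖ ≤ ∫ θ in (0:ℝ)..2 * Real.pi, C := by
    apply intervalIntegral.integral_mono_on (by positivity)
    · apply Continuous.intervalIntegrable
      exact (hD.continuous.comp (continuous_circleMap 0 1)).norm
    · exact intervalIntegrable_const
    · intro θ _
      apply hC
      rw [norm_circleMap_zero, abs_one]
  rw [intervalIntegral.integral_const, smul_eq_mul, sub_zero] at h5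
  rw [inv_mul_le_iff₀ (by positivity)]
  exact h5

/-- if `F = P h` with `1/h` close to `1` on the unit disc then the coefficients of `P` are close to those of `F` -/
theorem coeff_close (a : ℕ → ℝ) (F h : ℂ → ℂ) (hF : ∀ z : ℂ, HasSum (fun j => (a j : ℂ) * z ^ j) (F z))
    (P : ℝ[X]) (hh : Differentiable ℂ h) (hPh : ∀ z : ℂ, F z = aeval z P * h z)
    (B ε : ℝ) (hB : ∀ z : ℂ, ‖z‖ ≤ 1 → ‖F z‖ ≤ B) (hε : ∀ z : ℂ, ‖z‖ ≤ 1 → h z ≠ 0 ∧ ‖1 - (h z)⁻¹‖ ≤ ε) :
    ∀ j, |P.coeff j - a j| ≤ B * ε := by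
  intro j
  have hP : Differentiable ℂ (fun z : ℂ => aeval z P) := P.differentiable_aeval
  have hFd : Differentiable ℂ F := by
    have : F = fun z => aeval z P * h z := funext hPh
    rw [this]
    exact hP.mul hh
  have hPs : ∀ z : ℂ, HasSum (fun j => ((P.coeff j : ℝ) : ℂ) * z ^ j) (aeval z P) := by
    intro z
    rw [aeval_eq_sum_range]
    have e : ∑ i ∈ Finset.range (P.natDegree + 1), P.coeff i • z ^ i =
        ∑ i ∈ Finset.range (P.natDegree + 1), ((P.coeff i : ℝ) : ℂ) * z ^ i := by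
      apply Finset.sum_congr rfl
      intro i _
      rw [Complex.real_smul]
    rw [e]
    apply hasSum_sum_of_ne_finset_zero
    intro i hi
    rw [Finset.mem_range, not_lt] at hi
    rw [coeff_eq_zero_of_natDegree_lt (by omega), Complex.ofReal_zero, zero_mul]
  have h1 := coeff_cauchy (fun j => ((P.coeff j - a j : ℝ) : ℂ)) (fun z => aeval z P - F z) (hP.sub hFd)
    (fun z => by
      have := (hPs z).sub (hF z)
      refine this.congr_fun (fun n => ?_)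
      push_cast
      ring) (B * ε) (fun z hz => by
      obtain ⟨h0, h2⟩ := hε z hz
      have h3 : aeval z P - F z = - (F z * (1 - (h z)⁻¹)) := by
        rw [hPh z]
        field_simp
        ring
      rw [h3, norm_neg, norm_mul]
      exact mul_le_mul (hB z hz) h2 (norm_nonneg _) ((norm_nonneg _).trans (hB z hz))) j
  rwa [Complex.norm_real, Real.norm_eq_abs] at h1


/-- the properties of a partial extraction -/
structure PExt (h : ℂ → ℂ) (R : ℝ) (T : ℝ[X]) (g : ℂ → ℂ) : Prop where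
  c0 : T.coeff 0 = 1
  rt : ∀ ζ ∈ croots T, ‖ζ‖ ≤ R
  df : Differentiable ℂ g
  cj : ∀ z, g ((starRingEnd ℂ) z) = (starRingEnd ℂ) (g z)
  g0 : g 0 = 1
  eq : ∀ z, h z = aeval z T * g z

theorem aeval_eq (z : ℂ) (Q : ℝ[X]) : aeval z Q = (Q.map (algebraMap ℝ ℂ)).eval z := by
  rw [eval_map_algebraMap]

theorem mem_croots {Q : ℝ[X]} (hQ : Q ≠ 0) (ζ : ℂ) : ζ ∈ croots Q ↔ aeval ζ Q = 0 := by
  unfold croots
  rw [mem_roots ((Polynomial.map_ne_zero_iff (algebraMap ℝ ℂ).injective).2 hQ), IsRoot.def, aeval_eq]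

theorem aeval_conj (z : ℂ) (Q : ℝ[X]) :
    aeval ((starRingEnd ℂ) z) Q = (starRingEnd ℂ) (aeval z Q) := by
  exact Polynomial.aeval_conj Q z

theorem conj_of_factor (q : ℝ[X]) (hq : q ≠ 0) (g g' : ℂ → ℂ) (hg : Differentiable ℂ g)
    (hg' : Differentiable ℂ g') (hc : ∀ z, g ((starRingEnd ℂ) z) = (starRingEnd ℂ) (g z))
    (he : ∀ z, g z = aeval z q * g' z) :
    ∀ z, g' ((starRingEnd ℂ) z) = (starRingEnd ℂ) (g' z) := by
  have hfin : {z : ℂ | aeval z q = 0}.Finite := by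
    apply (croots q).toFinset.finite_toSet.subset
    intro z hz
    rw [Finset.mem_coe, Multiset.mem_toFinset, mem_croots hq]
    exact hz
  have hdense : Dense ({z : ℂ | aeval z q = 0}ᶜ) := hfin.countable.dense_compl ℂ
  have h1 : Continuous fun z => g' ((starRingEnd ℂ) z) := hg'.continuous.comp Complex.continuous_conj
  have h2 : Continuous fun z => (starRingEnd ℂ) (g' z) := Complex.continuous_conj.comp hg'.continuous
  have h3 := h1.ext_on hdense h2 (by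
    intro z hz
    have hz' : aeval z q ≠ 0 := hz
    have e1 := he ((starRingEnd ℂ) z)
    rw [hc, he z, map_mul, aeval_conj] at e1
    exact (mul_left_cancel₀ ((map_ne_zero (starRingEnd ℂ)).2 hz') e1).symm)
  intro z
  exact congrFun h3 z

theorem PExt.step {h : ℂ → ℂ} {R : ℝ} {T : ℝ[X]} {g : ℂ → ℂ} (hP : PExt h R T g) (q : ℝ[X])
    (hq0 : q.coeff 0 = 1) (hqr : ∀ ζ ∈ croots q, ‖ζ‖ ≤ R) (hqd : 0 < q.natDegree) (g' : ℂ → ℂ)
    (hg' : Differentiable ℂ g') (he : ∀ z, g z = aeval z q * g' z) :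
    PExt h R (T * q) g' ∧ T.natDegree < (T * q).natDegree := by
  have hT : T ≠ 0 := by
    intro h0; have := hP.c0; rw [h0, coeff_zero] at this; exact zero_ne_one this
  have hq : q ≠ 0 := by
    intro h0; rw [h0, coeff_zero] at hq0; exact zero_ne_one hq0
  refine ⟨⟨?_, ?_, hg', ?_, ?_, ?_⟩, ?_⟩
  · rw [mul_coeff_zero, hP.c0, hq0, one_mul]
  · intro ζ hζ
    rw [mem_croots (mul_ne_zero hT hq), map_mul, mul_eq_zero] at hζ
    rcases hζ with h1 | h1
    · exact hP.rt ζ ((mem_croots hT ζ).2 h1)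
    · exact hqr ζ ((mem_croots hq ζ).2 h1)
  · exact conj_of_factor q hq g g' hP.df hg' hP.cj he
  · have h1 := he 0
    rw [hP.g0] at h1
    have h2 : aeval (0 : ℂ) q = 1 := by
      rw [aeval_eq, ← coeff_zero_eq_eval_zero, coeff_map, hq0, map_one]
    rw [h2, one_mul] at h1
    exact h1.symm
  · intro z
    rw [hP.eq z, he z, map_mul, mul_assoc]
  · rw [natDegree_mul hT hq]; omega

/-- dividing out a zero -/
theorem divide_zero (g : ℂ → ℂ) (hg : Differentiable ℂ g) (ζ : ℂ) (hζ : ζ ≠ 0) (h0 : g ζ = 0) :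
    ∃ g1 : ℂ → ℂ, Differentiable ℂ g1 ∧ ∀ z, g z = (1 - z / ζ) * g1 z := by
  refine ⟨fun z => -ζ * dslope g ζ z, ?_, ?_⟩
  · have h1 : DifferentiableOn ℂ (dslope g ζ) Set.univ :=
      (Complex.differentiableOn_dslope Filter.univ_mem).2 hg.differentiableOn
    exact (differentiableOn_univ.1 h1).const_mul _
  · intro z
    have h1 := sub_smul_dslope g ζ z
    rw [h0, sub_zero, smul_eq_mul] at h1
    rw [← h1]
    field_simp
    ring

theorem PExt.zero_step {h : ℂ → ℂ} {R : ℝ} {T : ℝ[X]} {g : ℂ → ℂ} (hP : PExt h R T g) (ζ : ℂ)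
    (hζR : ‖ζ‖ ≤ R) (hgζ : g ζ = 0) :
    ∃ T' g', PExt h R T' g' ∧ T.natDegree < T'.natDegree := by
  have hζ : ζ ≠ 0 := by
    rintro rfl
    rw [hP.g0] at hgζ; exact one_ne_zero hgζ
  obtain ⟨g1, hg1, he1⟩ := divide_zero g hP.df ζ hζ hgζ
  by_cases hreal : (starRingEnd ℂ) ζ = ζ
  · obtain ⟨x, rfl⟩ := Complex.conj_eq_iff_real.1 hreal
    have hx : x ≠ 0 := by rintro rfl; exact hζ Complex.ofReal_zero
    have hq : ∀ z : ℂ, aeval z (1 - C x⁻¹ * X : ℝ[X]) = 1 - z / (x : ℂ) := by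
      intro z
      simp only [map_sub, map_one, map_mul, aeval_C, aeval_X]
      show 1 - ((x⁻¹ : ℝ) : ℂ) * z = _
      push_cast
      field_simp
    have hq0 : (1 - C x⁻¹ * X : ℝ[X]).coeff 0 = 1 := by simp
    have hqn : (1 - C x⁻¹ * X : ℝ[X]) ≠ 0 := by
      intro h0; rw [h0, coeff_zero] at hq0; exact zero_ne_one hq0
    refine ⟨_, g1, hP.step (1 - C x⁻¹ * X) hq0 ?_ ?_ g1 hg1 ?_⟩
    · intro z hz
      rw [mem_croots hqn, hq] at hz
      have : z = (x : ℂ) := by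
        field_simp at hz
        linear_combination -hz
      rw [this]; exact hζR
    · have h1 : (1 - C x⁻¹ * X : ℝ[X]).coeff 1 ≠ 0 := by
        simp [coeff_one, hx]
      exact lt_of_lt_of_le one_pos (le_natDegree_of_ne_zero h1)
    · intro z; rw [hq]; exact he1 z
  · obtain ⟨ζ', hζ'⟩ : ∃ ζ', ζ' = (starRingEnd ℂ) ζ := ⟨_, rfl⟩
    rw [← hζ'] at hreal
    have hζ'0 : ζ' ≠ 0 := by
      rw [hζ']; exact (_root_.map_ne_zero _).2 hζ
    have hg1ζ' : g1 ζ' = 0 := by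
      have h1 := he1 ζ'
      have h2 : g ζ' = 0 := by rw [hζ', hP.cj, hgζ, map_zero]
      rw [h2] at h1
      rcases mul_eq_zero.1 h1.symm with h3 | h3
      · exfalso
        apply hreal
        field_simp at h3
        linear_combination -h3
      · exact h3
    obtain ⟨g2, hg2, he2⟩ := divide_zero g1 hg1 ζ' hζ'0 hg1ζ'
    obtain ⟨a, ha⟩ : ∃ a : ℝ, (a : ℂ) = ζ⁻¹ + ζ'⁻¹ := by
      refine ⟨2 * (ζ⁻¹).re, ?_⟩
      have : ζ'⁻¹ = (starRingEnd ℂ) (ζ⁻¹) := by rw [hζ', map_inv₀]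
      rw [this, Complex.add_conj]
    obtain ⟨b, hb⟩ : ∃ b : ℝ, (b : ℂ) = ζ⁻¹ * ζ'⁻¹ := by
      refine ⟨Complex.normSq (ζ⁻¹), ?_⟩
      have : ζ'⁻¹ = (starRingEnd ℂ) (ζ⁻¹) := by rw [hζ', map_inv₀]
      rw [this, Complex.mul_conj]
    have hb0 : b ≠ 0 := by
      rintro rfl
      rw [Complex.ofReal_zero] at hb
      exact mul_ne_zero (inv_ne_zero hζ) (inv_ne_zero hζ'0) hb.symm
    have hq : ∀ z : ℂ, aeval z (1 - C a * X + C b * X ^ 2 : ℝ[X]) = (1 - z / ζ) * (1 - z / ζ') := by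
      intro z
      simp only [map_sub, map_add, map_one, map_mul, map_pow, aeval_C, aeval_X]
      show 1 - ((a : ℝ) : ℂ) * z + ((b : ℝ) : ℂ) * z ^ 2 = _
      rw [ha, hb]
      ring
    have hq0 : (1 - C a * X + C b * X ^ 2 : ℝ[X]).coeff 0 = 1 := by simp
    have hqn : (1 - C a * X + C b * X ^ 2 : ℝ[X]) ≠ 0 := by
      intro h0; rw [h0, coeff_zero] at hq0; exact zero_ne_one hq0
    refine ⟨_, g2, hP.step (1 - C a * X + C b * X ^ 2) hq0 ?_ ?_ g2 hg2 ?_⟩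
    · intro z hz
      rw [mem_croots hqn, hq] at hz
      have hnn : ‖ζ'‖ = ‖ζ‖ := by rw [hζ']; exact Complex.norm_conj ζ
      rcases mul_eq_zero.1 hz with h1 | h1
      · have : z = ζ := by
          field_simp at h1
          linear_combination -h1
        rw [this]; exact hζR
      · have : z = ζ' := by
          field_simp at h1
          linear_combination -h1
        rw [this, hnn]; exact hζR
    · have h1 : (1 - C a * X + C b * X ^ 2 : ℝ[X]).coeff 2 ≠ 0 := by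
        simp [coeff_one, hb0]
      exact lt_of_lt_of_le two_pos (le_natDegree_of_ne_zero h1)
    · intro z
      rw [hq, he1 z, he2 z]; ring

theorem prod_bound (S : Multiset ℂ) (R : ℝ) (z : ℂ) (hS : ∀ ζ ∈ S, ‖ζ‖ ≤ R) (hz : ‖z‖ = 3 * R) :
    (2 : ℝ) ^ S.card * (S.map fun ζ => ‖ζ‖).prod ≤ (S.map fun ζ => ‖z - ζ‖).prod := by
  induction S using Multiset.induction_on with
  | empty => simp
  | cons a S ih =>
    have h1 := ih fun ζ hζ => hS ζ (Multiset.mem_cons_of_mem hζ)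
    have h2 := hS a (Multiset.mem_cons_self a S)
    rw [Multiset.card_cons, Multiset.map_cons, Multiset.map_cons, Multiset.prod_cons, Multiset.prod_cons,
      pow_succ]
    have h3 : 2 * ‖a‖ ≤ ‖z - a‖ := by
      have := norm_sub_norm_le z a
      linarith
    have h4 : 0 ≤ (S.map fun ζ => ‖ζ‖).prod := by
      apply Multiset.prod_nonneg
      intro x hx
      obtain ⟨y, _, rfl⟩ := Multiset.mem_map.1 hx
      exact norm_nonneg y
    calc (2 : ℝ) ^ S.card * 2 * (‖a‖ * (S.map fun ζ => ‖ζ‖).prod)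
        = (2 * ‖a‖) * ((2 : ℝ) ^ S.card * (S.map fun ζ => ‖ζ‖).prod) := by ring
      _ ≤ ‖z - a‖ * (S.map fun ζ => ‖z - ζ‖).prod := by
          apply mul_le_mul h3 h1 (by positivity) (norm_nonneg _)

theorem norm_eval_eq (P : ℂ[X]) (z : ℂ) :
    ‖P.eval z‖ = ‖P.leadingCoeff‖ * (P.roots.map fun ζ => ‖z - ζ‖).prod := by
  rw [(IsAlgClosed.splits P).eval_eq_prod_roots z, norm_mul]
  congr 1
  rw [← coe_nnnorm]
  have : ∀ S : Multiset ℂ, ((‖(S.map fun ζ => z - ζ).prod‖₊ : NNReal) : ℝ) = (S.map fun ζ => ‖z - ζ‖).prod := by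
    intro S
    induction S using Multiset.induction_on with
    | empty => simp
    | cons a S ih =>
      rw [Multiset.map_cons, Multiset.prod_cons, Multiset.map_cons, Multiset.prod_cons, nnnorm_mul,
        NNReal.coe_mul, ih, coe_nnnorm]
  exact this _

/-- the bound of the degree -/
theorem PExt.bound {h : ℂ → ℂ} {R : ℝ} (hR : 0 < R) {T : ℝ[X]} {g : ℂ → ℂ} (hP : PExt h R T g) (B : ℝ)
    (hB : ∀ z : ℂ, ‖z‖ = 3 * R → ‖h z‖ ≤ B) : (2 : ℝ) ^ T.natDegree ≤ B := by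
  have hcard : (croots T).card = T.natDegree := by
    unfold croots
    rw [← (IsAlgClosed.splits (T.map (algebraMap ℝ ℂ))).natDegree_eq_card_roots, natDegree_map]
  have hTz : ∀ z : ℂ, ‖z‖ = 3 * R → (2 : ℝ) ^ T.natDegree ≤ ‖aeval z T‖ := by
    intro z hz
    have h1 := prod_bound (croots T) R z hP.rt hz
    have h2 := norm_eval_eq (T.map (algebraMap ℝ ℂ)) z
    have h3 := norm_eval_eq (T.map (algebraMap ℝ ℂ)) 0
    have h4 : (T.map (algebraMap ℝ ℂ)).eval 0 = 1 := by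
      rw [← coeff_zero_eq_eval_zero, coeff_map, hP.c0, map_one]
    rw [h4, norm_one] at h3
    simp only [zero_sub, norm_neg] at h3
    rw [aeval_eq, h2, ← hcard]
    have h5 : (2 : ℝ) ^ (croots T).card = ‖(T.map (algebraMap ℝ ℂ)).leadingCoeff‖ *
        ((2 : ℝ) ^ (croots T).card * ((croots T).map fun ζ => ‖ζ‖).prod) := by
      have : ‖(T.map (algebraMap ℝ ℂ)).leadingCoeff‖ *
        ((2 : ℝ) ^ (croots T).card * ((croots T).map fun ζ => ‖ζ‖).prod)
        = (2 : ℝ) ^ (croots T).card * (‖(T.map (algebraMap ℝ ℂ)).leadingCoeff‖ *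
          ((croots T).map fun ζ => ‖ζ‖).prod) := by ring
      rw [this]
      unfold croots
      rw [← h3, mul_one]
    rw [h5]
    exact mul_le_mul_of_nonneg_left h1 (norm_nonneg _)
  have hgz : ∀ z : ℂ, ‖z‖ = 3 * R → ‖g z‖ ≤ B / (2 : ℝ) ^ T.natDegree := by
    intro z hz
    have h1 := hB z hz
    rw [hP.eq z, norm_mul] at h1
    rw [le_div_iff₀ (by positivity), mul_comm]
    exact (mul_le_mul_of_nonneg_right (hTz z hz) (norm_nonneg _)).trans h1
  have h3R : (3 * R) ≠ 0 := by positivity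
  have h1 : ‖g 0‖ ≤ B / (2 : ℝ) ^ T.natDegree := by
    apply Complex.norm_le_of_forall_mem_frontier_norm_le (U := Metric.ball (0 : ℂ) (3 * R))
      Metric.isBounded_ball hP.df.diffContOnCl
    · intro z hz
      rw [frontier_ball (0 : ℂ) h3R, mem_sphere_zero_iff_norm] at hz
      exact hgz z hz
    · exact subset_closure (Metric.mem_ball_self (by positivity))
  rw [hP.g0, norm_one, le_div_iff₀ (by positivity), one_mul] at h1
  exact h1

/-- extraction of all zeros in a disc from a real entire function -/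
theorem extract_zeros (h : ℂ → ℂ) (hh : Differentiable ℂ h)
    (hconj : ∀ z, h ((starRingEnd ℂ) z) = (starRingEnd ℂ) (h z)) (h0 : h 0 = 1) (R : ℝ) (hR : 0 < R) :
    ∃ (T : ℝ[X]) (g : ℂ → ℂ), T.coeff 0 = 1 ∧ (∀ ζ ∈ croots T, ‖ζ‖ ≤ R) ∧ Differentiable ℂ g ∧
      (∀ z, g ((starRingEnd ℂ) z) = (starRingEnd ℂ) (g z)) ∧ g 0 = 1 ∧ (∀ z, h z = aeval z T * g z) ∧
      ∀ z : ℂ, ‖z‖ ≤ R → g z ≠ 0 := by
  obtain ⟨B, hB⟩ : ∃ B : ℝ, ∀ z : ℂ, ‖z‖ = 3 * R → ‖h z‖ ≤ B := by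
    obtain ⟨B, hB⟩ := (isCompact_sphere (0 : ℂ) (3 * R)).exists_bound_of_continuousOn
      hh.continuous.continuousOn
    exact ⟨B, fun z hz => hB z (by rw [mem_sphere_zero_iff_norm]; exact hz)⟩
  let S : Set ℕ := {k | ∃ T g, PExt h R T g ∧ T.natDegree = k}
  have hne : S.Nonempty := by
    refine ⟨0, 1, h, ⟨by simp, ?_, hh, hconj, h0, fun z => by simp⟩, natDegree_one⟩
    intro ζ hζ
    unfold croots at hζ
    simp at hζ
  have hbdd : BddAbove S := by
    refine ⟨⌈B⌉₊, ?_⟩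
    rintro k ⟨T, g, hP, rfl⟩
    have h1 := hP.bound hR B hB
    have h2 : (T.natDegree : ℝ) < 2 ^ T.natDegree := by exact_mod_cast Nat.lt_two_pow_self
    have h3 : (T.natDegree : ℝ) ≤ ⌈B⌉₊ := (h2.le.trans h1).trans (Nat.le_ceil B)
    exact_mod_cast h3
  obtain ⟨T, g, hP, hk⟩ := Nat.sSup_mem hne hbdd
  refine ⟨T, g, hP.c0, hP.rt, hP.df, hP.cj, hP.g0, hP.eq, ?_⟩
  intro z hz hgz
  obtain ⟨T', g', hP', hlt⟩ := hP.zero_step z hz hgz
  have h1 : T'.natDegree ≤ sSup S := le_csSup hbdd ⟨T', g', hP', rfl⟩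
  omega




/-- a multiset of points outside a disc of radius `R₀` with counting function `≤ C r^σ`, `σ<1`, has small mass -/
theorem mass_small (σ C : ℝ) (hσ0 : 0 ≤ σ) (hσ : σ < 1) (hC : 0 ≤ C) (ε : ℝ) (hε : 0 < ε) :
    ∃ R₁ : ℝ, 1 ≤ R₁ ∧ ∀ R₀ : ℝ, R₁ ≤ R₀ → ∀ S : Multiset ℂ, (∀ ζ ∈ S, R₀ < ‖ζ‖) →
      (∀ r : ℝ, R₀ ≤ r → (Multiset.card (S.filter (fun ζ => ‖ζ‖ ≤ r)) : ℝ) ≤ C * r ^ σ) →
      (S.map (fun ζ => ‖ζ‖⁻¹)).sum ≤ ε := by
  -- the ratio
  set q : ℝ := (2 : ℝ) ^ (σ - 1) with hq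
  have hq0 : 0 < q := Real.rpow_pos_of_pos (by norm_num) _
  have hq1 : q < 1 := Real.rpow_lt_one_of_one_lt_of_neg (by norm_num) (by linarith)
  -- choose R₁
  have hlim : Filter.Tendsto (fun R : ℝ => (C * 2 ^ σ * (1 - q)⁻¹) * R ^ (-(1 - σ))) Filter.atTop (nhds 0) := by
    have h := (tendsto_rpow_neg_atTop (y := 1 - σ) (by linarith)).const_mul (C * 2 ^ σ * (1 - q)⁻¹)
    simpa using h
  have hev : ∀ᶠ R : ℝ in Filter.atTop, (C * 2 ^ σ * (1 - q)⁻¹) * R ^ (-(1 - σ)) < ε :=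
    hlim.eventually (gt_mem_nhds hε)
  obtain ⟨R₂, hR₂⟩ := Filter.eventually_atTop.1 hev
  refine ⟨max 1 R₂, le_max_left _ _, ?_⟩
  intro R₀ hR₀ S hS hcount
  have hR1 : 1 ≤ R₀ := le_trans (le_max_left _ _) hR₀
  have hRpos : 0 < R₀ := by linarith
  have hsmall := hR₂ R₀ (le_trans (le_max_right _ _) hR₀)
  -- an upper bound J
  have hJ : ∃ J : ℕ, ∀ ζ ∈ S, ‖ζ‖ ≤ 2 ^ (J + 1) * R₀ := by
    clear hcount hS
    induction S using Multiset.induction with
    | empty => exact ⟨0, by simp⟩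
    | cons a S ih =>
      obtain ⟨J, hJ⟩ := ih
      obtain ⟨n, hn⟩ := pow_unbounded_of_one_lt (‖a‖) (one_lt_two : (1:ℝ) < 2)
      refine ⟨J + n, ?_⟩
      intro ζ hζ
      rcases Multiset.mem_cons.1 hζ with h | h
      · subst h
        have h1 : (2:ℝ) ^ n ≤ 2 ^ (J + n + 1) := pow_le_pow_right₀ (by norm_num) (by omega)
        nlinarith [norm_nonneg ζ, pow_pos (zero_lt_two : (0:ℝ) < 2) (J + n + 1)]
      · have h1 : (2:ℝ) ^ (J + 1) ≤ 2 ^ (J + n + 1) := pow_le_pow_right₀ (by norm_num) (by omega)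
        exact le_trans (hJ ζ h) (mul_le_mul_of_nonneg_right h1 hRpos.le)
  obtain ⟨J, hJ⟩ := hJ
  -- pointwise bound
  have hpt : ∀ ζ ∈ S, ‖ζ‖⁻¹ ≤ ∑ j ∈ Finset.range (J + 1),
      (if ‖ζ‖ ≤ 2 ^ (j + 1) * R₀ then (2 ^ j * R₀)⁻¹ else 0) := by
    intro ζ hζ
    have hex : ∃ j : ℕ, ‖ζ‖ ≤ 2 ^ (j + 1) * R₀ := ⟨J, hJ ζ hζ⟩
    classical
    set j := Nat.find hex with hj
    have hjs : ‖ζ‖ ≤ 2 ^ (j + 1) * R₀ := Nat.find_spec hex
    have hjJ : j ≤ J := Nat.find_min' hex (hJ ζ hζ)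
    have hlow : 2 ^ j * R₀ ≤ ‖ζ‖ := by
      rcases Nat.eq_zero_or_pos j with h0 | hp
      · rw [h0]; simpa using (hS ζ hζ).le
      · have := Nat.find_min hex (m := j - 1) (by omega)
        have e : j - 1 + 1 = j := by omega
        rw [e] at this
        push Not at this
        exact this.le
    have hterm : ‖ζ‖⁻¹ ≤ (if ‖ζ‖ ≤ 2 ^ (j + 1) * R₀ then (2 ^ j * R₀)⁻¹ else 0) := by
      rw [if_pos hjs]
      exact inv_anti₀ (by positivity) hlow
    refine le_trans hterm ?_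
    refine Finset.single_le_sum (f := fun j => (if ‖ζ‖ ≤ 2 ^ (j + 1) * R₀ then ((2:ℝ) ^ j * R₀)⁻¹ else 0))
      ?_ (Finset.mem_range.2 (by omega))
    intro i _
    split_ifs
    · positivity
    · exact le_rfl
  have hsum1 : (S.map (fun ζ => ‖ζ‖⁻¹)).sum ≤ (S.map (fun ζ => ∑ j ∈ Finset.range (J + 1),
      (if ‖ζ‖ ≤ 2 ^ (j + 1) * R₀ then ((2:ℝ) ^ j * R₀)⁻¹ else 0))).sum :=
    Multiset.sum_map_le_sum_map _ _ hpt
  have hswap : ∀ (T : Multiset ℂ), (T.map (fun ζ => ∑ j ∈ Finset.range (J + 1),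
      (if ‖ζ‖ ≤ 2 ^ (j + 1) * R₀ then ((2:ℝ) ^ j * R₀)⁻¹ else 0))).sum
      = ∑ j ∈ Finset.range (J + 1), (Multiset.card (T.filter (fun ζ => ‖ζ‖ ≤ 2 ^ (j + 1) * R₀)) : ℝ)
        * ((2:ℝ) ^ j * R₀)⁻¹ := by
    intro T
    induction T using Multiset.induction with
    | empty => simp
    | cons a T ih =>
      rw [Multiset.map_cons, Multiset.sum_cons, ih, ← Finset.sum_add_distrib]
      refine Finset.sum_congr rfl ?_
      intro j _
      by_cases h : ‖a‖ ≤ 2 ^ (j + 1) * R₀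
      · rw [if_pos h, Multiset.filter_cons_of_pos (p := fun ζ : ℂ => ‖ζ‖ ≤ 2 ^ (j + 1) * R₀) _ h, Multiset.card_cons]
        push_cast
        ring
      · rw [if_neg h, Multiset.filter_cons_of_neg (p := fun ζ : ℂ => ‖ζ‖ ≤ 2 ^ (j + 1) * R₀) _ h]
        ring
  rw [hswap S] at hsum1
  have hbound : ∑ j ∈ Finset.range (J + 1), (Multiset.card (S.filter (fun ζ => ‖ζ‖ ≤ 2 ^ (j + 1) * R₀)) : ℝ)
        * ((2:ℝ) ^ j * R₀)⁻¹ ≤ ∑ j ∈ Finset.range (J + 1), (C * 2 ^ σ * R₀ ^ (-(1 - σ))) * q ^ j := by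
    refine Finset.sum_le_sum ?_
    intro j _
    have hr : R₀ ≤ 2 ^ (j + 1) * R₀ := by
      have : (1:ℝ) ≤ 2 ^ (j + 1) := one_le_pow₀ (by norm_num)
      nlinarith
    have hc := hcount _ hr
    have hpos : (0:ℝ) ≤ ((2:ℝ) ^ j * R₀)⁻¹ := by positivity
    refine le_trans (mul_le_mul_of_nonneg_right hc hpos) (le_of_eq ?_)
    have e1 : ((2:ℝ) ^ (j + 1) * R₀) ^ σ = ((2:ℝ) ^ σ) ^ j * 2 ^ σ * R₀ ^ σ := by
      rw [Real.mul_rpow (by positivity) hRpos.le, pow_succ, Real.mul_rpow (by positivity) (by norm_num)]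
      congr 2
      rw [← Real.rpow_natCast, ← Real.rpow_natCast, ← Real.rpow_mul (by norm_num), ← Real.rpow_mul (by norm_num), mul_comm]
    have e2 : R₀ ^ (-(1 - σ)) = R₀ ^ σ * R₀⁻¹ := by
      rw [show -(1 - σ) = σ - 1 by ring, Real.rpow_sub_one hRpos.ne', div_eq_mul_inv]
    have e3 : q = 2 ^ σ * (2:ℝ)⁻¹ := by
      rw [hq, Real.rpow_sub_one (by norm_num), div_eq_mul_inv]
    rw [e1, e2, e3, mul_pow, mul_inv, inv_pow]
    ring
  have hgeom : ∑ j ∈ Finset.range (J + 1), q ^ j ≤ (1 - q)⁻¹ := by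
    have := (summable_geometric_of_lt_one hq0.le hq1).sum_le_tsum (Finset.range (J + 1))
      (fun i _ => pow_nonneg hq0.le i)
    rwa [tsum_geometric_of_lt_one hq0.le hq1] at this
  have hK : 0 ≤ C * 2 ^ σ * R₀ ^ (-(1 - σ)) := by positivity
  calc (S.map (fun ζ => ‖ζ‖⁻¹)).sum ≤ _ := hsum1
    _ ≤ _ := hbound
    _ = (C * 2 ^ σ * R₀ ^ (-(1 - σ))) * ∑ j ∈ Finset.range (J + 1), q ^ j := by
        rw [Finset.mul_sum]
    _ ≤ (C * 2 ^ σ * R₀ ^ (-(1 - σ))) * (1 - q)⁻¹ := mul_le_mul_of_nonneg_left hgeom hK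
    _ = (C * 2 ^ σ * (1 - q)⁻¹) * R₀ ^ (-(1 - σ)) := by ring
    _ ≤ ε := hsmall.le


end LacAngle

namespace LacAngle
open Complex Metric Set in
/-- a zero free function of small growth on a large disc is close to its value at the centre -/
theorem near_one (σ C ε : ℝ) (hσ0 : 0 ≤ σ) (hσ : σ < 1) (hC : 0 ≤ C) (hε : 0 < ε) :
    ∃ R₁ : ℝ, 2 ≤ R₁ ∧ ∀ R : ℝ, R₁ ≤ R → ∀ h : ℂ → ℂ, Differentiable ℂ h → h 0 = 1 →
      (∀ z : ℂ, ‖z‖ ≤ R → h z ≠ 0) → (∀ z : ℂ, ‖z‖ ≤ R → ‖h z‖ ≤ Real.exp (C * R ^ σ)) →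
      ∀ z : ℂ, ‖z‖ ≤ 1 → ‖1 - (h z)⁻¹‖ ≤ ε := by
  set δ := min ε 1 with hδ
  have hδ0 : 0 < δ := lt_min hε one_pos
  have hδε : δ ≤ ε := min_le_left _ _
  have hδ1 : δ ≤ 1 := min_le_right _ _
  set η := δ / (8 * (C + 1)) with hη
  have hη0 : 0 < η := by positivity
  have ht := tendsto_rpow_neg_atTop (show 0 < 1 - σ by linarith)
  have hev : ∀ᶠ R : ℝ in Filter.atTop, R ^ (-(1 - σ)) < η := ht.eventually_lt_const hη0
  obtain ⟨R₀, hR₀⟩ := Filter.eventually_atTop.1 hev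
  refine ⟨max R₀ 2, le_max_right _ _, ?_⟩
  intro R hR h hh h0 hne hle z hz
  have hR2 : 2 ≤ R := (le_max_right _ _).trans hR
  have hRpos : 0 < R := by linarith
  have hRη : R ^ (-(1 - σ)) ≤ η := (hR₀ R ((le_max_left _ _).trans hR)).le
  have hRinv : 1 / R ≤ R ^ (-(1 - σ)) := by
    rw [one_div, ← Real.rpow_neg_one]
    exact Real.rpow_le_rpow_of_exponent_le (by linarith) (by linarith)
  -- primitive
  have hd : DifferentiableOn ℂ (fun w => deriv h w / h w) (ball 0 R) := by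
    intro w hw
    have hw' : ‖w‖ ≤ R := by simpa using (mem_ball_zero_iff.1 hw).le
    have h1 : DifferentiableAt ℂ (deriv h) w := by
      have := (hh.analyticAt w).deriv
      exact this.differentiableAt
    exact (h1.div (hh w) (hne w hw')).differentiableWithinAt
  obtain ⟨g, hg0, hg⟩ := (DifferentiableOn.isExactOn_ball hd).with_val_at 0 0
  have hF : ∀ w ∈ ball (0:ℂ) R, HasDerivAt (fun w => h w * exp (-g w)) 0 w := by
    intro w hw
    have hw' : ‖w‖ ≤ R := by simpa using (mem_ball_zero_iff.1 hw).le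
    have h1 := (hh w).hasDerivAt.mul ((hg w hw).neg.cexp)
    have hnz := hne w hw'
    refine h1.congr_deriv ?_
    have h2 : h w * (deriv h w / h w) = deriv h w := by field_simp
    have h3 : deriv h w * exp (-g w) + h w * (exp (-g w) * -(deriv h w / h w))
        = exp (-g w) * (deriv h w - h w * (deriv h w / h w)) := by ring
    have h4 : deriv h w * exp (-g w) + h w * (exp (-g w) * -(deriv h w / h w)) = 0 := by
      rw [h3, h2, sub_self, mul_zero]
    exact h4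
  have hconst : ∀ w ∈ ball (0:ℂ) R, h w = exp (g w) := by
    intro w hw
    have h1 := IsOpen.is_const_of_deriv_eq_zero (f := fun w => h w * exp (-g w)) isOpen_ball
      (convex_ball (0:ℂ) R).isPreconnected
      (fun x hx => (hF x hx).differentiableAt.differentiableWithinAt)
      (fun x hx => (hF x hx).deriv) hw (mem_ball_self hRpos)
    simp only [h0, hg0, neg_zero, Complex.exp_zero, mul_one] at h1
    have h2 : exp (-g w) * exp (g w) = 1 := by
      rw [← Complex.exp_add]; simp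
    calc h w = h w * (exp (-g w) * exp (g w)) := by rw [h2, mul_one]
      _ = (h w * exp (-g w)) * exp (g w) := by ring
      _ = exp (g w) := by rw [h1, one_mul]
  set M := C * R ^ σ + 1 with hM
  have hRσ : 0 < R ^ σ := Real.rpow_pos_of_pos hRpos _
  have hM0 : 0 < M := by positivity
  have hre : Set.MapsTo g (ball 0 R) {z | z.re ≤ M} := by
    intro w hw
    have hw' : ‖w‖ ≤ R := by simpa using (mem_ball_zero_iff.1 hw).le
    have h1 := hle w hw'
    rw [hconst w hw, Complex.norm_exp, Real.exp_le_exp] at h1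
    show (g w).re ≤ M
    linarith
  have hzR : z ∈ ball (0:ℂ) R := by
    rw [mem_ball_zero_iff]; linarith
  have hgd : DifferentiableOn ℂ g (ball 0 R) := fun w hw =>
    (hg w hw).differentiableAt.differentiableWithinAt
  have hBC := Complex.borelCaratheodory_zero hM0 hgd hre hRpos hzR hg0
  have hgz : ‖g z‖ ≤ 2 * M / (R - 1) := by
    refine hBC.trans ?_
    have hz0 := norm_nonneg z
    rw [div_le_div_iff₀ (by linarith) (by linarith)]
    nlinarith [mul_nonneg hM0.le (mul_nonneg (sub_nonneg.2 hz) hRpos.le),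
      mul_nonneg hM0.le (sub_nonneg.2 hz)]
  have hMR : 2 * M / (R - 1) ≤ δ / 2 := by
    have h1 : R ^ σ = R * R ^ (-(1 - σ)) := by
      nth_rewrite 2 [← Real.rpow_one R]
      rw [← Real.rpow_add hRpos]
      congr 1; ring
    have h2 : M ≤ R * ((C + 1) * η) := by
      rw [hM, h1]
      have h3 : C * (R * R ^ (-(1 - σ))) ≤ C * (R * η) :=
        mul_le_mul_of_nonneg_left (mul_le_mul_of_nonneg_left hRη hRpos.le) hC
      have h4 : 1 ≤ R * η := by
        have := hRinv.trans hRη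
        rw [div_le_iff₀ hRpos] at this
        linarith
      linarith
    have h5 : (C + 1) * η = δ / 8 := by
      rw [hη]; field_simp
    rw [h5] at h2
    rw [div_le_iff₀ (by linarith)]
    nlinarith
  have hg1 : ‖g z‖ ≤ δ / 2 := hgz.trans hMR
  have hneg : ‖-g z‖ ≤ 1 := by rw [norm_neg]; linarith
  have hfin := Complex.norm_exp_sub_one_le hneg
  rw [norm_neg] at hfin
  rw [hconst z hzR, ← Complex.exp_neg, norm_sub_rev]
  linarith

end LacAngle
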