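import Mathlib
import Pool.Agent.C20521.Coef
import Pool.Agent.C20521.Ent
open Polynomial Filter Topology Set

namespace LacAngle

theorem conv_range (W E : ℝ[X]) (j : ℕ) :
    (W * E).coeff j = ∑ k ∈ Finset.range (j + 1), W.coeff k * E.coeff (j - k) := by
  rw [coeff_mul]
  exact Finset.Nat.sum_antidiagonal_eq_sum_range_succ (fun a b => W.coeff a * E.coeff b) j

theorem conv_close (W E : ℝ[X]) (a : ℕ → ℝ) (δ ss B : ℝ) (hδ0 : 0 ≤ δ) (hδ1 : δ ≤ 1) (hss : 0 ≤ ss)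
    (hW : ∀ i, |W.coeff i - a i| ≤ δ) (ha : ∀ i, 0 ≤ a i ∧ a i ≤ B) (hE0 : E.coeff 0 = 1)
    (hE1 : ∀ l, 1 ≤ l → 0 ≤ E.coeff l ∧ E.coeff l ≤ ss) (j : ℕ) :
    |(W * E).coeff j - a j| ≤ δ + j * ((B + 1) * ss) := by
  rw [conv_range, Finset.sum_range_succ, Nat.sub_self, hE0, mul_one]
  have h1 : |∑ k ∈ Finset.range j, W.coeff k * E.coeff (j - k)| ≤ j * ((B + 1) * ss) := by
    refine (Finset.abs_sum_le_sum_abs _ _).trans ?_
    refine (Finset.sum_le_card_nsmul _ _ ((B + 1) * ss) fun k hk => ?_).trans ?_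
    · have hk' := Finset.mem_range.mp hk
      obtain ⟨h2, h3⟩ := hE1 (j - k) (by omega)
      rw [abs_mul, abs_of_nonneg h2]
      have h4 : |W.coeff k| ≤ B + 1 := by
        have := abs_le.mp (hW k)
        rw [abs_le]
        constructor <;> linarith [(ha k).1, (ha k).2]
      exact mul_le_mul h4 h3 h2 (le_trans (abs_nonneg _) h4)
    · simp
  have h5 := hW j
  calc |∑ k ∈ Finset.range j, W.coeff k * E.coeff (j - k) + W.coeff j - a j|
      = |(W.coeff j - a j) + ∑ k ∈ Finset.range j, W.coeff k * E.coeff (j - k)| := by congr 1; ring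
    _ ≤ |W.coeff j - a j| + |∑ k ∈ Finset.range j, W.coeff k * E.coeff (j - k)| := abs_add_le _ _
    _ ≤ _ := by linarith

theorem conv_lower (W E : ℝ[X]) (a : ℕ → ℝ) (δ : ℝ) (hδ0 : 0 ≤ δ)
    (hW : ∀ i, |W.coeff i - a i| ≤ δ) (ha : ∀ i, 0 ≤ a i) (ha0 : a 0 = 1)
    (hE : ∀ l, 0 ≤ E.coeff l ∧ E.coeff l ≤ 1) (j : ℕ) :
    E.coeff j - δ * (j + 1) ≤ (W * E).coeff j := by
  rw [conv_range]
  have h1 : ∀ k ∈ Finset.range (j + 1), (a k * E.coeff (j - k)) - δ ≤ W.coeff k * E.coeff (j - k) := by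
    intro k _
    have h2 := (abs_le.mp (hW k)).1
    obtain ⟨h3, h4⟩ := hE (j - k)
    nlinarith
  have h5 := Finset.sum_le_sum h1
  rw [Finset.sum_sub_distrib, Finset.sum_const, Finset.card_range, nsmul_eq_mul] at h5
  have h6 : a 0 * E.coeff (j - 0) ≤ ∑ k ∈ Finset.range (j + 1), a k * E.coeff (j - k) :=
    Finset.single_le_sum (f := fun k => a k * E.coeff (j - k)) (fun k _ => mul_nonneg (ha k) (hE _).1)
      (Finset.mem_range.mpr (by omega))
  rw [ha0, one_mul, Nat.sub_zero] at h6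
  push_cast at h5
  linarith

theorem diff_of_hasSum (a : ℕ → ℝ) (F : ℂ → ℂ) (hF : ∀ z : ℂ, HasSum (fun j => (a j : ℂ) * z ^ j) (F z)) :
    Differentiable ℂ F := by
  intro z
  set R : ℝ := ‖z‖ + 1 with hR
  have hR0 : 0 ≤ R := by positivity
  have hFe : F = fun w => ∑' j, (a j : ℂ) * w ^ j := funext fun w => (hF w).tsum_eq.symm
  have hsum : Summable (fun j => |a j| * R ^ j) := by
    have := (hF (R : ℂ)).summable.norm
    refine this.congr fun j => ?_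
    rw [norm_mul, norm_pow, Complex.norm_real, Complex.norm_real, Real.norm_eq_abs, Real.norm_eq_abs,
      abs_of_nonneg hR0]
  have h1 : DifferentiableOn ℂ (fun w => ∑' j, (a j : ℂ) * w ^ j) (Metric.ball 0 R) := by
    refine Complex.differentiableOn_tsum_of_summable_norm hsum (fun j => ?_) Metric.isOpen_ball fun j w hw => ?_
    · exact (differentiable_const _).mul (differentiable_id.pow j) |>.differentiableOn
    · rw [norm_mul, norm_pow, Complex.norm_real, Real.norm_eq_abs]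
      have : ‖w‖ ≤ R := (mem_ball_zero_iff.mp hw).le
      exact mul_le_mul_of_nonneg_left (pow_le_pow_left₀ (norm_nonneg _) this _) (abs_nonneg _)
  rw [hFe]
  exact (h1 z (by rw [mem_ball_zero_iff]; linarith)).differentiableAt
    (Metric.isOpen_ball.mem_nhds (by rw [mem_ball_zero_iff]; linarith))

theorem ang_pos {n L : ℕ} (hn : 2 ≤ n) (hL : 2 ≤ L) : 0 < ang n L := by
  have hD := Dr_pos hn hL
  have hLr : (2 : ℝ) ≤ L := by exact_mod_cast hL
  unfold ang; have := Real.pi_pos; apply div_pos <;> nlinarith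

theorem ang_lt_pi {n L : ℕ} (hn : 2 ≤ n) (hL : 2 ≤ L) : ang n L < Real.pi := by
  have hD := Dr_pos hn hL
  have hLr : (2 : ℝ) ≤ L := by exact_mod_cast hL
  have hnr : (2 : ℝ) ≤ n := by exact_mod_cast hn
  unfold ang
  rw [div_lt_iff₀ (by linarith)]
  have : (L : ℝ) < (n : ℝ) * L - 1 := by nlinarith
  exact mul_lt_mul_of_pos_left this Real.pi_pos

theorem main_upper (a : ℕ → ℝ) (ha : ∀ j, 0 ≤ a j) (ha0 : a 0 = 1) (F : ℂ → ℂ)
    (hF : ∀ z : ℂ, HasSum (fun j => (a j : ℂ) * z ^ j) (F z))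
    (σ : ℝ) (hσ0 : 0 ≤ σ) (hσ1 : σ < 1) (r0 : ℝ)
    (hgrow : ∀ z : ℂ, r0 ≤ ‖z‖ → ‖F z‖ ≤ Real.exp (‖z‖ ^ σ))
    (n L : ℕ) (hn : 2 ≤ n) (hL : 2 ≤ L) (hray : ∀ ζ : ℂ, F ζ = 0 → |ζ.arg| ≠ ang n L)
    (hfin : {ζ : ℂ | F ζ = 0 ∧ |ζ.arg| < ang n L}.Finite)
    (hgaps : {m : ℕ | 0 < a m ∧ 0 < a (m + n) ∧ ∀ i, 0 < i → i < n → a (m + i) = 0}.Infinite) : False := by
  classical
  have hθ0 := ang_pos hn hL
  have hθπ := ang_lt_pi hn hL
  set θ := ang n L with hθ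
  have hD := Dr_pos hn hL
  have hFd := diff_of_hasSum a F hF
  have hF0 : F 0 = 1 := by
    have h1 := hF 0
    have h2 : HasSum (fun j => (a j : ℂ) * (0 : ℂ) ^ j) ((a 0 : ℂ) * (0 : ℂ) ^ 0) :=
      hasSum_single 0 fun j hj => by rw [zero_pow hj, mul_zero]
    rw [h1.unique h2, ha0]; simp
  have hFconj : ∀ z, F ((starRingEnd ℂ) z) = (starRingEnd ℂ) (F z) := by
    intro z
    have h1 := (hF z).map (starRingEnd ℂ) Complex.continuous_conj
    have h2 := hF ((starRingEnd ℂ) z)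
    refine h2.unique ?_
    convert h1 using 1
    funext j
    simp
  have hsa : Summable a := by
    have h1 := (hF 1).summable
    simp only [one_pow, mul_one] at h1
    exact_mod_cast h1
  obtain ⟨B, hB⟩ : ∃ B, B = ∑' j, a j := ⟨_, rfl⟩
  have haB : ∀ j, a j ≤ B := fun j => by rw [hB]; exact hsa.le_tsum j fun i _ => ha i
  have hB1 : 1 ≤ B := by rw [← ha0]; exact haB 0
  have hFb : ∀ z : ℂ, ‖z‖ ≤ 1 → ‖F z‖ ≤ B := by
    intro z hz
    rw [← (hF z).tsum_eq, hB]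
    refine (norm_tsum_le_tsum_norm (hF z).summable.norm).trans ?_
    refine (hF z).summable.norm.tsum_le_tsum (fun j => ?_) hsa
    rw [norm_mul, norm_pow, Complex.norm_real, Real.norm_eq_abs, abs_of_nonneg (ha j)]
    exact mul_le_of_le_one_right (ha j) (pow_le_one₀ (norm_nonneg _) hz)
  have hFpos : ∀ x : ℝ, 0 < x → F (x : ℂ) ≠ 0 := by
    intro x hx h0
    have h1 := hF (x : ℂ)
    rw [h0] at h1
    have h2 : HasSum (fun j => a j * x ^ j) 0 := by
      have h3 : HasSum (fun j => ((a j * x ^ j : ℝ) : ℂ)) ((0 : ℝ) : ℂ) := by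
        simpa using h1
      exact_mod_cast h3
    have h4 : a 0 * x ^ 0 ≤ 0 := by
      have := h2.summable.le_tsum 0 (fun j _ => mul_nonneg (ha j) (pow_nonneg hx.le j))
      rwa [h2.tsum_eq] at this
    rw [ha0] at h4
    norm_num at h4
  -- first extraction
  obtain ⟨Rs, hRs0, hRs⟩ : ∃ Rs : ℝ, 0 < Rs ∧ ∀ ζ : ℂ, F ζ = 0 → |ζ.arg| < θ → ‖ζ‖ ≤ Rs := by
    obtain ⟨Rs, hRs⟩ := hfin.isBounded.exists_norm_le
    exact ⟨max Rs 1, lt_max_of_lt_right one_pos, fun ζ h1 h2 => (hRs ζ ⟨h1, h2⟩).trans (le_max_left _ _)⟩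
  obtain ⟨P1, g1, hP10, hP1r, hg1d, hg1c, hg10, hFg1, hg1z⟩ := extract_zeros F hFd hFconj hF0 Rs hRs0
  have hz1 : ∀ ζ : ℂ, g1 ζ = 0 → θ < |ζ.arg| := by
    intro ζ hζ
    have hFζ : F ζ = 0 := by rw [hFg1, hζ, mul_zero]
    by_contra hc
    push Not at hc
    exact hg1z ζ (hRs ζ hFζ (lt_of_le_of_ne hc (hray ζ hFζ))) hζ
  -- the gaps
  set d : ℕ := n * L - 1 with hd
  have hd0 : 0 < d := by
    have := D_pos hn hL
    have h2 : (3 : ℤ) ≤ ((n * L : ℕ) : ℤ) - 1 := by push_cast; exact this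
    omega
  set Gm : Set ℕ := {m : ℕ | 0 < a m ∧ 0 < a (m + n) ∧ ∀ i, 0 < i → i < n → a (m + i) = 0} with hGm
  obtain ⟨m0, hm0⟩ : ∃ m0 : ℕ, {m : ℕ | m ∈ Gm ∧ m % d = m0}.Infinite := by
    by_contra hc
    push Not at hc
    apply hgaps
    refine ((Set.finite_lt_nat d).biUnion fun r _ => hc r).subset fun m hm => ?_
    rw [Set.mem_iUnion₂]
    exact ⟨m % d, Nat.mod_lt _ hd0, hm, rfl⟩
  have hTinf : {t : ℕ | m0 + t * d ∈ Gm}.Infinite := by
    intro hfinT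
    apply hm0
    refine (hfinT.image fun t => m0 + t * d).subset ?_
    rintro m ⟨hm, hmm⟩
    have h1 : m0 + m / d * d = m := by rw [← hmm, mul_comm]; exact Nat.mod_add_div m d
    refine ⟨m / d, ?_, h1⟩
    rw [Set.mem_ofPred_eq, h1]; exact hm
  obtain ⟨T, hTsub, hTcard⟩ := hTinf.exists_subset_card_eq (P1.natDegree + 1)
  have hTG : ∀ t ∈ T, m0 + t * d ∈ Gm := fun t ht => hTsub (Finset.mem_coe.mpr ht)
  have hTne : T.Nonempty := by rw [← Finset.card_pos, hTcard]; omega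
  -- constants
  set η : ℝ := Real.sin (Real.pi / (2 * ((n : ℝ) * L - 1))) with hη
  have hηpos : 0 < η := by
    apply Real.sin_pos_of_pos_of_lt_pi
    · have := Real.pi_pos; positivity
    · rw [div_lt_iff₀ (by linarith)]; nlinarith [Real.pi_pos]
  obtain ⟨μ, hμ0, hμ⟩ : ∃ μ : ℝ, 0 < μ ∧ ∀ t ∈ T, μ ≤ a (m0 + t * d) ∧ μ ≤ a (m0 + t * d + n) := by
    obtain ⟨t0, ht0, hmin⟩ := T.exists_min_image (fun t => min (a (m0 + t * d)) (a (m0 + t * d + n))) hTne
    refine ⟨min (a (m0 + t0 * d)) (a (m0 + t0 * d + n)), lt_min (hTG t0 ht0).1 (hTG t0 ht0).2.1, fun t ht => ?_⟩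
    exact ⟨(hmin t ht).trans (min_le_left _ _), (hmin t ht).trans (min_le_right _ _)⟩
  have hnr : (2 : ℝ) ≤ n := by exact_mod_cast hn
  set ε1 : ℝ := η * μ / (2 * ((2 : ℝ) ^ (n - 1) * n + η)) with hε1
  have hden : 0 < (2 : ℝ) ^ (n - 1) * n + η := by positivity
  have hε10 : 0 < ε1 := by positivity
  have hε1' : (2 : ℝ) ^ (n - 1) * (n * ε1) < η * (μ - ε1) := by
    have h1 : ((2 : ℝ) ^ (n - 1) * n + η) * ε1 = η * μ / 2 := by
      rw [hε1]; field_simp
    have h2 : 0 < η * μ := by positivity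
    nlinarith
  obtain ⟨J1, hJ1⟩ : ∃ J1 : ℕ, ∀ t ∈ T, m0 + t * d + n ≤ J1 :=
    ⟨T.sup (fun t => m0 + t * d + n), fun t ht => Finset.le_sup (f := fun t => m0 + t * d + n) ht⟩
  obtain ⟨L', c, hc, hmul⟩ := multiplier θ hθ0 hθπ
  set ss : ℝ := min 1 (ε1 / (2 * ((J1 : ℝ) + 1) * (B + 1))) with hss
  have hss0 : 0 < ss := lt_min one_pos (by positivity)
  have hss1 : ss ≤ 1 := min_le_left _ _
  have hss2 : ss * (2 * ((J1 : ℝ) + 1) * (B + 1)) ≤ ε1 := by
    rw [← le_div_iff₀ (by positivity)]; exact min_le_right _ _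
  set s : ℝ := min (1 / (2 * c)) (ss / (2 * ((L' : ℝ) + 1))) with hs
  have hs0 : 0 < s := lt_min (by positivity) (by positivity)
  have hs1 : c * s ≤ 1 / 2 := by
    have : s ≤ 1 / (2 * c) := min_le_left _ _
    calc c * s ≤ c * (1 / (2 * c)) := mul_le_mul_of_nonneg_left this hc.le
      _ = 1 / 2 := by field_simp
  have hs2 : (L' : ℝ) * s ≤ ss / 2 := by
    have h1 : s ≤ ss / (2 * ((L' : ℝ) + 1)) := min_le_right _ _
    have h2 : s * (2 * ((L' : ℝ) + 1)) ≤ ss := by rwa [le_div_iff₀ (by positivity)] at h1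
    nlinarith
  have hlog2 : 0 < Real.log 2 := Real.log_pos (by norm_num)
  obtain ⟨R1, hR11, hmass⟩ := mass_small σ (3 / Real.log 2) hσ0 hσ1 (by positivity) s hs0
  -- second extraction
  set R0 : ℝ := max (max R1 Rs) r0 with hR0
  have hR0R1 : R1 ≤ R0 := (le_max_left _ _).trans (le_max_left _ _)
  have hR0Rs : Rs ≤ R0 := (le_max_right _ _).trans (le_max_left _ _)
  have hR0r0 : r0 ≤ R0 := le_max_right _ _
  have hR01 : 1 ≤ R0 := hR11.trans hR0R1
  obtain ⟨T0, g0, hT00, hT0r, hg0d, hg0c, hg00, hg1g0, hg0z⟩ := extract_zeros g1 hg1d hg1c hg10 R0 (by linarith)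
  have hz0 : ∀ ζ : ℂ, g0 ζ = 0 → θ < |ζ.arg| := fun ζ hζ => hz1 ζ (by rw [hg1g0, hζ, mul_zero])
  have hP0 : (P1 * T0).coeff 0 = 1 := by rw [mul_coeff_zero, hP10, hT00, one_mul]
  have hPpos : ∀ x : ℝ, 0 < x → (P1 * T0).eval x ≠ 0 := by
    intro x hx h0
    apply hFpos x hx
    have h1 : aeval (x : ℂ) (P1 * T0) = 0 := by
      have h2 : aeval ((algebraMap ℝ ℂ) x) (P1 * T0) = (algebraMap ℝ ℂ) (aeval x (P1 * T0)) :=
        Polynomial.aeval_algebraMap_apply ℂ x (P1 * T0)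
      rw [coe_aeval_eq_eval, h0, map_zero] at h2
      exact h2
    rw [hFg1, hg1g0, ← mul_assoc, ← map_mul, h1, zero_mul]
  obtain ⟨J0, hJ0⟩ := tail_nonneg (P1 * T0) hP0 hPpos
  set M : ℕ := J0 + 1 with hM
  have hM0 : (0 : ℝ) < M := by rw [hM]; positivity
  set l : ℝ := ss / (2 * M) with hl
  have hl0 : 0 < l := by positivity
  have hMl : (M : ℝ) * l = ss / 2 := by rw [hl]; field_simp
  have hl1 : l ≤ 1 := by
    have h1 : (1 : ℝ) ≤ M := by rw [hM]; push_cast; linarith [Nat.cast_nonneg (α := ℝ) J0]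
    nlinarith
  set δ : ℝ := min (ε1 / 2) (min 1 (l ^ M / ((J0 : ℝ) + 1))) with hδ
  have hδ0 : 0 < δ := lt_min (by positivity) (lt_min one_pos (by positivity))
  have hδ1 : δ ≤ 1 := (min_le_right _ _).trans (min_le_left _ _)
  have hδ2 : δ ≤ ε1 / 2 := min_le_left _ _
  have hδ3 : δ * ((J0 : ℝ) + 1) ≤ l ^ M := by
    rw [← le_div_iff₀ (by positivity)]; exact (min_le_right _ _).trans (min_le_right _ _)
  obtain ⟨R2, hR22, hnear⟩ := near_one σ 3 (δ / B) hσ0 hσ1 (by norm_num) (by positivity)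
  set R : ℝ := max R2 R0 with hR
  have hRR2 : R2 ≤ R := le_max_left _ _
  have hRR0 : R0 ≤ R := le_max_right _ _
  obtain ⟨Tt, g, hTt0, hTtr, hgd, hgc, hg0', hg0g, hgz⟩ := extract_zeros g0 hg0d hg0c hg00 R (by linarith)
  set W : ℝ[X] := P1 * T0 * Tt with hW
  have hW0 : W.coeff 0 = 1 := by rw [hW, mul_coeff_zero, hP0, hTt0, one_mul]
  have hFW : ∀ z, F z = aeval z W * g z := by
    intro z
    rw [hFg1, hg1g0, hg0g, hW, map_mul, map_mul]; ring
  have hWr : croots W = croots P1 + croots T0 + croots Tt := by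
    rw [hW, D_croots_mul hP0 hTt0, D_croots_mul hP10 hT00]
  have hWprod : ∀ z, F z = ((croots W).map (fun ζ => 1 - z / ζ)).prod * g z := by
    intro z
    rw [hFW, prod_form W (by rw [hW0]; exact one_ne_zero), hW0]
    simp
  have hWne : ∀ ζ ∈ croots W, ζ ≠ 0 := fun ζ hζ h =>
    zero_notMem_croots (by rw [hW0]; exact one_ne_zero : W.coeff 0 ≠ 0) (h ▸ hζ)
  have hWle : ∀ ζ ∈ croots W, ‖ζ‖ ≤ R := by
    intro ζ hζ
    rw [hWr, Multiset.mem_add, Multiset.mem_add] at hζ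
    rcases hζ with (h | h) | h
    · exact (hP1r ζ h).trans (hR0Rs.trans hRR0)
    · exact (hT0r ζ h).trans hRR0
    · exact hTtr ζ h
  have hpow3 : ∀ r : ℝ, 0 ≤ r → (3 * r) ^ σ ≤ 3 * r ^ σ := by
    intro r hr
    rw [Real.mul_rpow (by norm_num) hr]
    have : (3 : ℝ) ^ σ ≤ 3 := by
      calc (3 : ℝ) ^ σ ≤ (3 : ℝ) ^ (1 : ℝ) := Real.rpow_le_rpow_of_exponent_le (by norm_num) hσ1.le
        _ = 3 := Real.rpow_one 3
    exact mul_le_mul_of_nonneg_right this (Real.rpow_nonneg hr _)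
  have hcirc : ∀ r : ℝ, R0 ≤ r → ∀ z : ℂ, ‖z‖ = 3 * r → ‖F z‖ ≤ Real.exp (3 * r ^ σ) := by
    intro r hr z hz
    refine (hgrow z (by rw [hz]; linarith)).trans ?_
    rw [hz]
    exact Real.exp_le_exp.mpr (hpow3 r (by linarith))
  have hgb : ∀ z : ℂ, ‖z‖ ≤ R → ‖g z‖ ≤ Real.exp (3 * R ^ σ) :=
    cofactor_bound F g hgd (croots W) R (by linarith) (fun ζ hζ => ⟨hWne ζ hζ, hWle ζ hζ⟩) hWprod
      _ (hcirc R hRR0)
  have hg1' := hnear R hRR2 g hgd hg0' hgz hgb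
  have hWa : ∀ j, |W.coeff j - a j| ≤ δ := by
    intro j
    have := coeff_close a F g hF W hgd hFW B (δ / B) hFb
      (fun z hz => ⟨hgz z (by linarith), hg1' z hz⟩) j
    rwa [mul_div_cancel₀ _ (by linarith : B ≠ 0)] at this
  -- mass of the last factor
  have hTt1 : ∀ ζ ∈ croots Tt, g0 ζ = 0 := by
    intro ζ hζ
    rw [hg0g, (D_mem_croots hTt0).mp hζ, zero_mul]
  have hTtR0 : ∀ ζ ∈ croots Tt, R0 < ‖ζ‖ := by
    intro ζ hζ
    by_contra hcon
    push Not at hcon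
    exact hg0z ζ hcon (hTt1 ζ hζ)
  have hTtmass := hmass R0 hR0R1 (croots Tt) hTtR0 (by
    intro r hr
    have h1 := count_zeros F g hgd (croots W) hWne hF0 hWprod r (by linarith) _ (hcirc r hr)
    have h2 : Multiset.card ((croots Tt).filter (fun ζ => ‖ζ‖ ≤ r)) ≤
        Multiset.card ((croots W).filter (fun ζ => ‖ζ‖ ≤ r)) := by
      apply Multiset.card_le_card
      apply Multiset.filter_le_filter
      rw [hWr]
      exact Multiset.le_add_left _ _
    have h3 : (2 : ℝ) ^ (Multiset.card ((croots Tt).filter (fun ζ => ‖ζ‖ ≤ r))) ≤ Real.exp (3 * r ^ σ) :=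
      (pow_le_pow_right₀ (by norm_num) h2).trans h1
    have h4 := Real.log_le_log (by positivity) h3
    rw [Real.log_pow, Real.log_exp] at h4
    rw [div_mul_eq_mul_div, le_div_iff₀ hlog2]
    exact h4)
  obtain ⟨E, hE0, hEr, hE1, hE2⟩ := hmul Tt hTt0 (fun ζ hζ => (hz0 ζ (hTt1 ζ hζ)).le)
  set sT : ℝ := ((croots Tt).map (fun ζ => ‖ζ‖⁻¹)).sum with hsT
  have hLam0 : ((1 + C l * X : ℝ[X]) ^ M).coeff 0 = 1 := D_pow_coeff l M
  set E' : ℝ[X] := E * (1 + C l * X) ^ M with hE'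
  have hE'0 : E'.coeff 0 = 1 := by rw [hE', mul_coeff_zero, hE0, hLam0, one_mul]
  have hgE' : Good ss E' := by
    refine (hE1.mul (good_pow l hl0.le M)).mono ?_
    rw [hMl]
    have : (L' : ℝ) * sT ≤ L' * s := mul_le_mul_of_nonneg_left hTtmass (Nat.cast_nonneg _)
    linarith
  have hgTE : Good 1 (Tt * E') := by
    have h1 : Tt * E' = Tt * E * (1 + C l * X) ^ M := by rw [hE']; ring
    rw [h1]
    refine (hE2.mul (good_pow l hl0.le M)).mono ?_
    rw [hMl]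
    have : c * sT ≤ c * s := mul_le_mul_of_nonneg_left hTtmass hc.le
    linarith
  obtain ⟨hb1, hb2⟩ := hgE'.bound hE'0 hss0.le hss1
  set Q : ℝ[X] := W * E' with hQ
  have hQ0 : Q.coeff 0 = 1 := by rw [hQ, mul_coeff_zero, hW0, hE'0, one_mul]
  have hQnn : ∀ j, 0 ≤ Q.coeff j := by
    intro j
    by_cases hj : J0 ≤ j
    · have h1 : Q = P1 * T0 * (Tt * E') := by rw [hQ, hW]; ring
      rw [h1]
      exact hJ0 _ hgTE j hj
    · push Not at hj
      have h1 := conv_lower W E' a δ hδ0.le hWa ha ha0 (fun k => ⟨hgE'.1 k, hb1 k⟩) j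
      have h2 := coeff_lower E hE1.1 hE0 l hl0 hl1 M j (by omega)
      have h3 : δ * ((j : ℝ) + 1) ≤ δ * ((J0 : ℝ) + 1) := by
        apply mul_le_mul_of_nonneg_left _ hδ0.le
        have : (j : ℝ) ≤ J0 := by exact_mod_cast hj.le
        linarith
      have h4 : l ^ M ≤ E'.coeff j := h2
      linarith
  have hQa : ∀ j, j ≤ J1 → |Q.coeff j - a j| ≤ ε1 := by
    intro j hj
    have h1 := conv_close W E' a δ ss B hδ0.le hδ1 hss0.le hWa (fun i => ⟨ha i, haB i⟩) hE'0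
      (fun k hk => ⟨hgE'.1 k, hb2 k hk⟩) j
    have h2 : (j : ℝ) * ((B + 1) * ss) ≤ ε1 / 2 := by
      have h3 : (j : ℝ) ≤ J1 + 1 := by
        have : (j : ℝ) ≤ J1 := by exact_mod_cast hj
        linarith
      have h4 : (j : ℝ) * ((B + 1) * ss) ≤ (J1 + 1) * ((B + 1) * ss) :=
        mul_le_mul_of_nonneg_right h3 (by positivity)
      nlinarith
    linarith
  -- roots of Q
  have hQr : croots Q = croots P1 + croots T0 + croots Tt + (croots E + croots ((1 + C l * X) ^ M)) := by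
    rw [hQ, D_croots_mul hW0 hE'0, hWr, hE', D_croots_mul hE0 hLam0]
  have hTt2 : ∀ ζ ∈ croots Tt, θ < |ζ.arg| := fun ζ hζ => hz0 ζ (hTt1 ζ hζ)
  have hT02 : ∀ ζ ∈ croots T0, θ < |ζ.arg| := fun ζ hζ =>
    hz1 ζ (by rw [hg1g0, (D_mem_croots hT00).mp hζ, zero_mul])
  have hE3 : ∀ ζ ∈ croots E, θ < |ζ.arg| := fun ζ hζ => by
    rw [hEr ζ hζ, abs_of_pos Real.pi_pos]; exact hθπ
  have hL3 : ∀ ζ ∈ croots ((1 + C l * X : ℝ[X]) ^ M), θ < |ζ.arg| := fun ζ hζ => by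
    rw [D_pow_arg hl0 M ζ hζ, abs_of_pos Real.pi_pos]; exact hθπ
  have hQray : ∀ ζ ∈ croots Q, |ζ.arg| ≠ ang n L := by
    intro ζ hζ
    rw [hQr] at hζ
    simp only [Multiset.mem_add] at hζ
    rcases hζ with ((h | h) | h) | (h | h)
    · exact hray ζ (by rw [hFg1, (D_mem_croots hP10).mp h, zero_mul])
    · exact (hT02 ζ h).ne'
    · exact (hTt2 ζ h).ne'
    · exact (hE3 ζ h).ne'
    · exact (hL3 ζ h).ne'
  have hsec : secCount (ang n L) Q ≤ P1.natDegree := by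
    have hzero : ∀ S : Multiset ℂ, (∀ ζ ∈ S, θ < |ζ.arg|) → S.filter (fun ζ => |ζ.arg| < ang n L) = 0 := by
      intro S hS
      rw [Multiset.filter_eq_nil]
      intro ζ hζ h
      exact lt_asymm h (hS ζ hζ)
    unfold secCount
    rw [hQr, Multiset.filter_add, Multiset.filter_add, Multiset.filter_add, Multiset.filter_add,
      hzero _ hT02, hzero _ hTt2, hzero _ hE3, hzero _ hL3]
    simp only [add_zero]
    rw [← card_croots P1]
    exact Multiset.card_le_card (Multiset.filter_le _ _)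
  have hkey := key_count hn hL m0 Q (by rw [hQ0]; exact one_pos) hQnn hQray T (by
    intro t ht
    obtain ⟨hg1, hg2, hg3⟩ := hTG t ht
    have hJ := hJ1 t ht
    have hsum : ∑ j ∈ Finset.Ioo (m0 + t * (n * L - 1)) (m0 + t * (n * L - 1) + n), Q.coeff j ≤ n * ε1 := by
      have h1 : ∀ j ∈ Finset.Ioo (m0 + t * (n * L - 1)) (m0 + t * (n * L - 1) + n), Q.coeff j ≤ ε1 := by
        intro j hj
        rw [Finset.mem_Ioo] at hj
        have h2 := hg3 (j - (m0 + t * d)) (by simp only [hd]; omega) (by simp only [hd]; omega)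
        have h3 : m0 + t * d + (j - (m0 + t * d)) = j := by simp only [hd]; omega
        rw [h3] at h2
        have h4 := hQa j (by simp only [hd] at hJ; omega)
        rw [h2, sub_zero] at h4
        exact (le_abs_self _).trans h4
      refine (Finset.sum_le_card_nsmul _ _ _ h1).trans ?_
      rw [Nat.card_Ioo, nsmul_eq_mul]
      apply mul_le_mul_of_nonneg_right _ hε10.le
      exact_mod_cast (by omega : m0 + t * (n * L - 1) + n - (m0 + t * (n * L - 1)) - 1 ≤ n)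
    have h5 : (2 : ℝ) ^ (n - 1) * ∑ j ∈ Finset.Ioo (m0 + t * (n * L - 1)) (m0 + t * (n * L - 1) + n), Q.coeff j
        ≤ (2 : ℝ) ^ (n - 1) * (n * ε1) := mul_le_mul_of_nonneg_left hsum (by positivity)
    have h6 := (abs_le.mp (hQa (m0 + t * d) (by omega))).1
    have h7 := (abs_le.mp (hQa (m0 + t * d + n) hJ)).1
    obtain ⟨h8, h9⟩ := hμ t ht
    constructor
    · have h10 : η * (μ - ε1) ≤ η * Q.coeff (m0 + t * d) := mul_le_mul_of_nonneg_left (by linarith) hηpos.le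
      have h11 : m0 + t * (n * L - 1) = m0 + t * d := rfl
      rw [h11] at h5 ⊢
      linarith
    · have h10 : η * (μ - ε1) ≤ η * Q.coeff (m0 + t * d + n) := mul_le_mul_of_nonneg_left (by linarith) hηpos.le
      have h11 : m0 + t * (n * L - 1) = m0 + t * d := rfl
      rw [h11] at h5 ⊢
      linarith)
  rw [hTcard] at hkey
  omega

end LacAngle
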