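import Mathlib
open Filter Topology Set
noncomputable section
namespace LacAngle

/-- a power series `∑ a_k z^(e_k)` with positive coefficients, converging in the whole plane -/
structure Lac where
  e : ℕ → ℕ
  a : ℕ → ℝ
  e_mono : StrictMono e
  a_pos : ∀ k, 0 < a k
  entire : ∀ z : ℂ, Summable fun k => (a k : ℂ) * z ^ e k

namespace Lac
def f (F : Lac) (z : ℂ) : ℂ := ∑' k, (F.a k : ℂ) * z ^ F.e k
def zeros (F : Lac) : Set ℂ := {z | F.f z = 0}
/-- `A(f)`, the upper limit of the gap lengths -/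
def A (F : Lac) : ℕ∞ := limsup (fun k => ((F.e (k + 1) - F.e k : ℕ) : ℕ∞)) atTop
/-- `δ(f)`, the lower limit of the moduli of the arguments of the zeros -/
def δ (F : Lac) : ℝ := liminf (fun z : F.zeros => |Complex.arg (z : ℂ)|) cofinite
/-- maximum modulus -/
def M (F : Lac) (r : ℝ) : ℝ := sSup ((fun z : ℂ => ‖F.f z‖) '' Metric.sphere 0 r)
/-- order -/
def order (F : Lac) : EReal :=
  limsup (fun r : ℝ => ((Real.log (Real.log (F.M r)) / Real.log r : ℝ) : EReal)) atTop
end Lac

/-- the class `G_ρ(n)` -/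
def G (n : ℕ) (ρ : EReal) : Set Lac := {F | F.zeros.Infinite ∧ F.A = n ∧ F.order = ρ}


end LacAngle
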