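import Mathlib
import Pool.Agent.C20521.Def
import Pool.Agent.C20521.Core
open Filter Topology Set
noncomputable section
namespace LacAngle

/-! TARGET (three lemmas, the last one uses the others and `main_upper`) -/

/-- infinitely many gaps of length exactly `n` -/
theorem Lac.gaps_infinite (F : Lac) (n : ℕ) (hn : 2 ≤ n) (hA : F.A = n) :
    {k : ℕ | F.e (k + 1) = F.e k + n}.Infinite := by
  rw [← Nat.frequently_atTop_iff_infinite]
  unfold Lac.A at hA
  have h1 : (((n - 1 : ℕ) : ℕ∞)) < limsup (fun k => ((F.e (k + 1) - F.e k : ℕ) : ℕ∞)) atTop := by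
    rw [hA]
    exact_mod_cast (by omega : n - 1 < n)
  have h2 : limsup (fun k => ((F.e (k + 1) - F.e k : ℕ) : ℕ∞)) atTop < ((n + 1 : ℕ) : ℕ∞) := by
    rw [hA]
    exact_mod_cast (by omega : n < n + 1)
  have h3 := frequently_lt_of_lt_limsup (by isBoundedDefault) h1
  have h4 := eventually_lt_of_limsup_lt h2
  refine (h3.and_eventually h4).mono ?_
  intro k hk
  obtain ⟨hk1, hk2⟩ := hk
  have hk1' : n - 1 < F.e (k + 1) - F.e k := by exact_mod_cast hk1
  have hk2' : F.e (k + 1) - F.e k < n + 1 := by exact_mod_cast hk2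
  have hlt := F.e_mono (Nat.lt_succ_self k)
  show F.e (k + 1) = F.e k + n
  have : F.e k < F.e (k + 1) := hlt
  omega

theorem Lac.norm_f_le (F : Lac) (w : ℂ) (r : ℝ) (hw : ‖w‖ = r) :
    ‖F.f w‖ ≤ ∑' k, F.a k * r ^ F.e k := by
  have hs : Summable (fun k => ‖(F.a k : ℂ) * w ^ F.e k‖) := summable_norm_iff.2 (F.entire w)
  unfold Lac.f
  refine (norm_tsum_le_tsum_norm hs).trans (le_of_eq ?_)
  congr 1
  funext k
  rw [norm_mul, norm_pow, hw, Complex.norm_real, Real.norm_of_nonneg (F.a_pos k).le]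

theorem Lac.norm_f_le_M (F : Lac) (z : ℂ) : ‖F.f z‖ ≤ F.M ‖z‖ := by
  unfold Lac.M
  apply le_csSup
  · refine ⟨∑' k, F.a k * ‖z‖ ^ F.e k, ?_⟩
    rintro _ ⟨w, hw, rfl⟩
    exact F.norm_f_le w ‖z‖ (by simpa using hw)
  · exact ⟨z, by simp, rfl⟩

/-- growth bound from the order -/
theorem Lac.growth (F : Lac) (ρ : ℝ) (h1 : ρ < 1) (hρ : F.order = (ρ : EReal)) :
    ∃ σ : ℝ, 0 ≤ σ ∧ σ < 1 ∧ ∃ r0 : ℝ, 1 ≤ r0 ∧ ∀ z : ℂ, r0 ≤ ‖z‖ →
      ‖F.f z‖ ≤ F.a 0 * Real.exp (‖z‖ ^ σ) := by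
  set m := max ρ 0 with hm
  have hm1 : m < 1 := max_lt h1 zero_lt_one
  have hm0 : 0 ≤ m := le_max_right _ _
  have hmρ : ρ ≤ m := le_max_left _ _
  set s := m + (1 - m) / 3 with hs
  set σ := m + 2 * (1 - m) / 3 with hσ
  have hsρ : ρ < s := by rw [hs]; linarith
  have hs0 : 0 ≤ s := by rw [hs]; linarith
  have hsσ : 0 < σ - s := by rw [hs, hσ]; linarith
  have hlim : limsup (fun r : ℝ => ((Real.log (Real.log (F.M r)) / Real.log r : ℝ) : EReal)) atTop
      < ((s : ℝ) : EReal) := by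
    have : F.order < ((s : ℝ) : EReal) := by
      rw [hρ]; exact_mod_cast hsρ
    exact this
  have h2 := eventually_lt_of_limsup_lt hlim
  have ht : Tendsto (fun r : ℝ => r ^ (σ - s)) atTop atTop := tendsto_rpow_atTop hsσ
  have h3 := ht.eventually_ge_atTop (1 + |Real.log (F.a 0)|)
  have h4 := (h2.and (h3.and (eventually_ge_atTop (2:ℝ))))
  obtain ⟨r0, hr0⟩ := eventually_atTop.1 h4
  refine ⟨σ, by rw [hσ]; linarith, by rw [hσ]; linarith, max r0 1, le_max_right _ _, ?_⟩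
  intro z hz
  obtain ⟨ha, hb, hc⟩ := hr0 ‖z‖ ((le_max_left _ _).trans hz)
  set r := ‖z‖ with hr
  have hrpos : 0 < r := by linarith
  have hr1 : 1 ≤ r := by linarith
  have hlogr : 0 < Real.log r := Real.log_pos (by linarith)
  have ha' : Real.log (Real.log (F.M r)) / Real.log r < s := by exact_mod_cast ha
  rw [div_lt_iff₀ hlogr] at ha'
  have hrs : 0 < r ^ s := Real.rpow_pos_of_pos hrpos s
  have hlogM : Real.log (F.M r) ≤ r ^ s := by
    by_cases h0 : Real.log (F.M r) ≤ 0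
    · linarith
    · push Not at h0
      have h5 : Real.log (r ^ s) = s * Real.log r := Real.log_rpow hrpos s
      rw [← h5] at ha'
      exact ((Real.log_lt_log_iff h0 hrs).1 ha').le
  have hM : F.M r ≤ Real.exp (r ^ s) := by
    by_cases h0 : F.M r ≤ 0
    · exact h0.trans (Real.exp_pos _).le
    · push Not at h0
      rw [← Real.exp_log h0]
      exact Real.exp_le_exp.2 hlogM
  have ha0 := F.a_pos 0
  have hfin : Real.exp (r ^ s) ≤ F.a 0 * Real.exp (r ^ σ) := by
    rw [← Real.exp_log ha0, ← Real.exp_add]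
    apply Real.exp_le_exp.2
    have e1 : r ^ σ = r ^ s * r ^ (σ - s) := by
      rw [← Real.rpow_add hrpos]; congr 1; ring
    have hrs1 : 1 ≤ r ^ s := Real.one_le_rpow hr1 hs0
    have e2 : r ^ s * (1 + |Real.log (F.a 0)|) ≤ r ^ s * r ^ (σ - s) :=
      mul_le_mul_of_nonneg_left hb hrs.le
    have e3 : |Real.log (F.a 0)| ≤ r ^ s * |Real.log (F.a 0)| :=
      le_mul_of_one_le_left (abs_nonneg _) hrs1
    have e4 := neg_abs_le (Real.log (F.a 0))
    rw [e1]
    linarith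
  exact ((F.norm_f_le_M z).trans hM).trans hfin

theorem ang_eq (n L : ℕ) (hn : 2 ≤ n) (hL : 1 ≤ L) :
    ang n L = Real.pi / n + Real.pi / (n * ((n : ℝ) * L - 1)) := by
  have hn' : (2:ℝ) ≤ n := by exact_mod_cast hn
  have hL' : (1:ℝ) ≤ L := by exact_mod_cast hL
  have h1 : (0:ℝ) < (n : ℝ) * L - 1 := by nlinarith
  have h2 : ((n : ℝ) * L - 1) ≠ 0 := h1.ne'
  have h3 : (n : ℝ) ≠ 0 := by linarith
  unfold ang
  rw [div_add_div _ _ h3 (mul_ne_zero h3 h2), div_eq_div_iff h2 (mul_ne_zero h3 (mul_ne_zero h3 h2))]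
  ring

theorem ang_lt (n L L' : ℕ) (hn : 2 ≤ n) (hL : 1 ≤ L) (hLL : L < L') : ang n L' < ang n L := by
  have hn' : (2:ℝ) ≤ n := by exact_mod_cast hn
  have hL' : (1:ℝ) ≤ L := by exact_mod_cast hL
  have hLL' : (L:ℝ) < L' := by exact_mod_cast hLL
  have h1 : (0:ℝ) < (n : ℝ) * L - 1 := by nlinarith
  rw [ang_eq n L hn hL, ang_eq n L' hn (by omega)]
  have : Real.pi / (n * ((n : ℝ) * L' - 1)) < Real.pi / (n * ((n : ℝ) * L - 1)) := by
    apply div_lt_div_of_pos_left Real.pi_pos (by positivity)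
    apply mul_lt_mul_of_pos_left _ (by linarith)
    nlinarith
  linarith

/-- normalised coefficients -/
def Lac.c (F : Lac) (j : ℕ) : ℝ :=
  open Classical in if h : ∃ k, F.e k = F.e 0 + j then F.a h.choose / F.a 0 else 0

/-- normalised function -/
def Lac.Fc (F : Lac) (z : ℂ) : ℂ :=
  open Classical in if z = 0 then 1 else F.f z / ((F.a 0 : ℂ) * z ^ F.e 0)

theorem Lac.e_ge (F : Lac) (k : ℕ) : F.e 0 ≤ F.e k := F.e_mono.monotone (Nat.zero_le k)

theorem Lac.c_e (F : Lac) (k : ℕ) : F.c (F.e k - F.e 0) = F.a k / F.a 0 := by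
  have h : ∃ k', F.e k' = F.e 0 + (F.e k - F.e 0) := ⟨k, by have := F.e_ge k; omega⟩
  unfold Lac.c
  rw [dif_pos h]
  have h2 : h.choose = k := by
    apply F.e_mono.injective
    have := h.choose_spec
    have h3 := F.e_ge k
    omega
  rw [h2]

theorem Lac.c_zero_of (F : Lac) (j : ℕ) (h : ¬ ∃ k, F.e k = F.e 0 + j) : F.c j = 0 := by
  unfold Lac.c
  rw [dif_neg h]

theorem Lac.c_nonneg (F : Lac) (j : ℕ) : 0 ≤ F.c j := by
  unfold Lac.c
  split_ifs with h
  · exact (div_pos (F.a_pos _) (F.a_pos _)).le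
  · exact le_rfl

theorem Lac.c_hasSum (F : Lac) (z : ℂ) : HasSum (fun j => (F.c j : ℂ) * z ^ j) (F.Fc z) := by
  have hinj : Function.Injective (fun k => F.e k - F.e 0) := by
    intro x y hxy
    have hx := F.e_ge x
    have hy := F.e_ge y
    simp only at hxy
    apply F.e_mono.injective
    omega
  have hout : ∀ x, x ∉ Set.range (fun k => F.e k - F.e 0) → (F.c x : ℂ) * z ^ x = 0 := by
    intro x hx
    rw [F.c_zero_of x]
    · simp
    · rintro ⟨k, hk⟩
      apply hx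
      exact ⟨k, by show F.e k - F.e 0 = x; omega⟩
  rw [← hinj.hasSum_iff hout]
  have ha0 : (F.a 0 : ℂ) ≠ 0 := by exact_mod_cast (F.a_pos 0).ne'
  by_cases hz : z = 0
  · subst hz
    have e1 : F.Fc 0 = 1 := by unfold Lac.Fc; rw [if_pos rfl]
    rw [e1]
    have h := hasSum_single (f := (fun j => (F.c j : ℂ) * (0:ℂ) ^ j) ∘ fun k => F.e k - F.e 0) 0
      (by
        intro k hk
        have hlt : F.e 0 < F.e k := F.e_mono (Nat.pos_of_ne_zero hk)
        simp only [Function.comp]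
        rw [zero_pow (by omega), mul_zero])
    have e2 : ((fun j => (F.c j : ℂ) * (0:ℂ) ^ j) ∘ fun k => F.e k - F.e 0) 0 = 1 := by
      simp only [Function.comp]
      rw [F.c_e 0, Nat.sub_self, pow_zero, div_self (F.a_pos 0).ne']
      simp
    rw [e2] at h
    exact h
  · have e1 : F.Fc z = F.f z / ((F.a 0 : ℂ) * z ^ F.e 0) := by unfold Lac.Fc; rw [if_neg hz]
    rw [e1]
    have h := (F.entire z).hasSum.div_const ((F.a 0 : ℂ) * z ^ F.e 0)
    have e2 : ((fun j => (F.c j : ℂ) * z ^ j) ∘ fun k => F.e k - F.e 0) =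
        fun k => (F.a k : ℂ) * z ^ F.e k / ((F.a 0 : ℂ) * z ^ F.e 0) := by
      funext k
      simp only [Function.comp]
      rw [F.c_e k]
      have h3 := F.e_ge k
      have e3 : z ^ F.e k = z ^ (F.e k - F.e 0) * z ^ F.e 0 := by
        rw [← pow_add]; congr 1; omega
      rw [e3]
      have hz0 : z ^ F.e 0 ≠ 0 := pow_ne_zero _ hz
      push_cast
      field_simp
    rw [e2]
    exact h

theorem Lac.Fc_zero (F : Lac) (z : ℂ) (h : F.Fc z = 0) : z ≠ 0 ∧ F.f z = 0 := by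
  have ha0 : (F.a 0 : ℂ) ≠ 0 := by exact_mod_cast (F.a_pos 0).ne'
  by_cases hz : z = 0
  · exfalso
    subst hz
    unfold Lac.Fc at h
    rw [if_pos rfl] at h
    exact one_ne_zero h
  · refine ⟨hz, ?_⟩
    unfold Lac.Fc at h
    rw [if_neg hz, div_eq_zero_iff] at h
    rcases h with h | h
    · exact h
    · exact absurd h (mul_ne_zero ha0 (pow_ne_zero _ hz))

theorem upper (n : ℕ) (hn : 2 ≤ n) (ρ : ℝ) (h0 : 0 ≤ ρ) (h1 : ρ < 1) (F : Lac)
    (hF : F ∈ G n (ρ : EReal)) : F.δ ≤ Real.pi / n := by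
  obtain ⟨hinf, hA, hord⟩ := hF
  by_contra hcon
  push Not at hcon
  have hn' : (2:ℝ) ≤ n := by exact_mod_cast hn
  -- choose L1
  obtain ⟨L1, hL1, hL1δ⟩ : ∃ L1 : ℕ, 2 ≤ L1 ∧ ang n L1 < F.δ := by
    set d := F.δ - Real.pi / n with hd
    have hdpos : 0 < d := by rw [hd]; linarith
    obtain ⟨N, hN⟩ := exists_nat_gt (Real.pi / d + 1)
    refine ⟨max N 2, le_max_right _ _, ?_⟩
    have hL1 : 1 ≤ max N 2 := by have := le_max_right N 2; omega
    rw [ang_eq n _ hn hL1]
    have hNr : (N:ℝ) ≤ ((max N 2 : ℕ) : ℝ) := by exact_mod_cast le_max_left N 2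
    set x : ℝ := ((max N 2 : ℕ) : ℝ) with hx
    have hx1 : Real.pi / d + 1 < x := by linarith
    have hpd : 0 < Real.pi / d := div_pos Real.pi_pos hdpos
    have hx0 : 1 < x := by linarith
    have h5 : x - 1 ≤ (n:ℝ) * (n * x - 1) := by
      have a1 : 2 * x ≤ n * x := mul_le_mul_of_nonneg_right hn' (by linarith)
      have a2 : 2 * (n * x - 1) ≤ n * (n * x - 1) :=
        mul_le_mul_of_nonneg_right hn' (by linarith)
      linarith
    have h6 : Real.pi / (n * (n * x - 1)) ≤ Real.pi / (x - 1) := by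
      apply div_le_div_of_nonneg_left Real.pi_pos.le (by linarith) h5
    have h7 : Real.pi / (x - 1) < d := by
      rw [div_lt_iff₀ (by linarith)]
      have : Real.pi / d < x - 1 := by linarith
      rw [div_lt_iff₀ hdpos] at this
      linarith
    rw [hd] at h7
    linarith
  -- the finite set
  set E1 : Set ℂ := {z | F.f z = 0 ∧ |z.arg| ≤ ang n L1} with hE1
  have hE1fin : E1.Finite := by
    have hev : ∀ᶠ z : F.zeros in cofinite, ang n L1 < |Complex.arg (z : ℂ)| := by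
      exact eventually_lt_of_lt_liminf hL1δ (isBoundedUnder_of ⟨0, fun z => abs_nonneg _⟩)
    rw [eventually_cofinite] at hev
    refine (hev.image Subtype.val).subset ?_
    rintro z ⟨hz1, hz2⟩
    exact ⟨⟨z, hz1⟩, by simpa using hz2, rfl⟩
  obtain ⟨L, hL1L, hLnot⟩ : ∃ L : ℕ, L1 ≤ L ∧ ang n L ∉ (fun z : ℂ => |z.arg|) '' E1 := by
    by_contra hall
    push Not at hall
    have hinj : Set.InjOn (fun L : ℕ => ang n L) (Set.Ici L1) := by
      intro x hx y hy hxy
      simp only [Set.mem_Ici] at hx hy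
      simp only at hxy
      rcases lt_trichotomy x y with h | h | h
      · have := ang_lt n x y hn (by omega) h
        linarith
      · exact h
      · have := ang_lt n y x hn (by omega) h
        linarith
    have hinf2 : ((fun L : ℕ => ang n L) '' Set.Ici L1).Infinite :=
      (Set.Ici_infinite L1).image hinj
    apply hinf2
    refine (hE1fin.image (fun z : ℂ => |z.arg|)).subset ?_
    rintro _ ⟨L, hL, rfl⟩
    exact hall L hL
  have hangLE : ang n L ≤ ang n L1 := by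
    rcases hL1L.lt_or_eq with h | h
    · exact (ang_lt n L1 L hn (by omega) h).le
    · rw [h]
  obtain ⟨σ, hσ0, hσ1, r0, hr0, hgrow⟩ := F.growth ρ h1 hord
  have ha0pos := F.a_pos 0
  apply main_upper F.c F.c_nonneg (by
      have := F.c_e 0
      rw [Nat.sub_self, div_self (F.a_pos 0).ne'] at this
      exact this) F.Fc F.c_hasSum σ hσ0 hσ1 r0 ?_ n L hn (by omega) ?_ ?_ ?_
  · intro z hz
    have hz1 : 1 ≤ ‖z‖ := hr0.trans hz
    have hzne : z ≠ 0 := by
      intro h; rw [h, norm_zero] at hz1; linarith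
    have e1 : F.Fc z = F.f z / ((F.a 0 : ℂ) * z ^ F.e 0) := by unfold Lac.Fc; rw [if_neg hzne]
    rw [e1, norm_div, norm_mul, norm_pow, Complex.norm_real, Real.norm_of_nonneg ha0pos.le]
    have hpow : 1 ≤ ‖z‖ ^ F.e 0 := one_le_pow₀ hz1
    rw [div_le_iff₀ (by positivity)]
    refine (hgrow z hz).trans ?_
    have : F.a 0 * Real.exp (‖z‖ ^ σ) ≤ (F.a 0 * Real.exp (‖z‖ ^ σ)) * ‖z‖ ^ F.e 0 :=
      le_mul_of_one_le_right (by positivity) hpow
    refine this.trans (le_of_eq ?_)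
    ring
  · intro ζ hζ heq
    obtain ⟨_, hz⟩ := F.Fc_zero ζ hζ
    apply hLnot
    exact ⟨ζ, ⟨hz, by rw [heq]; exact hangLE⟩, heq⟩
  · refine hE1fin.subset ?_
    rintro ζ ⟨hζ, hlt⟩
    obtain ⟨_, hz⟩ := F.Fc_zero ζ hζ
    exact ⟨hz, hlt.le.trans hangLE⟩
  · have hg := F.gaps_infinite n hn hA
    have hinj : Set.InjOn (fun k => F.e k - F.e 0) {k : ℕ | F.e (k + 1) = F.e k + n} := by
      intro x _ y _ hxy
      have hx := F.e_ge x
      have hy := F.e_ge y
      simp only at hxy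
      apply F.e_mono.injective
      omega
    refine (hg.image hinj).mono ?_
    rintro _ ⟨k, hk, rfl⟩
    have hk' : F.e (k + 1) = F.e k + n := hk
    have hge := F.e_ge k
    refine ⟨?_, ?_, ?_⟩
    · show 0 < F.c (F.e k - F.e 0)
      rw [F.c_e]; exact div_pos (F.a_pos _) (F.a_pos _)
    · show 0 < F.c (F.e k - F.e 0 + n)
      have e1 : F.e k - F.e 0 + n = F.e (k + 1) - F.e 0 := by omega
      rw [e1, F.c_e]; exact div_pos (F.a_pos _) (F.a_pos _)
    · intro i hi0 hin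
      show F.c (F.e k - F.e 0 + i) = 0
      apply F.c_zero_of
      rintro ⟨k', hk'2⟩
      have h2 : F.e k < F.e k' := by omega
      have h3 : F.e k' < F.e (k + 1) := by omega
      have h4 := F.e_mono.lt_iff_lt.1 h2
      have h5 := F.e_mono.lt_iff_lt.1 h3
      omega


end LacAngle
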